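import Pool.Agent.Lib.MP_34a149_al.Defs

/-!
The cost is at most one plus the rank gradient.
-/

namespace Pool.Agent.Lib.MP_34a149_al

open MeasureTheory Finset

lemma exists_space (Q : ℕ → Type) [∀ i, Group (Q i)] [∀ i, Finite (Q i)] :
    ∃ (_ : MeasurableSpace (∀ i, Q i)) (_ : StandardBorelSpace (∀ i, Q i))
      (μ : Measure (∀ i, Q i)), IsProbabilityMeasure μ ∧
      (∀ g, MeasurePreserving (fun x => g * x) μ μ) ∧
      ∀ i q, MeasurableSet {x : ∀ i, Q i | x i = q} := by
  let : ∀ i, TopologicalSpace (Q i) := fun _ => ⊥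
  have : ∀ i, DiscreteTopology (Q i) := fun _ => ⟨rfl⟩
  let : MeasurableSpace (∀ i, Q i) := borel _
  have : BorelSpace (∀ i, Q i) := ⟨rfl⟩
  refine ⟨inferInstance, inferInstance, Measure.haarMeasure ⊤, ⟨?_⟩,
    fun g => measurePreserving_mul_left _ g, fun i q => ?_⟩
  · exact Measure.haarMeasure_self (K₀ := ⊤)
  · exact (isClosed_eq (continuous_apply i) continuous_const).measurableSet

lemma cost_le_of_action {G X : Type} [Group G] [MeasurableSpace X] [StandardBorelSpace X]
    [MulAction G X] (μ : Measure X) (hμ : IsFreePmp G X μ) (Γ : Subgroup G) [Γ.Normal]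
    [Γ.FiniteIndex] (π : X → G ⧸ Γ) (hπ : ∀ (g : G) x, π (g • x) = g * π x)
    (hm : ∀ q, MeasurableSet {x | π x = q}) (S : Finset Γ)
    (hS : Subgroup.closure (S : Set Γ) = ⊤) :
    cost G ≤ ENNReal.ofReal (1 + ((S.card : ℝ) - 1) / Γ.index) := by
  classical
  obtain ⟨hp, hmp, hfree⟩ := hμ
  have : Fintype (G ⧸ Γ) := Fintype.ofFinite _
  let t : {q : G ⧸ Γ // q ≠ 1} ⊕ S → G := Sum.elim (fun q => q.1.out) fun γ => γ.1.1
  have himg : ∀ (g : G) (B : Set X), MeasurableSet B → μ ((fun x => g • x) '' B) = μ B := by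
    intro g B hB
    rw [← (hmp g⁻¹).measure_preimage hB.nullMeasurableSet]
    congr 1
    ext x
    exact ⟨by rintro ⟨y, hy, rfl⟩; simpa using hy, fun h => ⟨_, h, by simp⟩⟩
  have hgr : IsGraphing G μ (fun _ => {x | π x = 1}) fun j x => t j • x := by
    refine ⟨fun j => ⟨hm 1, (hmp _).measurable, (MulAction.injective _).injOn,
      fun B hB _ => himg _ B hB⟩, Filter.Eventually.of_forall fun x y => ⟨?_, fun h => ?_⟩⟩
    · set r : X → X → Prop := fun u v => ∃ j, u ∈ {x | π x = 1} ∧ t j • u = v with hr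
      have h1 : ∀ γ : Γ, ∀ u, π u = 1 → Relation.EqvGen r u ((γ : G) • u) := by
        intro γ
        have hγ : γ ∈ Subgroup.closure (S : Set Γ) := by rw [hS]; trivial
        have hq : ∀ (δ : Γ) u, π u = 1 → π ((δ : G) • u) = 1 := fun δ u hu => by
          rw [hπ, hu, (QuotientGroup.eq_one_iff _).2 δ.2, mul_one]
        induction hγ using Subgroup.closure_induction with
        | mem x hx => exact fun u hu => .rel _ _ ⟨Sum.inr ⟨x, hx⟩, hu, rfl⟩
        | one => exact fun u _ => by simpa using .refl u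
        | mul a b _ _ ha hb =>
          intro u hu
          rw [Subgroup.coe_mul, mul_smul]
          exact .trans _ _ _ (hb u hu) (ha _ (hq b u hu))
        | inv a _ ha =>
          intro u hu
          have := ha _ (hq a⁻¹ u hu)
          rw [Subgroup.coe_inv, smul_inv_smul] at this
          exact .symm _ _ this
      have h2 : ∀ u, π ((π u).out⁻¹ • u) = 1 := fun u => by simp [hπ]
      have h3 : ∀ u, Relation.EqvGen r ((π u).out⁻¹ • u) u := fun u => by
        by_cases h : π u = 1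
        · have := h1 ⟨(π u).out, (QuotientGroup.eq_one_iff _).1 (by simp [h])⟩ _ (h2 u)
          simpa using this
        · exact .rel _ _ ⟨Sum.inl ⟨π u, h⟩, h2 u, by simp [t]⟩
      rintro ⟨g, rfl⟩
      have h4 := h1 ⟨(π (g • x)).out⁻¹ * g * (π x).out,
        (QuotientGroup.eq_one_iff _).1 (by simp [hπ])⟩ _ (h2 x)
      simp only [mul_smul, smul_inv_smul] at h4
      exact .trans _ _ _ (.symm _ _ (h3 x)) (.trans _ _ _ h4 (h3 _))
    · induction h with
      | rel u v h => exact h.elim fun j h => ⟨_, h.2⟩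
      | refl u => exact ⟨1, one_smul _ _⟩
      | symm u v _ h => exact h.elim fun g h => ⟨g⁻¹, by rw [← h, inv_smul_smul]⟩
      | trans u v w _ _ h h' =>
        exact h.elim fun g h => h'.elim fun g' h' => ⟨g' * g, by rw [mul_smul, h, h']⟩
  have hfib : ∀ q, μ {x | π x = q} = μ {x | π x = 1} := fun q => by
    rw [← (hmp q.out).measure_preimage (hm q).nullMeasurableSet]
    congr 1
    ext x
    simp [hπ]
  have hsum : (Γ.index : ENNReal) * μ {x | π x = 1} = 1 := by
    have := sum_measure_preimage_singleton (μ := μ) (univ : Finset (G ⧸ Γ)) (f := π)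
      fun q _ => hm q
    rw [sum_congr (f := fun q => μ (π ⁻¹' {q})) (g := fun _ => μ {x | π x = 1}) rfl
      fun q _ => hfib q] at this
    simpa [Subgroup.index_eq_card] using this
  have hpos : 0 < Γ.index := Nat.pos_of_ne_zero Subgroup.FiniteIndex.index_ne_zero
  have h4 : Fintype.card {x : G ⧸ Γ // x ≠ 1} + 1 = Γ.index := by
    rw [Fintype.card_subtype_compl, Fintype.card_subtype_eq, Subgroup.index_eq_card,
      Nat.card_eq_fintype_card]
    have : 0 < Fintype.card (G ⧸ Γ) := Fintype.card_pos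
    omega
  refine le_trans (b := ∑' _ : {q : G ⧸ Γ // q ≠ 1} ⊕ S, μ {x | π x = 1})
    (sInf_le ⟨X, _, inferInstance, _, μ, _, inferInstance, _, _, ⟨hp, hmp, hfree⟩, hgr, rfl⟩)
    (le_of_eq ?_)
  rw [tsum_fintype, sum_const, card_univ, Fintype.card_sum, Fintype.card_coe, nsmul_eq_mul,
    ENNReal.eq_inv_of_mul_eq_one_left ((mul_comm _ _).trans hsum), ← div_eq_mul_inv,
    ← ENNReal.ofReal_natCast, ← ENNReal.ofReal_natCast Γ.index,
    ← ENNReal.ofReal_div_of_pos (by exact_mod_cast hpos)]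
  congr 1
  rw [← h4]
  push_cast
  field_simp
  ring

theorem cost_le {G : Type} [Group G] (Γ : ℕ → Subgroup G) [∀ i, (Γ i).Normal]
    [∀ i, (Γ i).FiniteIndex] (hbot : ∀ g, (∀ i, g ∈ Γ i) → g = 1) (i : ℕ) (S : Finset (Γ i))
    (hS : Subgroup.closure (S : Set (Γ i)) = ⊤) :
    cost G ≤ ENNReal.ofReal (1 + ((S.card : ℝ) - 1) / (Γ i).index) := by
  obtain ⟨_, _, μ, h1, h2, h3⟩ := exists_space fun i => G ⧸ Γ i
  let : MulAction G (∀ i, G ⧸ Γ i) :=
    MulAction.compHom _ (MonoidHom.pi fun i => QuotientGroup.mk' (Γ i))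
  refine cost_le_of_action μ ⟨h1, fun g => h2 _, fun g hg => ?_⟩ (Γ i) (fun x => x i)
    (fun g x => rfl) (h3 i) S hS
  convert measure_empty (μ := μ)
  refine Set.eq_empty_of_forall_notMem fun x hx => hg (hbot g fun k => ?_)
  have : (g : G ⧸ Γ k) * x k = x k := congrFun hx k
  exact (QuotientGroup.eq_one_iff g).1 (by simpa using this)

end Pool.Agent.Lib.MP_34a149_al
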