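import Mathlib

/-!
Definitions: first Betti numbers, minimal number of generators, cost, bi-orderable and amenable
groups.
-/

namespace Pool.Agent.Lib.MP_34a149_al

open MeasureTheory

/-- `b_1(H; F)`, the dimension of the first group homology with trivial coefficients `F`. -/
noncomputable def b1 (F : Type) [Field F] (H : Type) [Group H] : ℕ :=
  Module.finrank F (groupHomology (Rep.trivial F H F) 1)

/-- `d(H)`, the minimal number of generators of a finitely generated group. -/
noncomputable def genRank (H : Type) [Group H] : ℕ :=
  sInf {n | ∃ S : Finset H, S.card = n ∧ Subgroup.closure (S : Set H) = ⊤}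

/-- The group has a strict total order invariant under left and right multiplication. -/
def BiOrderable (Q : Type) [Group Q] : Prop :=
  ∃ r : Q → Q → Prop, IsStrictTotalOrder Q r ∧
    ∀ a b c : Q, r a b → r (c * a) (c * b) ∧ r (a * c) (b * c)

open Classical in
/-- Amenability, in the form of the Folner condition. -/
def Amenable (Q : Type) [Group Q] : Prop :=
  ∀ (K : Finset Q) (ε : ℝ), 0 < ε → ∃ T : Finset Q, T.Nonempty ∧
    ∀ k ∈ K, ((symmDiff (T.image fun t => k * t) T).card : ℝ) ≤ ε * T.card

/-- An essentially free measure-preserving action of `G` on the probability space `(X, μ)`. -/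
def IsFreePmp (G X : Type) [Group G] [MulAction G X] [MeasurableSpace X] (μ : Measure X) : Prop :=
  IsProbabilityMeasure μ ∧ (∀ g : G, MeasurePreserving (fun x : X => g • x) μ μ) ∧
    ∀ g : G, g ≠ 1 → μ {x | g • x = x} = 0

/-- `(A j, f j)` is a graphing of the orbit equivalence relation: each `f j` is measurable,
injective and measure preserving on the measurable set `A j`, and almost every orbit is the class
of the equivalence relation generated by the pairs `(u, f j u)` with `u ∈ A j`. -/
def IsGraphing (G : Type) {X J : Type} [Group G] [MulAction G X] [MeasurableSpace X]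
    (μ : Measure X) (A : J → Set X) (f : J → X → X) : Prop :=
  (∀ j, MeasurableSet (A j) ∧ Measurable (f j) ∧ Set.InjOn (f j) (A j) ∧
    ∀ B, MeasurableSet B → B ⊆ A j → μ (f j '' B) = μ B) ∧
  ∀ᵐ x ∂μ, ∀ y, (∃ g : G, g • x = y) ↔ Relation.EqvGen (fun u v => ∃ j, u ∈ A j ∧ f j u = v) x y

/-- The cost of `G`: the infimum of `∑ j, μ (A j)` over all essentially free measure-preserving
actions on standard Borel probability spaces and all countable graphings of their orbit
equivalence relations. -/
noncomputable def cost (G : Type) [Group G] : ENNReal :=
  sInf {c | ∃ (X : Type) (_ : MeasurableSpace X) (_ : StandardBorelSpace X) (_ : MulAction G X)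
    (μ : Measure X) (J : Type) (_ : Countable J) (A : J → Set X) (f : J → X → X),
    IsFreePmp G X μ ∧ IsGraphing G μ A f ∧ c = ∑' j, μ (A j)}

end Pool.Agent.Lib.MP_34a149_al
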