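import Mathlib

/-!
Definitions: the zeroth and first `L²`-Betti numbers of a finitely generated group.
-/

namespace Pool.Agent.Lib.MP_34a149_al

/-- The diagonal coefficient `⟨P x, x⟩` of the orthogonal projection `P` onto the closed span of
a subset `W` of a real Hilbert space. -/
noncomputable def projCoeff {E : Type} [NormedAddCommGroup E] [InnerProductSpace ℝ E]
    [CompleteSpace E] (W : Set E) (x : E) : ℝ :=
  inner ℝ ((Submodule.span ℝ W).topologicalClosure.starProjection x) x

open Classical in
/-- The von Neumann dimension of the closed span of a translation invariant subset `W` of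
`ℓ²(G × α)`: the trace `∑ a, ⟨P δ(1,a), δ(1,a)⟩` of the orthogonal projection `P` onto it. -/
noncomputable def vnDim {G α : Type} [Group G] [Fintype α]
    (W : Set (lp (fun _ : G × α => ℝ) 2)) : ℝ :=
  ∑ a, projCoeff W (lp.single 2 (1, a) 1)

/-- Harmonic square summable 1-cochains on the Cayley graph of `G` with respect to `s`, whose edge
`(g, a)` goes from `g` to `g * s a`: cocycles (differences of a function on the vertices) that are
divergence free. -/
def harmonic {G α : Type} [Group G] [Fintype α] (s : α → G) :
    Set (lp (fun _ : G × α => ℝ) 2) :=
  {ω | (∃ f : G → ℝ, ∀ g a, ω (g, a) = f (g * s a) - f g) ∧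
    ∀ g, ∑ a, ω (g * (s a)⁻¹, a) = ∑ a, ω (g, a)}

/-- Harmonic square summable 0-cochains: the constant square summable functions on `G`. -/
def constants (G : Type) : Set (lp (fun _ : G × Unit => ℝ) 2) := {u | ∀ e e', u e = u e'}

/-- The first `L²`-Betti number, computed with the finite generating family `s`. -/
noncomputable def l2b1 {G α : Type} [Group G] [Fintype α] (s : α → G) : ℝ := vnDim (harmonic s)

/-- The zeroth `L²`-Betti number. -/
noncomputable def l2b0 (G : Type) [Group G] : ℝ := vnDim (constants G)

end Pool.Agent.Lib.MP_34a149_al
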