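import Pool.Agent.Lib.MP_34a149_al.Defs
import Mathlib
import Pool.Agent.Lib.MP_34a149_al.DefsL2

-- part Pool.Agent.Lib.MP_34a149_al.Rank
section

/-!
Generators of finite index subgroups from connected graphs, and first homology.
-/

namespace Pool.Agent.Lib.MP_34a149_al

open Finset Classical

lemma genRank_le {Γ : Type} [Group Γ] (S : Finset Γ) (h : Subgroup.closure (S : Set Γ) = ⊤) :
    genRank Γ ≤ S.card := Nat.sInf_le ⟨S, rfl, h⟩

lemma exists_genRank {Γ : Type} [Group Γ] (S : Finset Γ) (h : Subgroup.closure (S : Set Γ) = ⊤) :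
    ∃ S' : Finset Γ, S'.card = genRank Γ ∧ Subgroup.closure (S' : Set Γ) = ⊤ :=
  Nat.sInf_mem (s := {n | ∃ S : Finset Γ, S.card = n ∧ Subgroup.closure (S : Set Γ) = ⊤})
    ⟨_, S, rfl, h⟩

theorem rank_bound {G α : Type} [Group G] (Γ : Subgroup G) [Γ.Normal] [Γ.FiniteIndex]
    (s : α → G) (E : Finset ((G ⧸ Γ) × α))
    (hconn : ∀ C : Set G, 1 ∈ C →
      (∀ (g : G) (a : α), ((g : G ⧸ Γ), a) ∈ E → (g ∈ C ↔ g * s a ∈ C)) → ∀ g, g ∈ C) :
    ∃ S : Finset Γ, Subgroup.closure (S : Set Γ) = ⊤ ∧ S.card + Γ.index ≤ E.card + 1 := by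
  have tree : ∀ m, m + 1 ≤ Γ.index → ∃ (A : Finset (G ⧸ Γ)) (τ : G ⧸ Γ → G)
      (D : Finset ((G ⧸ Γ) × α)), D ⊆ E ∧ A.card = m + 1 ∧ D.card = m ∧ 1 ∈ A ∧ τ 1 = 1 ∧
      (∀ x, (τ x : G ⧸ Γ) = x) ∧
      ∀ e ∈ D, e.1 ∈ A ∧ e.1 * s e.2 ∈ A ∧ τ (e.1 * s e.2) = τ e.1 * s e.2 := by
    intro m
    induction m with
    | zero =>
      intro _
      refine ⟨{1}, fun x => if x = 1 then 1 else x.out, ∅, empty_subset _, rfl, rfl, by simp,
        by simp, fun x => ?_, by simp⟩
      by_cases h : x = 1 <;> simp [h]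
    | succ m ih =>
      intro hm
      obtain ⟨A, τ, D, a1, a2, a3, a4, a5, a6, a7⟩ := ih (by omega)
      have : ∃ (g : G) (a : α), ((g : G ⧸ Γ), a) ∈ E ∧
          ¬ ((g : G ⧸ Γ) ∈ A ↔ (g : G ⧸ Γ) * s a ∈ A) := by
        by_contra h
        push Not at h
        have h1 := hconn {g | (g : G ⧸ Γ) ∈ A} a4 fun g a he => h g a he
        have : Fintype (G ⧸ Γ) := Fintype.ofFinite _
        have h2 : A = univ := eq_univ_of_forall fun x => by
          have := h1 x.out
          simpa using this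
        rw [h2, card_univ, ← Nat.card_eq_fintype_card, ← Subgroup.index_eq_card] at a2
        omega
      obtain ⟨g, a, he, hne⟩ := this
      generalize (g : G ⧸ Γ) = x at he hne
      have hD : (x, a) ∉ D := fun h => hne ⟨fun _ => (a7 _ h).2.1, fun _ => (a7 _ h).1⟩
      by_cases hx : x ∈ A
      · have hy : x * s a ∉ A := fun h => hne ⟨fun _ => h, fun _ => hx⟩
        have hup : ∀ z ∈ A, Function.update τ (x * s a) (τ x * s a) z = τ z := fun z hz =>
          Function.update_of_ne (by rintro rfl; exact hy hz) _ _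
        refine ⟨insert (x * s a) A, Function.update τ (x * s a) (τ x * s a), insert (x, a) D,
          insert_subset he a1, by rw [card_insert_of_notMem hy, a2],
          by rw [card_insert_of_notMem hD, a3], mem_insert_of_mem a4, by rw [hup 1 a4, a5],
          fun z => ?_, fun e h => ?_⟩
        · by_cases h : z = x * s a
          · subst h
            simp [a6]
          · rw [Function.update_of_ne h, a6]
        · rcases mem_insert.1 h with rfl | h
          · exact ⟨mem_insert_of_mem hx, mem_insert_self _ _, by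
              rw [Function.update_self, hup x hx]⟩
          · obtain ⟨b1, b2, b3⟩ := a7 e h
            exact ⟨mem_insert_of_mem b1, mem_insert_of_mem b2, by rw [hup _ b1, hup _ b2, b3]⟩
      · have hy : x * s a ∈ A := by
          by_contra h
          exact hne ⟨fun h1 => absurd h1 hx, fun h1 => absurd h1 h⟩
        have hup : ∀ z ∈ A, Function.update τ x (τ (x * s a) * (s a)⁻¹) z = τ z := fun z hz =>
          Function.update_of_ne (by rintro rfl; exact hx hz) _ _
        refine ⟨insert x A, Function.update τ x (τ (x * s a) * (s a)⁻¹), insert (x, a) D,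
          insert_subset he a1, by rw [card_insert_of_notMem hx, a2],
          by rw [card_insert_of_notMem hD, a3], mem_insert_of_mem a4, by rw [hup 1 a4, a5],
          fun z => ?_, fun e h => ?_⟩
        · by_cases h : z = x
          · subst h
            simp [a6]
          · rw [Function.update_of_ne h, a6]
        · rcases mem_insert.1 h with rfl | h
          · exact ⟨mem_insert_self _ _, mem_insert_of_mem hy, by
              rw [Function.update_self, hup _ hy]; simp⟩
          · obtain ⟨b1, b2, b3⟩ := a7 e h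
            exact ⟨mem_insert_of_mem b1, mem_insert_of_mem b2, by rw [hup _ b1, hup _ b2, b3]⟩
  have hpos : 0 < Γ.index := Nat.pos_of_ne_zero Subgroup.FiniteIndex.index_ne_zero
  obtain ⟨A, τ, D, a1, -, a3, -, a5, a6, a7⟩ := tree (Γ.index - 1) (by omega)
  let gen : (G ⧸ Γ) × α → Γ := fun e => ⟨τ e.1 * s e.2 * (τ (e.1 * s e.2))⁻¹, by
    rw [← QuotientGroup.eq_one_iff]
    simp [a6]⟩
  let ψ : G → Γ := fun g => ⟨g * (τ g)⁻¹, by
    rw [← QuotientGroup.eq_one_iff]
    simp [a6]⟩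
  refine ⟨(E \ D).image gen, ?_, ?_⟩
  · set L := Subgroup.closure (((E \ D).image gen : Finset Γ) : Set Γ) with hL
    have h1 : ∀ e ∈ E, gen e ∈ L := by
      intro e he
      by_cases h : e ∈ D
      · have : gen e = 1 := Subtype.ext (by simp [gen, (a7 e h).2.2])
        rw [this]
        exact one_mem _
      · exact Subgroup.subset_closure (mem_coe.2 (mem_image_of_mem _ (mem_sdiff.2 ⟨he, h⟩)))
    have h2 := hconn {g | ψ g ∈ L} (by
      have : ψ 1 = 1 := Subtype.ext (by simp [ψ, a5])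
      change ψ 1 ∈ L
      rw [this]
      exact one_mem _) (by
      intro g a he
      have : ψ (g * s a) = ψ g * gen ((g : G ⧸ Γ), a) := Subtype.ext (by simp [ψ, gen, mul_assoc])
      change ψ g ∈ L ↔ ψ (g * s a) ∈ L
      rw [this]
      exact (Subgroup.mul_mem_cancel_right L (h1 _ he)).symm)
    rw [eq_top_iff]
    intro γ _
    have h3 : ψ γ = γ := Subtype.ext (by
      simp [ψ, (QuotientGroup.eq_one_iff (γ : G)).2 γ.2, a5])
    have := h2 γ
    change ψ γ ∈ L at this
    rwa [h3] at this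
  · have h1 := card_image_le (s := E \ D) (f := gen)
    have h2 := card_sdiff_add_card_eq_card a1
    omega

section homology

open groupHomology

variable (F : Type) [Field F] {Γ : Type} [Group Γ]

noncomputable def clsL : (Γ →₀ F) →ₗ[F] H1 (Rep.trivial F Γ F) :=
  (H1π (Rep.trivial F Γ F)).hom ∘ₗ (cycles₁IsoOfIsTrivial (Rep.trivial F Γ F)).inv.hom

lemma clsL_surj : Function.Surjective (clsL F (Γ := Γ)) := by
  intro x
  induction x using H1_induction_on with
  | h x => exact ⟨x.1, rfl⟩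

lemma clsL_eq_zero (x : Γ →₀ F) : clsL F x = 0 ↔ x ∈ boundaries₁ (Rep.trivial F Γ F) :=
  H1π_eq_zero_iff _

lemma clsL_mul (g h : Γ) : clsL F (Finsupp.single (g * h) 1) =
    clsL F (Finsupp.single g 1) + clsL F (Finsupp.single h 1) := by
  rw [← map_add, eq_comm, ← sub_eq_zero, ← map_sub, clsL_eq_zero]
  refine ⟨Finsupp.single (g, h) 1, ?_⟩
  have := d₂₁_single (A := Rep.trivial F Γ F) (g, h) 1
  refine this.trans ?_
  have e : ((Rep.trivial F Γ F).ρ g⁻¹) (1 : F) = 1 := rfl
  simp only [e]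
  abel

lemma span_cls (S : Finset Γ) (hS : Subgroup.closure (S : Set Γ) = ⊤) :
    Submodule.span F ((S.image fun g => clsL F (Finsupp.single g 1) : Finset _) :
      Set (H1 (Rep.trivial F Γ F))) = ⊤ := by
  set V := Submodule.span F ((S.image fun g => clsL F (Finsupp.single g 1) : Finset _) :
      Set (H1 (Rep.trivial F Γ F)))
  have h1 : clsL F (Finsupp.single (1 : Γ) 1) = 0 := by
    have := clsL_mul F (1 : Γ) 1
    rw [mul_one] at this
    simpa using this
  have h2 : ∀ g : Γ, clsL F (Finsupp.single g 1) ∈ V := by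
    intro g
    have hg : g ∈ Subgroup.closure (S : Set Γ) := by rw [hS]; trivial
    induction hg using Subgroup.closure_induction with
    | mem x hx => exact Submodule.subset_span (mem_coe.2 (mem_image_of_mem _ hx))
    | one => rw [h1]; exact zero_mem _
    | mul x y _ _ hx hy => rw [clsL_mul]; exact add_mem hx hy
    | inv x _ hx =>
      have := clsL_mul F x x⁻¹
      rw [mul_inv_cancel, h1] at this
      rw [eq_neg_of_add_eq_zero_right this.symm]
      exact neg_mem hx
  rw [eq_top_iff]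
  intro x _
  obtain ⟨c, rfl⟩ := clsL_surj F x
  induction c using Finsupp.induction_linear with
  | zero => simp
  | add a b ha hb => rw [map_add]; exact add_mem (ha trivial) (hb trivial)
  | single g r =>
    rw [← mul_one r, ← smul_eq_mul, ← Finsupp.smul_single, map_smul]
    exact V.smul_mem r (h2 g)

lemma b1_le (S : Finset Γ) (hS : Subgroup.closure (S : Set Γ) = ⊤) : b1 F Γ ≤ S.card := by
  have := finrank_span_finset_le_card (R := F) (S.image fun g => clsL F (Finsupp.single g 1))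
  unfold Set.finrank at this
  rw [span_cls F S hS, finrank_top] at this
  exact this.trans card_image_le

lemma exists_dual (l : Γ → F) (hl : ∀ g h, l (g * h) = l g + l h) :
    ∃ L : H1 (Rep.trivial F Γ F) →ₗ[F] F, ∀ g, L (clsL F (Finsupp.single g 1)) = l g := by
  have hk : LinearMap.ker (clsL F (Γ := Γ)) ≤ LinearMap.ker (Finsupp.linearCombination F l) := by
    intro x hx
    obtain ⟨c, rfl⟩ := (clsL_eq_zero F x).1 hx
    clear hx
    induction c using Finsupp.induction_linear with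
    | zero => simp
    | add a b ha hb => rw [map_add]; exact add_mem ha hb
    | single g r =>
      have := d₂₁_single (A := Rep.trivial F Γ F) g r
      rw [LinearMap.mem_ker]
      refine (congrArg _ this).trans ?_
      simp [hl]
      ring
  refine ⟨((LinearMap.ker (clsL F (Γ := Γ))).liftQ _ hk) ∘ₗ
    ((clsL F).quotKerEquivOfSurjective (clsL_surj F)).symm.toLinearMap, fun g => ?_⟩
  simp [LinearMap.quotKerEquivOfSurjective_symm_apply]

lemma finrank_le_b1 (S : Finset Γ) (hS : Subgroup.closure (S : Set Γ) = ⊤) {Ω X : Type}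
    [AddCommGroup Ω] [Module F Ω] [Fintype X] (Ψ : Ω →ₗ[F] (Γ → F) × (X → F))
    (hinj : Function.Injective Ψ) (hadd : ∀ ω g h, (Ψ ω).1 (g * h) = (Ψ ω).1 g + (Ψ ω).1 h) :
    Module.finrank F Ω ≤ b1 F Γ + Fintype.card X := by
  have : Module.Finite F (H1 (Rep.trivial F Γ F)) := ⟨⟨_, span_cls F S hS⟩⟩
  let ev : Module.Dual F (H1 (Rep.trivial F Γ F)) →ₗ[F] (Γ → F) :=
    LinearMap.pi fun g => Module.Dual.eval F _ (clsL F (Finsupp.single g 1))
  have h1 : LinearMap.range Ψ ≤ LinearMap.range (ev.prodMap (LinearMap.id : (X → F) →ₗ[F] _)) := by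
    rintro _ ⟨ω, rfl⟩
    obtain ⟨L, hL⟩ := exists_dual F _ (hadd ω)
    exact ⟨(L, (Ψ ω).2), Prod.ext (funext fun g => hL g) rfl⟩
  have h2 := Submodule.finrank_mono h1
  have h3 := LinearMap.finrank_range_le (ev.prodMap (LinearMap.id : (X → F) →ₗ[F] _))
  rw [LinearMap.finrank_range_of_inj hinj] at h2
  rw [Module.finrank_prod, Subspace.dual_finrank_eq, Module.finrank_fintype_fun_eq_card] at h3
  exact h2.trans h3

end homology

end Pool.Agent.Lib.MP_34a149_al
end

-- part Pool.Agent.Lib.MP_34a149_al.Cover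
section

/-!
Covering finite quotients by translates of Folner sets.
-/

namespace Pool.Agent.Lib.MP_34a149_al

open Finset Classical

lemma cover_greedy {X : Type} [Group X] [Fintype X] (B : Finset X) (m : ℕ) :
    ∃ A : Finset X, A.card ≤ m ∧
      (univ.filter fun x => ∀ a ∈ A, a⁻¹ * x ∉ B).card * (Fintype.card X + m * B.card) ≤
        Fintype.card X * Fintype.card X := by
  induction m with
  | zero => exact ⟨∅, le_rfl, by simp⟩
  | succ m ih =>
    obtain ⟨A, h1, h2⟩ := ih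
    set u := univ.filter fun x => ∀ a ∈ A, a⁻¹ * x ∉ B with hu
    have hs : ∑ a : X, (u.filter fun x => a⁻¹ * x ∈ B).card = u.card * B.card := by
      simp only [card_filter]
      rw [sum_comm, ← smul_eq_mul, ← sum_const]
      refine sum_congr rfl fun x _ => ?_
      rw [← card_filter]
      refine card_bij (fun a _ => a⁻¹ * x) (fun a ha => (mem_filter.1 ha).2) ?_ ?_
      · intro a _ a' _ h
        simpa using h
      · intro b hb
        exact ⟨x * b⁻¹, by simp [hb], by simp⟩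
    obtain ⟨a, -, ha⟩ := exists_le_of_sum_le (s := (univ : Finset X)) univ_nonempty
      (f := fun _ => u.card * B.card)
      (g := fun a => Fintype.card X * (u.filter fun x => a⁻¹ * x ∈ B).card) (by
        rw [← mul_sum (a := Fintype.card X), hs]
        simp)
    refine ⟨insert a A, (card_insert_le _ _).trans (by omega), ?_⟩
    have e : (univ.filter fun x => ∀ a' ∈ insert a A, a'⁻¹ * x ∉ B) =
        u.filter fun x => ¬ a⁻¹ * x ∈ B := by
      ext x
      simp [hu, and_comm]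
    rw [e]
    have h3 := card_filter_add_card_filter_not (s := u) (fun x => a⁻¹ * x ∈ B)
    have h4 : 0 < Fintype.card X := Fintype.card_pos
    generalize (u.filter fun x => a⁻¹ * x ∈ B).card = p at *
    generalize (u.filter fun x => ¬ a⁻¹ * x ∈ B).card = q at *
    generalize Fintype.card X = n at *
    generalize B.card = b at *
    rw [← h3] at h2 ha
    refine le_trans ?_ h2
    have : q * b ≤ p * n := by nlinarith
    nlinarith [Nat.zero_le (p * m * b)]

lemma cover_finite {X : Type} [Group X] [Fintype X] (B D : Finset X) (hB : B.Nonempty) (l : ℕ) :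
    ∃ W : Finset X, (W.card : ℝ) ≤ ((l + 1) * D.card / B.card + 1 / (l + 1)) * Fintype.card X ∧
      ∀ x ∉ W, ∃ a, a⁻¹ * x ∈ B ∧ ∀ d ∈ D, a * d ∈ W := by
  have hb : 0 < B.card := card_pos.2 hB
  have hn : 0 < Fintype.card X := Fintype.card_pos
  have hbn : B.card ≤ Fintype.card X := card_le_univ B
  obtain ⟨A, h1, h2⟩ := cover_greedy B (l * Fintype.card X / B.card + 1)
  refine ⟨image₂ (· * ·) A D ∪ univ.filter fun x => ∀ a ∈ A, a⁻¹ * x ∉ B, ?_, ?_⟩
  · have a1 := card_union_le (image₂ (· * ·) A D) (univ.filter fun x => ∀ a ∈ A, a⁻¹ * x ∉ B)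
    have a2 := card_image₂_le (· * ·) A D
    have a3 := Nat.div_add_mod (l * Fintype.card X) B.card
    have a4 := Nat.mod_lt (l * Fintype.card X) hb
    generalize (image₂ (· * ·) A D ∪ univ.filter fun x => ∀ a ∈ A, a⁻¹ * x ∉ B).card = w at *
    generalize (image₂ (· * ·) A D).card = v at *
    generalize (univ.filter fun x => ∀ a ∈ A, a⁻¹ * x ∉ B).card = u at *
    generalize l * Fintype.card X / B.card = m at *
    generalize l * Fintype.card X % B.card = r at *
    generalize Fintype.card X = n at *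
    have b1 : u * (l + 1) ≤ n := by
      have : u * ((l + 1) * n) ≤ n * n := by
        refine le_trans (Nat.mul_le_mul_left _ ?_) h2
        nlinarith
      nlinarith
    have b2 : v * B.card ≤ (l + 1) * D.card * n := by
      have c1 : A.card * B.card ≤ (l + 1) * n := by nlinarith
      calc v * B.card ≤ A.card * D.card * B.card := Nat.mul_le_mul_right _ a2
        _ = D.card * (A.card * B.card) := by ring
        _ ≤ D.card * ((l + 1) * n) := Nat.mul_le_mul_left _ c1
        _ = _ := by ring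
    have b1' : (u : ℝ) ≤ 1 / (l + 1) * n := by
      rw [one_div_mul_eq_div, le_div_iff₀ (by positivity)]
      exact_mod_cast b1
    have b2' : (v : ℝ) ≤ (l + 1) * D.card / B.card * n := by
      rw [div_mul_eq_mul_div, le_div_iff₀ (by positivity)]
      exact_mod_cast b2
    have a1' : (w : ℝ) ≤ v + u := by exact_mod_cast a1
    linarith
  · intro x hx
    rw [mem_union, not_or] at hx
    have h3 := hx.2
    simp only [mem_filter, mem_univ, true_and, not_forall, not_not] at h3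
    obtain ⟨a, ha, h4⟩ := h3
    exact ⟨a, h4, fun d hd => mem_union_left _ (mem_image₂_of_mem ha hd)⟩

lemma Amenable.right {Q : Type} [Group Q] (h : Amenable Q) (K : Finset Q) {ε : ℝ} (hε : 0 < ε) :
    ∃ T : Finset Q, T.Nonempty ∧
      ∀ k ∈ K, ((T.filter fun t => t * k ∉ T).card : ℝ) ≤ ε * T.card := by
  obtain ⟨T, h1, h2⟩ := h (K.image (·⁻¹)) ε hε
  refine ⟨T.image (·⁻¹), h1.image _, fun k hk => ?_⟩
  rw [card_image_of_injective _ inv_injective]
  refine le_trans ?_ (h2 k⁻¹ (mem_image_of_mem _ hk))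
  norm_cast
  refine card_le_card_of_injOn (fun t => k⁻¹ * t⁻¹) ?_ ?_
  · intro t ht
    simp only [coe_filter, mem_image, Set.mem_ofPred_eq, not_exists, not_and] at ht
    obtain ⟨⟨s, hs, rfl⟩, h3⟩ := ht
    simp only [inv_inv, mem_coe, mem_symmDiff, mem_image]
    exact Or.inl ⟨⟨s, hs, rfl⟩, fun h4 => h3 _ h4 (by simp)⟩
  · intro t _ t' _ h3
    simpa using h3

lemma card_biUnion_le_real {α β : Type} [DecidableEq β] (S : Finset α) (f : α → Finset β) {c : ℝ}
    (h : ∀ a ∈ S, ((f a).card : ℝ) ≤ c) : ((S.biUnion f).card : ℝ) ≤ S.card * c := by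
  have h1 : ((S.biUnion f).card : ℝ) ≤ ∑ a ∈ S, ((f a).card : ℝ) := by
    exact_mod_cast card_biUnion_le
  refine h1.trans ((sum_le_sum h).trans ?_)
  simp

lemma Amenable.data {Q : Type} [Group Q] (hA : Amenable Q) (K J : Finset Q) {η : ℝ} (hη : 0 < η) :
    ∃ T T0 Bd : Finset Q, T0.Nonempty ∧ T0 ⊆ T ∧ (∀ t ∈ T0, ∀ j ∈ J, t * j ∈ T) ∧
      (∀ p, (∃ k ∈ K, p * k⁻¹ ∈ T) → (∃ k ∈ K, p * k⁻¹ ∉ T) → p ∈ Bd) ∧
      (Bd.card : ℝ) ≤ η * T0.card := by
  set c : ℝ := (K.card : ℝ) * K.card + J.card + 1 with hc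
  have hc0 : 0 < c := by positivity
  set δ : ℝ := min (1 / (2 * c)) (η / (2 * c)) with hδ
  have hδ0 : 0 < δ := by positivity
  obtain ⟨T, hT, hF⟩ := hA.right (J ∪ image₂ (fun k k' => k * k'⁻¹) K K) hδ0
  set T0 := T.filter fun t => ∀ j ∈ J, t * j ∈ T with hT0
  set Bd := (K ×ˢ K).biUnion fun p =>
    (T.filter fun t => t * (p.1 * p.2⁻¹) ∉ T).image fun t => t * p.1 with hBd
  have hTpos : (0 : ℝ) < T.card := by exact_mod_cast card_pos.2 hT
  have c1 : (Bd.card : ℝ) ≤ c * δ * T.card := by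
    have a1 : (Bd.card : ℝ) ≤ (K ×ˢ K).card * (δ * T.card) := by
      refine card_biUnion_le_real _ _ fun p hp => ?_
      refine le_trans (Nat.cast_le.2 card_image_le) (hF _ (mem_union_right _ ?_))
      exact mem_image₂_of_mem (mem_product.1 hp).1 (mem_product.1 hp).2
    rw [card_product] at a1
    push_cast at a1
    refine a1.trans ?_
    rw [mul_assoc c]
    refine mul_le_mul_of_nonneg_right ?_ (mul_nonneg hδ0.le hTpos.le)
    have : (0 : ℝ) ≤ J.card := by positivity
    linarith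
  have c2 : (T.card : ℝ) ≤ 2 * T0.card := by
    have a0 := card_filter_add_card_filter_not (s := T) (fun t => ∀ j ∈ J, t * j ∈ T)
    have a1 : ((T.filter fun t => ¬ ∀ j ∈ J, t * j ∈ T).card : ℝ) ≤ J.card * (δ * T.card) := by
      have a2 : (T.filter fun t => ¬ ∀ j ∈ J, t * j ∈ T) ⊆
          J.biUnion fun j => T.filter fun t => t * j ∉ T := by
        intro t ht
        simp only [mem_filter, not_forall, mem_biUnion] at ht ⊢
        obtain ⟨h1, j, h2, h3⟩ := ht
        exact ⟨j, h2, h1, h3⟩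
      exact le_trans (Nat.cast_le.2 (card_le_card a2)) (card_biUnion_le_real _ _
        fun j hj => hF _ (mem_union_left _ hj))
    have a3 : c * δ ≤ 1 / 2 := by
      have := mul_le_mul_of_nonneg_left (min_le_left (1 / (2 * c)) (η / (2 * c))) hc0.le
      refine this.trans (le_of_eq ?_)
      field_simp
    have a4 : (J.card : ℝ) * δ ≤ c * δ := by
      refine mul_le_mul_of_nonneg_right ?_ hδ0.le
      have : (0 : ℝ) ≤ (K.card : ℝ) * K.card := by positivity
      linarith
    have a5 : (T0.card : ℝ) + (T.filter fun t => ¬ ∀ j ∈ J, t * j ∈ T).card = T.card := by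
      exact_mod_cast a0
    nlinarith
  have hT0pos : (0 : ℝ) < T0.card := by linarith
  refine ⟨T, T0, Bd, card_pos.1 (by exact_mod_cast hT0pos), filter_subset _ _,
    fun t ht => (mem_filter.1 ht).2, ?_, ?_⟩
  · rintro p ⟨k, hk, h1⟩ ⟨k', hk', h2⟩
    refine mem_biUnion.2 ⟨(k, k'), mem_product.2 ⟨hk, hk'⟩, mem_image.2
      ⟨p * k⁻¹, mem_filter.2 ⟨h1, ?_⟩, by simp⟩⟩
    simpa [mul_assoc] using h2
  · have a3 : c * δ ≤ η / 2 := by
      have := mul_le_mul_of_nonneg_left (min_le_right (1 / (2 * c)) (η / (2 * c))) hc0.le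
      refine this.trans (le_of_eq ?_)
      field_simp
    calc (Bd.card : ℝ) ≤ c * δ * T.card := c1
      _ ≤ η / 2 * (2 * T0.card) := mul_le_mul a3 c2 hTpos.le (by positivity)
      _ = _ := by ring

lemma tile {H : Type} [Group H] (N : Subgroup H) [N.Normal] (hA : Amenable (H ⧸ N))
    (M : ℕ → Subgroup H) [∀ i, (M i).Normal] [∀ i, (M i).FiniteIndex] (hanti : Antitone M)
    (hsep : ∀ g, (∀ i, g ∈ M i ⊔ N) → g ∈ N) (K J : Finset H) {ε : ℝ} (hε : 0 < ε) :
    ∀ᶠ i in Filter.atTop, ∃ W : Finset (H ⧸ M i), (W.card : ℝ) ≤ ε * (M i).index ∧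
      ∀ x : H, (x : H ⧸ M i) ∉ W → ∃ (U : Set H) (U0 : Finset H),
        (∀ h ∈ U, ∃ u ∈ U0, h * u⁻¹ ∈ N) ∧ (∀ j ∈ J, x * j ∈ U) ∧
        ∀ p : H, (∃ k ∈ K, p * k⁻¹ ∈ U) → (∃ k ∈ K, p * k⁻¹ ∉ U) → (p : H ⧸ M i) ∈ W := by
  obtain ⟨l, hl⟩ := exists_nat_one_div_lt (half_pos hε)
  obtain ⟨T, T0, Bd, t1, t2, t3, t4, t5⟩ := hA.data (K.image (↑)) (J.image (↑))
    (η := ε / 2 / (l + 1)) (by positivity)
  have hT0pos : (0 : ℝ) < T0.card := by exact_mod_cast card_pos.2 t1
  have c3 : ((l : ℝ) + 1) * Bd.card / T0.card ≤ ε / 2 := by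
    rw [div_le_iff₀ hT0pos]
    refine (mul_le_mul_of_nonneg_left t5 (by positivity)).trans (le_of_eq ?_)
    field_simp
  have hinj : ∀ᶠ i in Filter.atTop, ∀ p ∈ T ×ˢ T, p.1.out⁻¹ * p.2.out ∈ M i ⊔ N → p.1 = p.2 := by
    refine (Filter.eventually_all_finset _).2 fun p _ => ?_
    by_cases h : p.1 = p.2
    · exact Filter.Eventually.of_forall fun _ _ => h
    · have : ∃ i, p.1.out⁻¹ * p.2.out ∉ M i ⊔ N := by
        by_contra h1
        push Not at h1
        apply h
        have := QuotientGroup.eq.2 (hsep _ h1)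
        simpa using this
      obtain ⟨i, hi⟩ := this
      exact Filter.eventually_atTop.2 ⟨i, fun i' h1 h2 =>
        absurd (sup_le_sup_right (hanti h1) N h2) hi⟩
  filter_upwards [hinj] with i hi
  have : Fintype (H ⧸ M i) := Fintype.ofFinite _
  set Nb : Finset (H ⧸ M i) := univ.filter fun x => ∃ n ∈ N, (n : H ⧸ M i) = x with hNb
  have hNb0 : (0 : ℝ) < Nb.card := by
    exact_mod_cast card_pos.2 ⟨1, by simpa [hNb] using ⟨1, one_mem _, by simp⟩⟩
  let im : Finset (H ⧸ N) → Finset (H ⧸ M i) := fun S =>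
    image₂ (fun t n => (t.out : H ⧸ M i) * n) S Nb
  have d1 : (im T0).card = T0.card * Nb.card := by
    refine card_image₂_iff.2 ?_
    rintro ⟨t, n⟩ ⟨ht, hn⟩ ⟨t', n'⟩ ⟨ht', hn'⟩ he
    simp only [hNb, coe_filter, mem_univ, true_and, Set.mem_ofPred_eq] at hn hn' he
    obtain ⟨n, hn, rfl⟩ := hn
    obtain ⟨n', hn', rfl⟩ := hn'
    have : t = t' := by
      refine hi (t, t') (mem_product.2 ⟨t2 ht, t2 ht'⟩) ?_
      rw [← QuotientGroup.mk_mul, ← QuotientGroup.mk_mul, QuotientGroup.eq] at he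
      have := mul_mem (mul_mem (Subgroup.mem_sup_right hn : n ∈ M i ⊔ N)
        (Subgroup.mem_sup_left he)) (Subgroup.mem_sup_right (inv_mem hn'))
      simpa [mul_assoc] using this
    subst this
    rw [mul_left_cancel he]
  have d2 : (im Bd).card ≤ Bd.card * Nb.card := card_image₂_le _ _ _
  obtain ⟨W, w1, w2⟩ := cover_finite (im T0) (im Bd) (by
    rw [← card_pos, d1]
    exact_mod_cast mul_pos hT0pos hNb0) l
  refine ⟨W, w1.trans ?_, fun x hx => ?_⟩
  · rw [Subgroup.index_eq_card, Nat.card_eq_fintype_card]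
    refine mul_le_mul_of_nonneg_right ?_ (by positivity)
    have : ((l : ℝ) + 1) * (im Bd).card / (im T0).card ≤ (l + 1) * Bd.card / T0.card := by
      rw [d1, div_le_div_iff₀ (by push_cast; positivity) hT0pos]
      have d3 : ((im Bd).card : ℝ) ≤ Bd.card * Nb.card := by exact_mod_cast d2
      push_cast
      calc ((l : ℝ) + 1) * (im Bd).card * T0.card ≤ (l + 1) * (Bd.card * Nb.card) * T0.card := by
            gcongr
        _ = _ := by ring
    linarith
  · obtain ⟨a, a1, a2⟩ := w2 _ hx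
    obtain ⟨t, ht, n, hn, he⟩ := mem_image₂.1 a1
    simp only [hNb, mem_filter, mem_univ, true_and] at hn
    obtain ⟨n, hn, rfl⟩ := hn
    set q := x * (t.out * n)⁻¹ with hq
    have hqa : (q : H ⧸ M i) = a := by
      rw [hq, QuotientGroup.mk_mul, QuotientGroup.mk_inv, QuotientGroup.mk_mul, he]
      simp
    refine ⟨{h | ((q⁻¹ * h : H) : H ⧸ N) ∈ T}, T.image fun t => q * t.out, ?_, ?_, ?_⟩
    · intro h hh
      refine ⟨_, mem_image_of_mem _ hh, ?_⟩
      have h1 : (((q⁻¹ * h : H) : H ⧸ N).out)⁻¹ * (q⁻¹ * h) ∈ N :=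
        QuotientGroup.eq.1 (by simp)
      have h2 := (inferInstance : N.Normal).conj_mem _ h1 (q * ((q⁻¹ * h : H) : H ⧸ N).out)
      simpa [mul_assoc] using h2
    · intro j hj
      have h1 := t3 t ht j (mem_image_of_mem _ hj)
      have h2 : (n : H ⧸ N) = 1 := (QuotientGroup.eq_one_iff n).2 hn
      simpa [hq, mul_assoc, h2] using h1
    · rintro p ⟨k, hk, h1⟩ ⟨k', hk', h2⟩
      have h3 : ((q⁻¹ * p : H) : H ⧸ N) ∈ Bd := by
        refine t4 _ ⟨k, mem_image_of_mem _ hk, ?_⟩ ⟨k', mem_image_of_mem _ hk', ?_⟩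
        · simpa [mul_assoc] using h1
        · simpa [mul_assoc] using h2
      have h4 : (((q⁻¹ * p : H) : H ⧸ N).out)⁻¹ * (q⁻¹ * p) ∈ N := QuotientGroup.eq.1 (by simp)
      have h5 := a2 _ (mem_image₂_of_mem h3 (show (((((q⁻¹ * p : H) : H ⧸ N).out)⁻¹ *
        (q⁻¹ * p) : H) : H ⧸ M i) ∈ Nb from by
          simp only [hNb, mem_filter, mem_univ, true_and]
          exact ⟨_, h4, rfl⟩))
      rw [← hqa, ← QuotientGroup.mk_mul, ← QuotientGroup.mk_mul] at h5
      simpa using h5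

end Pool.Agent.Lib.MP_34a149_al
end

-- part Pool.Agent.Lib.MP_34a149_al.Hil
section

/-!
A trace on equivariant operators between spaces of square summable families.
-/

namespace Pool.Agent.Lib.MP_34a149_al

open Finset Classical
open scoped RealInnerProductSpace

/-- Square summable families of vectors of `V` indexed by `E`. -/
abbrev L2 (E V : Type) [NormedAddCommGroup V] := lp (fun _ : E => V) 2

variable {V : Type} [NormedAddCommGroup V] [InnerProductSpace ℝ V]

lemma exists_lpOp {E E' : Type} (σ : E' → E) (Φ : E' → V →L[ℝ] V) (C : ℝ) (hC : 0 ≤ C)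
    (hΦ : ∀ e, ‖Φ e‖ ≤ C) (hσ : Set.InjOn σ {e | Φ e ≠ 0}) :
    ∃ a : L2 E V →L[ℝ] L2 E' V, ∀ η e, a η e = Φ e (η (σ e)) := by
  have key : ∀ (η : L2 E V) (s : Finset E'),
      ∑ e ∈ s, ‖Φ e (η (σ e))‖ ^ (2 : ENNReal).toReal ≤ (C * ‖η‖) ^ (2 : ENNReal).toReal := by
    intro η s
    have h1 := lp.sum_rpow_le_norm_rpow (p := 2) (by norm_num) η
      ((s.filter fun e => Φ e ≠ 0).image σ)
    rw [sum_image (g := σ) (s := s.filter fun e => Φ e ≠ 0)
      fun a ha b hb => hσ (mem_filter.1 ha).2 (mem_filter.1 hb).2] at h1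
    simp only [ENNReal.toReal_ofNat, Real.rpow_ofNat] at h1 ⊢
    rw [← sum_filter_of_ne (p := fun e => Φ e ≠ 0) (fun e _ h h0 => h (by simp [h0])), mul_pow]
    refine le_trans ?_ (mul_le_mul_of_nonneg_left h1 (by positivity))
    rw [mul_sum]
    refine sum_le_sum fun e _ => ?_
    rw [← mul_pow]
    exact pow_le_pow_left₀ (norm_nonneg _) ((Φ e).le_of_opNorm_le (hΦ e) _) 2
  let L : L2 E V →ₗ[ℝ] L2 E' V :=
    { toFun := fun η => ⟨fun e => Φ e (η (σ e)), memℓp_gen' (key η)⟩
      map_add' := fun a b => lp.ext (funext fun e => map_add (Φ e) (a (σ e)) (b (σ e)))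
      map_smul' := fun r a => lp.ext (funext fun e => by simp) }
  exact ⟨L.mkContinuous C fun η => lp.norm_le_of_forall_sum_le (by norm_num) (by positivity)
    (key η), fun η e => rfl⟩

/-- A family of operators modelled on `p ↦ 1_C * (p ∘ k⁻¹)` on `L²(X)`. -/
structure Sys (G V : Type) [Group G] [NormedAddCommGroup V] [InnerProductSpace ℝ V] where
  C : Type
  one : V
  r : G → C → V →L[ℝ] V
  norm_le : ∀ k c, ‖r k c‖ ≤ 1
  adj : ∀ k c, ∃ c', ∀ p q, ⟪r k c p, q⟫ = ⟪p, r k⁻¹ c' q⟫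
  ax : ∀ h p q p' q', (∀ c, ⟪p, r h c one⟫ = ⟪one, r h c q⟫) →
    (∀ c, ⟪p', r h⁻¹ c one⟫ = ⟪one, r h⁻¹ c q'⟫) → ⟪q', p⟫ = ⟪q, p'⟫

variable {G : Type} [Group G] (S : Sys G V) {I J K : Type}

lemma Sys.exists_R (I : Type) (k : G) (c : S.C) : ∃ a : L2 (G × I) V →L[ℝ] L2 (G × I) V,
    ∀ η e, a η e = S.r k c (η (k⁻¹ * e.1, e.2)) :=
  exists_lpOp (fun e : G × I => (k⁻¹ * e.1, e.2)) (fun _ => S.r k c) 1 zero_le_one
    (fun _ => S.norm_le k c) (by
      rintro ⟨a, b⟩ - ⟨a', b'⟩ - h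
      simpa using h)

noncomputable def Sys.R (I : Type) (k : G) (c : S.C) : L2 (G × I) V →L[ℝ] L2 (G × I) V :=
  (S.exists_R I k c).choose

lemma Sys.R_apply (k : G) (c : S.C) (η : L2 (G × I) V) (e : G × I) :
    S.R I k c η e = S.r k c (η (k⁻¹ * e.1, e.2)) := (S.exists_R I k c).choose_spec η e

noncomputable def Sys.xi (i : I) : L2 (G × I) V := lp.single 2 (1, i) S.one

def Sys.Equi (a : L2 (G × J) V →L[ℝ] L2 (G × I) V) : Prop :=
  ∀ k c η, a (S.R J k c η) = S.R I k c (a η)

noncomputable def Sys.tr [Fintype I] (a : L2 (G × I) V →L[ℝ] L2 (G × I) V) : ℝ :=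
  ∑ i, ⟪a (S.xi i), S.xi i⟫

lemma Sys.R_adj (k : G) (c : S.C) : ∃ c', ∀ (I : Type) (η ζ : L2 (G × I) V),
    ⟪S.R I k c η, ζ⟫ = ⟪η, S.R I k⁻¹ c' ζ⟫ := by
  obtain ⟨c', hc⟩ := S.adj k c
  refine ⟨c', fun I η ζ => ?_⟩
  rw [lp.inner_eq_tsum, lp.inner_eq_tsum,
    ← ((Equiv.mulLeft k).prodCongr (Equiv.refl I)).tsum_eq]
  refine tsum_congr fun ⟨g, i⟩ => ?_
  simp [S.R_apply, hc]

variable {S}

lemma Sys.Equi.comp {a : L2 (G × J) V →L[ℝ] L2 (G × I) V} {b : L2 (G × K) V →L[ℝ] L2 (G × J) V}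
    (ha : S.Equi a) (hb : S.Equi b) : S.Equi (a ∘L b) := fun k c η => by
  simp [hb k c, ha k c]

lemma Sys.Equi.add {a b : L2 (G × J) V →L[ℝ] L2 (G × I) V}
    (ha : S.Equi a) (hb : S.Equi b) : S.Equi (a + b) := fun k c η => by
  simp [hb k c, ha k c]

lemma Sys.Equi.sub {a b : L2 (G × J) V →L[ℝ] L2 (G × I) V}
    (ha : S.Equi a) (hb : S.Equi b) : S.Equi (a - b) := fun k c η => by
  simp [hb k c, ha k c]

lemma Sys.Equi.smul {a : L2 (G × J) V →L[ℝ] L2 (G × I) V} (t : ℝ)
    (ha : S.Equi a) : S.Equi (t • a) := fun k c η => by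
  simp [ha k c]

lemma Sys.Equi.sum {T : Type} (s : Finset T) {a : T → L2 (G × J) V →L[ℝ] L2 (G × I) V}
    (ha : ∀ t, S.Equi (a t)) : S.Equi (∑ t ∈ s, a t) := fun k c η => by
  simp [fun t => ha t k c]

lemma Sys.equi_one : S.Equi (1 : L2 (G × I) V →L[ℝ] L2 (G × I) V) := fun _ _ _ => rfl

lemma Sys.Equi.pow {a : L2 (G × I) V →L[ℝ] L2 (G × I) V} (ha : S.Equi a) (n : ℕ) :
    S.Equi (a ^ n) := by
  induction n with
  | zero => exact Sys.equi_one
  | succ n ih => rw [pow_succ]; exact ih.comp ha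

lemma Sys.equi_proj (W : Submodule ℝ (L2 (G × I) V)) [W.HasOrthogonalProjection]
    (hW : ∀ k c, ∀ η ∈ W, S.R I k c η ∈ W) : S.Equi W.starProjection := fun k c η => by
  refine Submodule.eq_starProjection_of_mem_of_inner_eq_zero
    (hW k c _ (W.starProjection_apply_mem η)) fun w hw => ?_
  obtain ⟨c', hc⟩ := S.R_adj k c
  rw [← map_sub, hc]
  exact W.starProjection_inner_eq_zero η _ (hW _ _ _ hw)

lemma Sys.exists_elem (i : I) (h : G) (j : J) (Φ : G → V →L[ℝ] V) (C : ℝ) (hΦ : ∀ g, ‖Φ g‖ ≤ C)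
    (hcomm : ∀ k c g p, Φ g (S.r k c p) = S.r k c (Φ (k⁻¹ * g) p)) :
    ∃ a : L2 (G × J) V →L[ℝ] L2 (G × I) V, S.Equi a ∧
      ∀ η e, a η e = if e.2 = i then Φ e.1 (η (e.1 * h, j)) else 0 := by
  have hC : 0 ≤ C := (norm_nonneg _).trans (hΦ 1)
  obtain ⟨a, ha⟩ := exists_lpOp (fun e : G × I => (e.1 * h, j))
    (fun e => if e.2 = i then Φ e.1 else 0) C hC (fun e => by split_ifs <;> simp [hΦ, hC]) (by
      rintro ⟨g, i'⟩ h1 ⟨g', i''⟩ h2 h3
      have a1 : i' = i := by
        by_contra h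
        simp [h] at h1
      have a2 : i'' = i := by
        by_contra h
        simp [h] at h2
      simpa [a1, a2] using h3)
  refine ⟨a, fun k c η => lp.ext (funext fun e => ?_), fun η e => ?_⟩
  · rw [ha, S.R_apply, S.R_apply, ha]
    split_ifs
    · simp [hcomm, mul_assoc]
    · simp
  · rw [ha]
    split_ifs <;> simp

lemma Sys.exists_mat [Fintype I] [Fintype J] (T : Finset G) (Φ : I → G → J → G → V →L[ℝ] V)
    (hΦ : ∀ i h j, ∃ C, ∀ g, ‖Φ i h j g‖ ≤ C)
    (hcomm : ∀ i h j k c g p, Φ i h j g (S.r k c p) = S.r k c (Φ i h j (k⁻¹ * g) p)) :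
    ∃ a : L2 (G × J) V →L[ℝ] L2 (G × I) V, S.Equi a ∧
      ∀ η g i, a η (g, i) = ∑ h ∈ T, ∑ j, Φ i h j g (η (g * h, j)) := by
  choose C hC using hΦ
  choose a ha hb using fun i h j => S.exists_elem i h j (Φ i h j) _ (hC i h j) (hcomm i h j)
  refine ⟨∑ i, ∑ h ∈ T, ∑ j, a i h j, Sys.Equi.sum _ fun i => Sys.Equi.sum _ fun h =>
    Sys.Equi.sum _ fun j => ha i h j, fun η g i => ?_⟩
  simp only [_root_.sum_apply, lp.coeFn_sum, Finset.sum_apply, hb]
  rw [sum_eq_single i (fun i' _ h => by simp [h.symm]) (by simp)]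
  simp

variable [CompleteSpace V]

lemma Sys.Equi.adjoint {a : L2 (G × J) V →L[ℝ] L2 (G × I) V} (ha : S.Equi a) :
    S.Equi (ContinuousLinearMap.adjoint a) := fun k c η => by
  obtain ⟨c', hc⟩ := S.R_adj k c
  refine ext_inner_right ℝ fun ζ => ?_
  rw [ContinuousLinearMap.adjoint_inner_left, hc, hc, ContinuousLinearMap.adjoint_inner_left,
    ha k⁻¹ c']

lemma Sys.Equi.key {a : L2 (G × J) V →L[ℝ] L2 (G × I) V} (ha : S.Equi a) (i : I) (j : J) (h : G)
    (c : S.C) : ⟪ContinuousLinearMap.adjoint a (S.xi i) (h, j), S.r h c S.one⟫ =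
      ⟪S.one, S.r h c (a (S.xi j) (h⁻¹, i))⟫ := by
  have h1 : lp.single 2 (h, j) (S.r h c S.one) = S.R J h c (S.xi j) := by
    refine lp.ext (funext fun e => ?_)
    rw [S.R_apply]
    by_cases he : e = (h, j)
    · subst he
      simp [Sys.xi]
    · have : (h⁻¹ * e.1, e.2) ≠ (1, j) := fun h2 => he (by
        rw [Prod.mk.injEq, inv_mul_eq_one] at h2
        exact Prod.ext h2.1.symm h2.2)
      rw [lp.single_apply_ne _ _ _ he, Sys.xi, lp.single_apply_ne _ _ _ this, map_zero]
  rw [← lp.inner_single_right, h1, ContinuousLinearMap.adjoint_inner_left, ha h c, Sys.xi,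
    lp.inner_single_left, S.R_apply, mul_one]

omit [CompleteSpace V] [Group G] in
lemma inner_split [Fintype I] (η ζ : L2 (G × I) V) :
    ⟪η, ζ⟫ = ∑ i, ∑' h, ⟪η (h, i), ζ (h, i)⟫ := by
  have h1 := (Equiv.prodComm I G).summable_iff.2 (lp.summable_inner (𝕜 := ℝ) η ζ)
  rw [lp.inner_eq_tsum, ← (Equiv.prodComm I G).tsum_eq]
  refine h1.tsum_prod.trans ?_
  rw [tsum_fintype]
  rfl

lemma Sys.tr_comm [Fintype I] [Fintype J] {a : L2 (G × J) V →L[ℝ] L2 (G × I) V}
    {b : L2 (G × I) V →L[ℝ] L2 (G × J) V} (ha : S.Equi a) (hb : S.Equi b) :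
    S.tr (a ∘L b) = S.tr (b ∘L a) := by
  simp only [Sys.tr, ContinuousLinearMap.comp_apply]
  conv_lhs => simp only [← ContinuousLinearMap.adjoint_inner_right a]
  conv_rhs => simp only [← ContinuousLinearMap.adjoint_inner_right b]
  simp only [inner_split]
  rw [sum_comm]
  refine sum_congr rfl fun j _ => sum_congr rfl fun i _ => ?_
  refine Eq.trans (tsum_congr fun h => ?_) ((Equiv.inv G).tsum_eq _)
  have := S.ax h _ _ _ _ (ha.key i j h) (hb.key j i h⁻¹)
  rwa [inv_inv] at this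

omit [CompleteSpace V] in
lemma Sys.tr_proj [Fintype I] (W : Submodule ℝ (L2 (G × I) V)) [W.HasOrthogonalProjection] :
    S.tr W.starProjection = ∑ i, ‖W.starProjection (S.xi i)‖ ^ 2 := by
  refine sum_congr rfl fun i _ => ?_
  have := W.starProjection_inner_eq_zero (S.xi i) _ (W.starProjection_apply_mem (S.xi i))
  rw [inner_sub_left, real_inner_self_eq_norm_sq, real_inner_comm] at this
  linarith

lemma Sys.dim_eq [Fintype I] [Fintype J] {a : L2 (G × J) V →L[ℝ] L2 (G × I) V}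
    {b : L2 (G × I) V →L[ℝ] L2 (G × J) V} (ha : S.Equi a) (hb : S.Equi b)
    (Z : Submodule ℝ (L2 (G × I) V)) [Z.HasOrthogonalProjection]
    (hZ : ∀ k c, ∀ η ∈ Z, S.R I k c η ∈ Z) (hab : ∀ η ∈ Z, a (b η) = η) :
    S.tr Z.starProjection = S.tr (Z.map b.toLinearMap).topologicalClosure.starProjection := by
  set W := (Z.map b.toLinearMap).topologicalClosure with hW
  have hP := Sys.equi_proj Z hZ
  have hq : S.Equi W.starProjection := Sys.equi_proj W fun k c η hη =>
    map_mem_closure (S.R J k c).continuous hη (by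
      rintro _ ⟨y, hy, rfl⟩
      exact ⟨_, hZ k c y hy, hb k c y⟩)
  have h1 : Z.starProjection = a ∘L (b ∘L Z.starProjection) :=
    ContinuousLinearMap.ext fun η => (hab _ (Z.starProjection_apply_mem η)).symm
  have h2 : (b ∘L Z.starProjection) ∘L a =
      W.starProjection ∘L ((b ∘L Z.starProjection) ∘L a) := ContinuousLinearMap.ext fun η =>
    (Submodule.starProjection_eq_self_iff.2 (Submodule.le_topologicalClosure _
      (Submodule.mem_map_of_mem (f := b.toLinearMap) (Z.starProjection_apply_mem (a η))))).symm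
  have h3 : ((b ∘L Z.starProjection) ∘L a) ∘L W.starProjection = W.starProjection := by
    refine ContinuousLinearMap.ext fun η => ?_
    refine closure_minimal (t := {w | ((b ∘L Z.starProjection) ∘L a) w = w}) ?_
      (isClosed_eq (ContinuousLinearMap.continuous _) continuous_id)
      (W.starProjection_apply_mem η)
    rintro _ ⟨y, hy, rfl⟩
    change b (Z.starProjection (a (b y))) = b y
    rw [hab y hy, Submodule.starProjection_eq_self_iff.2 hy]
  rw [h1, Sys.tr_comm ha (hb.comp hP), h2, Sys.tr_comm hq ((hb.comp hP).comp ha), h3]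

end Pool.Agent.Lib.MP_34a149_al
end

-- part Pool.Agent.Lib.MP_34a149_al.Ergo
section

/-!
Rank-nullity for the trace, through the mean ergodic theorem.
-/

namespace Pool.Agent.Lib.MP_34a149_al

open Finset Filter Topology
open scoped RealInnerProductSpace

lemma starProjection_congr {E : Type} [NormedAddCommGroup E] [InnerProductSpace ℝ E]
    {W W' : Submodule ℝ E} [W.HasOrthogonalProjection] [W'.HasOrthogonalProjection] (h : W = W') :
    W.starProjection = W'.starProjection := by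
  subst h
  rfl

lemma ergodic {E E' : Type} [NormedAddCommGroup E] [InnerProductSpace ℝ E] [CompleteSpace E]
    [NormedAddCommGroup E'] [InnerProductSpace ℝ E'] (d : E →L[ℝ] E') (d' : E' →L[ℝ] E)
    (hadj : ∀ x y, ⟪d x, y⟫ = ⟪x, d' y⟫) {c : ℝ} (hc : 0 < c) (hc' : c * ‖d'‖ ^ 2 ≤ 2) (x : E) :
    Tendsto (fun n : ℕ => (n : ℝ)⁻¹ * ∑ k ∈ range n, ⟪((1 - c • (d' ∘L d)) ^ k) x, x⟫) atTop
      (𝓝 ⟪d.ker.starProjection x, x⟫) := by
  set T : E →L[ℝ] E := 1 - c • (d' ∘L d) with hT
  have hTx : ∀ y, T y = y - c • d' (d y) := fun y => rfl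
  have h1 : ‖T‖ ≤ 1 := by
    refine ContinuousLinearMap.opNorm_le_bound _ zero_le_one fun y => ?_
    rw [one_mul, ← sq_le_sq₀ (norm_nonneg _) (norm_nonneg _), hTx, norm_sub_sq_real,
      inner_smul_right, ← hadj, real_inner_self_eq_norm_sq, norm_smul, mul_pow, Real.norm_eq_abs,
      sq_abs]
    have a1 : ‖d' (d y)‖ ^ 2 ≤ ‖d'‖ ^ 2 * ‖d y‖ ^ 2 := by
      rw [← mul_pow]
      exact pow_le_pow_left₀ (norm_nonneg _) (d'.le_opNorm _) 2
    have a2 := mul_le_mul_of_nonneg_left a1 (sq_nonneg c)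
    have a3 := mul_le_mul_of_nonneg_right hc' (mul_nonneg hc.le (sq_nonneg ‖d y‖))
    nlinarith
  have h2 : T.eqLocus (1 : E →L[ℝ] E) = d.ker := by
    ext y
    change T y = y ↔ d y = 0
    rw [hTx, sub_eq_self, smul_eq_zero, or_iff_right hc.ne']
    refine ⟨fun h => ?_, fun h => by rw [h, map_zero]⟩
    rw [← inner_self_eq_zero (𝕜 := ℝ), hadj, h, inner_zero_right]
  have h3 := (T.tendsto_birkhoffAverage_orthogonalProjection h1 x).inner (𝕜 := ℝ)
    (tendsto_const_nhds (x := x))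
  rw [Submodule.coe_orthogonalProjectionOnto_apply, starProjection_congr h2] at h3
  refine h3.congr fun n => ?_
  simp [birkhoffAverage, birkhoffSum, inner_smul_left, sum_inner]

variable {V : Type} [NormedAddCommGroup V] [InnerProductSpace ℝ V] [CompleteSpace V]
  {G : Type} [Group G] {S : Sys G V} {I J : Type} [Fintype I] [Fintype J]

omit [CompleteSpace V] in
lemma Sys.tr_sub (a b : L2 (G × I) V →L[ℝ] L2 (G × I) V) : S.tr (a - b) = S.tr a - S.tr b := by
  simp [Sys.tr, inner_sub_left]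

omit [CompleteSpace V] in
lemma Sys.tr_smul (c : ℝ) (a : L2 (G × I) V →L[ℝ] L2 (G × I) V) : S.tr (c • a) = c * S.tr a := by
  simp [Sys.tr, inner_smul_left, mul_sum]

lemma Sys.tr_ker {d : L2 (G × J) V →L[ℝ] L2 (G × I) V} (hd : S.Equi d) :
    S.tr (ContinuousLinearMap.adjoint d).ker.starProjection - S.tr (I := I) 1 =
      S.tr d.ker.starProjection - S.tr (I := J) 1 := by
  set d' := ContinuousLinearMap.adjoint d with hd'
  have he : S.Equi d' := hd.adjoint
  obtain ⟨c, hc, hc'⟩ : ∃ c : ℝ, 0 < c ∧ c * ‖d‖ ^ 2 ≤ 2 := ⟨1 / (‖d‖ ^ 2 + 1), by positivity, by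
    rw [div_mul_eq_mul_div, div_le_iff₀ (by positivity)]
    nlinarith [sq_nonneg ‖d‖]⟩
  set T : L2 (G × I) V →L[ℝ] L2 (G × I) V := 1 - c • (d ∘L d') with hT
  set T' : L2 (G × J) V →L[ℝ] L2 (G × J) V := 1 - c • (d' ∘L d) with hT'
  have e2 : S.Equi T' := Sys.equi_one.sub ((he.comp hd).smul c)
  have h1 : ∀ k x, (T ^ k) (d x) = d ((T' ^ k) x) := by
    intro k
    induction k with
    | zero => exact fun x => rfl
    | succ k ih =>
      intro x
      rw [pow_succ, pow_succ, mul_apply_eq_comp, mul_apply_eq_comp, ← ih]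
      simp [hT, hT']
  have h2 : ∀ k, S.tr (T ^ k) - S.tr (I := I) 1 = S.tr (T' ^ k) - S.tr (I := J) 1 := by
    intro k
    induction k with
    | zero => simp
    | succ k ih =>
      have a1 : T ^ (k + 1) = T ^ k - c • (d ∘L ((T' ^ k) ∘L d')) := by
        ext1 x
        rw [pow_succ]
        change (T ^ k) (x - c • d (d' x)) = (T ^ k) x - c • d ((T' ^ k) (d' x))
        rw [map_sub, map_smul, h1]
      have a2 : T' ^ (k + 1) = T' ^ k - c • (((T' ^ k) ∘L d') ∘L d) := by
        ext1 x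
        rw [pow_succ]
        change (T' ^ k) (x - c • d' (d x)) = (T' ^ k) x - c • (T' ^ k) (d' (d x))
        rw [map_sub, map_smul]
      rw [a1, a2, Sys.tr_sub, Sys.tr_sub, Sys.tr_smul, Sys.tr_smul,
        Sys.tr_comm hd ((e2.pow k).comp he)]
      linarith
  have h3 := (tendsto_finsetSum univ fun i _ => ergodic d' d
    (fun x y => ContinuousLinearMap.adjoint_inner_left d y x) hc hc' (S.xi i)).sub_const
      (S.tr (I := I) 1)
  have h4 := (tendsto_finsetSum univ fun j _ => ergodic d d'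
    (fun x y => (ContinuousLinearMap.adjoint_inner_right d x y).symm) hc
    (by rwa [hd', LinearIsometryEquiv.norm_map]) (S.xi j)).sub_const (S.tr (I := J) 1)
  refine tendsto_nhds_unique h3 (h4.congr' ?_)
  filter_upwards [eventually_gt_atTop 0] with n hn
  have hn' : (n : ℝ) ≠ 0 := by positivity
  rw [← mul_sum, ← mul_sum, sum_comm, sum_comm (s := univ)]
  change _ * ∑ k ∈ range n, S.tr (T' ^ k) - _ = _ * ∑ k ∈ range n, S.tr (T ^ k) - _
  have h5 := sum_congr (rfl : range n = _) fun k _ => h2 k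
  rw [sum_sub_distrib, sum_sub_distrib, sum_const, sum_const, card_range, nsmul_eq_mul,
    nsmul_eq_mul] at h5
  field_simp
  linarith

end Pool.Agent.Lib.MP_34a149_al
end

-- part Pool.Agent.Lib.MP_34a149_al.Harm
section

/-!
Square summable cocycles on a Cayley graph and the first `L²`-Betti number.
-/

namespace Pool.Agent.Lib.MP_34a149_al

open Finset Classical
open scoped RealInnerProductSpace

variable {G α : Type} [Group G]

def df (s : α → G) (f : G → ℝ) : G × α → ℝ := fun e => f (e.1 * s e.2) - f e.1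

noncomputable def pq (ω : G × α → ℝ) (x : G) (c : G × α →₀ ℝ) : ℝ :=
  c.sum fun e r => r * ω (x * e.1, e.2)

lemma pq_add (ω : G × α → ℝ) (x : G) (c d : G × α →₀ ℝ) :
    pq ω x (c + d) = pq ω x c + pq ω x d :=
  Finsupp.sum_add_index' (by simp) (by simp [add_mul])

lemma pq_sub (ω : G × α → ℝ) (x : G) (c d : G × α →₀ ℝ) :
    pq ω x (c - d) = pq ω x c - pq ω x d :=
  Finsupp.sum_sub_index (by simp [sub_mul])

lemma pq_single (ω : G × α → ℝ) (x : G) (e : G × α) :
    pq ω x (Finsupp.single e 1) = ω (x * e.1, e.2) := by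
  simp [pq]

lemma exists_paths (s : α → G) (hs : Subgroup.closure (Set.range s) = ⊤) :
    ∃ c : G → (G × α →₀ ℝ), ∀ g f x, pq (df s f) x (c g) = f (x * g) - f x := by
  have : ∀ g y : G, ∃ c : G × α →₀ ℝ, ∀ f x, pq (df s f) x c = f (x * y * g) - f (x * y) := by
    intro g
    have hg : g ∈ Subgroup.closure (Set.range s) := by rw [hs]; trivial
    induction hg using Subgroup.closure_induction with
    | mem g hg =>
      obtain ⟨a, rfl⟩ := hg
      exact fun y => ⟨Finsupp.single (y, a) 1, fun f x => by rw [pq_single]; rfl⟩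
    | one => exact fun y => ⟨0, fun f x => by simp [pq]⟩
    | mul g h _ _ hg hh =>
      intro y
      obtain ⟨c, hc⟩ := hg y
      obtain ⟨d, hd⟩ := hh (y * g)
      exact ⟨c + d, fun f x => by simp [pq_add, hc, hd, mul_assoc]⟩
    | inv g _ hg =>
      intro y
      obtain ⟨c, hc⟩ := hg (y * g⁻¹)
      exact ⟨0 - c, fun f x => by rw [pq_sub, hc]; simp [pq, mul_assoc]⟩
  choose c hc using this
  exact ⟨fun g => c g 1, fun g f x => by simpa using hc g 1 f x⟩

lemma eq_df (s : α → G) (c : G → (G × α →₀ ℝ)) (ω : G × α → ℝ)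
    (h : ∀ g a, pq ω 1 (c g + Finsupp.single (g, a) 1 - c (g * s a)) = 0) :
    ω = df s fun g => pq ω 1 (c g) := by
  funext ⟨g, a⟩
  have := h g a
  rw [pq_sub, pq_add, pq_single, one_mul] at this
  simp only [df]
  linarith

def grad (s : α → G) : Submodule ℝ (L2 (G × α) ℝ) where
  carrier := {ω | ∃ f, ⇑ω = df s f}
  add_mem' := by
    rintro u v ⟨f, hf⟩ ⟨f', hf'⟩
    refine ⟨f + f', ?_⟩
    rw [lp.coeFn_add, hf, hf']
    funext e
    simp only [df, Pi.add_apply]
    ring
  zero_mem' := ⟨0, by funext e; simp [df]⟩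
  smul_mem' := by
    rintro t u ⟨f, hf⟩
    refine ⟨t • f, ?_⟩
    rw [lp.coeFn_smul, hf]
    funext e
    simp [df, mul_sub]

def cyc (s : α → G) : Submodule ℝ (G × α →₀ ℝ) where
  carrier := {c | ∀ f x, pq (df s f) x c = 0}
  add_mem' := fun {u v} hu hv f x => by rw [pq_add, hu, hv, add_zero]
  zero_mem' := fun f x => by simp [pq]
  smul_mem' := fun t u hu f x => by
    have := hu f x
    unfold pq at this ⊢
    rw [Finsupp.sum_smul_index (by simp)]
    simp only [mul_assoc, ← Finsupp.mul_sum, this, mul_zero]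

noncomputable def toL2 {E : Type} : (E →₀ ℝ) →ₗ[ℝ] L2 E ℝ :=
  Finsupp.lsum ℝ fun e => lp.lsingle (E := fun _ : E => ℝ) 2 e

lemma toL2_single {E : Type} (e : E) (r : ℝ) : toL2 (Finsupp.single e r) = lp.single 2 e r := by
  simp [toL2]

lemma inner_toL2 {E : Type} (v : E →₀ ℝ) (ω : L2 E ℝ) :
    ⟪toL2 v, ω⟫ = v.sum fun e r => r * ω e := by
  induction v using Finsupp.induction_linear with
  | zero => simp
  | add a b ha hb =>
    rw [map_add, inner_add_left, ha, hb, Finsupp.sum_add_index' (by simp) (by simp [add_mul])]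
  | single e r => simp [toL2_single, lp.inner_single_left, mul_comm]

lemma toL2_apply {E : Type} (v : E →₀ ℝ) (e : E) : toL2 v e = v e := by
  induction v using Finsupp.induction_linear with
  | zero => simp
  | add a b ha hb => simp [ha, hb]
  | single e' r => simp [toL2_single, Pi.single_apply, Finsupp.single_apply, eq_comm]

lemma grad_eq (s : α → G) (hs : Subgroup.closure (Set.range s) = ⊤) :
    grad s = ((cyc s).map toL2)ᗮ := by
  obtain ⟨c, hc⟩ := exists_paths s hs
  have h1 : ∀ (v : G × α →₀ ℝ) (ω : L2 (G × α) ℝ), ⟪toL2 v, ω⟫ = pq ω 1 v := fun v ω => by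
    simp [inner_toL2, pq]
  ext ω
  constructor
  · rintro ⟨f, hf⟩ _ ⟨v, hv, rfl⟩
    rw [h1, hf]
    exact hv f 1
  · refine fun h => ⟨_, eq_df s c ω fun g a => ?_⟩
    rw [← h1]
    refine h _ ⟨_, fun f x => ?_, rfl⟩
    simp [pq_sub, pq_add, pq_single, hc, df, mul_assoc]

/-- The trivial system, for deterministic operators. -/
noncomputable def realSys (G : Type) [Group G] : Sys G ℝ where
  C := Unit
  one := 1
  r := fun _ _ => 1
  norm_le := fun _ _ => by simp
  adj := fun _ _ => ⟨(), fun _ _ => rfl⟩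
  ax := fun _ p q p' q' h h' => by
    have a1 := h ()
    have a2 := h' ()
    simp at a1 a2
    simp [a1, a2, mul_comm]

lemma vnDim_eq [Fintype α] (W : Submodule ℝ (L2 (G × α) ℝ)) [W.HasOrthogonalProjection]
    (hW : IsClosed (W : Set (L2 (G × α) ℝ))) :
    vnDim (W : Set (L2 (G × α) ℝ)) = (realSys G).tr W.starProjection := by
  unfold vnDim projCoeff
  rw [starProjection_congr ((congrArg _ W.span_eq).trans hW.submodule_topologicalClosure_eq)]
  rfl

lemma tr_one [Fintype α] : (realSys G).tr (I := α) 1 = Fintype.card α := by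
  simp [Sys.tr, Sys.xi, realSys, lp.norm_single]

theorem l2b1_sub_l2b0 [Fintype α] (s : α → G) (hs : Subgroup.closure (Set.range s) = ⊤) :
    l2b1 s - l2b0 G = vnDim (grad s : Set (L2 (G × α) ℝ)) - 1 := by
  choose E hE hE' using fun (a : α) (h : G) => (realSys G).exists_elem a h () (fun _ => 1) 1
    (fun _ => by simp) (fun _ _ _ _ => rfl)
  set d := ∑ a, (E a (s a) - E a 1) with hd
  have hde : (realSys G).Equi d := Sys.Equi.sum _ fun a => (hE a _).sub (hE a _)
  have hd1 : ∀ u g a, d u (g, a) = u (g * s a, ()) - u (g, ()) := fun u g a => by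
    simp only [hd, _root_.sum_apply, lp.coeFn_sum, Finset.sum_apply, _root_.sub_apply,
      lp.coeFn_sub, Pi.sub_apply, hE']
    rw [sum_eq_single a (fun i' _ h => by simp [h.symm]) (by simp)]
    simp
  have hd2 : ∀ ω g, ContinuousLinearMap.adjoint d ω (g, ()) =
      ∑ a, ω (g * (s a)⁻¹, a) - ∑ a, ω (g, a) := fun ω g => by
    have h1 : d (lp.single 2 (g, ()) 1) = toL2 (∑ a, (Finsupp.single (g * (s a)⁻¹, a) 1 -
        Finsupp.single (g, a) 1)) := by
      refine lp.ext (funext fun ⟨x, b⟩ => ?_)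
      rw [hd1, toL2_apply, Finsupp.finsetSum_apply,
        sum_eq_single b (fun i' _ h => by simp [h]) (by simp)]
      simp [Pi.single_apply, Finsupp.single_apply, eq_comm, eq_mul_inv_iff_mul_eq]
    have h2 := lp.inner_single_left (𝕜 := ℝ) (g, ()) (1 : ℝ) (ContinuousLinearMap.adjoint d ω)
    rw [ContinuousLinearMap.adjoint_inner_right, h1, map_sum, sum_inner] at h2
    simp only [map_sub, inner_sub_left, toL2_single, lp.inner_single_left, sum_sub_distrib] at h2
    simpa using h2.symm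
  have h0 : constants G = (d.ker : Set (L2 (G × Unit) ℝ)) := by
    ext u
    refine ⟨fun h => lp.ext (funext fun ⟨g, a⟩ => ?_), fun h => ?_⟩
    · change d u (g, a) = 0
      rw [hd1, h _ (g, ()), sub_self]
    · obtain ⟨c, hc⟩ := exists_paths s hs
      have h1 : df s (fun g => u (g, ())) = 0 := funext fun ⟨g, a⟩ => by
        have h2 : d u = 0 := h
        have := hd1 u g a
        rw [h2] at this
        exact this.symm
      have h2 : ∀ g, u (g, ()) = u (1, ()) := fun g => by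
        have := hc g (fun g => u (g, ())) 1
        rw [h1, one_mul] at this
        simp only [pq, Pi.zero_apply, mul_zero, Finsupp.sum_fun_zero] at this
        linarith
      exact fun e e' => (h2 e.1).trans (h2 e'.1).symm
  set N := (ContinuousLinearMap.adjoint d).ker with hN
  have hZc : IsClosed (grad s : Set (L2 (G × α) ℝ)) := by
    rw [grad_eq s hs]
    exact Submodule.isClosed_orthogonal _
  have : CompleteSpace (grad s) := hZc.completeSpace_coe
  have h1 : harmonic s = (grad s ⊓ N : Submodule ℝ (L2 (G × α) ℝ)) := by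
    ext ω
    refine and_congr (exists_congr fun f => ⟨fun h => funext fun e => h e.1 e.2,
      fun h g a => congrFun h (g, a)⟩) ⟨fun h => lp.ext (funext fun ⟨g, _⟩ => ?_), fun h g => ?_⟩
    · exact (hd2 ω g).trans (sub_eq_zero.2 (h g))
    · have h2 : ContinuousLinearMap.adjoint d ω = 0 := h
      have := hd2 ω g
      rw [h2] at this
      exact sub_eq_zero.1 this.symm
  have hHc : IsClosed ((grad s ⊓ N : Submodule ℝ (L2 (G × α) ℝ)) : Set (L2 (G × α) ℝ)) :=
    hZc.inter (ContinuousLinearMap.isClosed_ker _)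
  have : CompleteSpace (grad s ⊓ N : Submodule ℝ (L2 (G × α) ℝ)) := hHc.completeSpace_coe
  have h2 : (grad s)ᗮ ≤ N := fun ω hω => by
    change ContinuousLinearMap.adjoint d ω = 0
    refine ext_inner_left ℝ fun u => ?_
    rw [ContinuousLinearMap.adjoint_inner_right, inner_zero_right]
    exact hω _ ⟨fun g => u (g, ()), funext fun e => hd1 u e.1 e.2⟩
  have h3 : Nᗮ ≤ grad s := by
    have := Submodule.orthogonal_le h2
    rwa [Submodule.orthogonal_orthogonal] at this
  have h4 : (grad s ⊓ N).starProjection = (grad s).starProjection - (1 - N.starProjection) := by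
    ext1 x
    change _ = (grad s).starProjection x - (x - N.starProjection x)
    refine Submodule.eq_starProjection_of_mem_of_inner_eq_zero ?_ fun w hw => ?_
    · refine ⟨sub_mem (Submodule.starProjection_apply_mem _ _)
        (h3 (Submodule.sub_starProjection_mem_orthogonal x)), ?_⟩
      have := sub_mem (N.starProjection_apply_mem x)
        (h2 (Submodule.sub_starProjection_mem_orthogonal (K := grad s) x))
      rwa [show N.starProjection x - (x - (grad s).starProjection x) =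
        (grad s).starProjection x - (x - N.starProjection x) by abel] at this
    · rw [sub_sub_eq_add_sub, add_sub_right_comm, inner_add_left,
        Submodule.starProjection_inner_eq_zero _ _ hw.1,
        Submodule.starProjection_inner_eq_zero _ _ hw.2, add_zero]
  have h5 := Sys.tr_ker hde
  rw [l2b1, l2b0, h0, h1, vnDim_eq _ hHc, vnDim_eq _ hZc,
    vnDim_eq _ (ContinuousLinearMap.isClosed_ker _), h4, Sys.tr_sub, Sys.tr_sub]
  rw [tr_one (α := Unit), Fintype.card_unit, Nat.cast_one] at h5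
  linarith

end Pool.Agent.Lib.MP_34a149_al
end

-- part Pool.Agent.Lib.MP_34a149_al.Field
section

/-!
Equivariant fields of operators over a measure preserving action.
-/

namespace Pool.Agent.Lib.MP_34a149_al

open Finset Classical MeasureTheory Filter
open scoped RealInnerProductSpace

variable {X : Type} [MeasurableSpace X] {μ : Measure X}

lemma exists_mul (ψ : X → ℝ) (hψ : Measurable ψ) (C : ℝ) (hC : ∀ x, |ψ x| ≤ C) (hC0 : 0 ≤ C) :
    ∃ M : Lp ℝ 2 μ →L[ℝ] Lp ℝ 2 μ, ‖M‖ ≤ C ∧ ∀ p, M p =ᵐ[μ] fun x => ψ x * p x := by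
  have h0 : ∀ (p : Lp ℝ 2 μ) x, ‖ψ x * p x‖ ≤ C * ‖p x‖ := fun p x => by
    rw [norm_mul]
    exact mul_le_mul_of_nonneg_right (hC x) (norm_nonneg _)
  have h1 : ∀ p : Lp ℝ 2 μ, MemLp (fun x => ψ x * p x) 2 μ := fun p =>
    (Lp.memLp p).of_le_mul (hψ.aestronglyMeasurable.mul (Lp.aestronglyMeasurable p))
      (Eventually.of_forall (h0 p))
  let L : Lp ℝ 2 μ →ₗ[ℝ] Lp ℝ 2 μ :=
    { toFun := fun p => (h1 p).toLp _
      map_add' := fun p q => Lp.ext (by
        filter_upwards [(h1 (p + q)).coeFn_toLp, (h1 p).coeFn_toLp, (h1 q).coeFn_toLp,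
          Lp.coeFn_add p q, Lp.coeFn_add ((h1 p).toLp _) ((h1 q).toLp _)] with x a1 a2 a3 a4 a5
        rw [a1, a5, a4, Pi.add_apply, Pi.add_apply, a2, a3, mul_add])
      map_smul' := fun r p => Lp.ext (by
        filter_upwards [(h1 (r • p)).coeFn_toLp, (h1 p).coeFn_toLp,
          Lp.coeFn_smul r p, Lp.coeFn_smul r ((h1 p).toLp _)] with x a1 a2 a4 a5
        rw [a1, RingHom.id_apply, a5, a4, Pi.smul_apply, Pi.smul_apply, a2, smul_eq_mul,
          smul_eq_mul, mul_left_comm]) }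
  refine ⟨L.mkContinuous C fun p => Lp.norm_le_mul_norm_of_ae_le_mul ?_,
    LinearMap.mkContinuous_norm_le _ hC0 _, fun p => (h1 p).coeFn_toLp⟩
  filter_upwards [(h1 p).coeFn_toLp] with x hx
  exact (congrArg _ hx).trans_le (h0 p x)

variable {G : Type} [Group G] [MulAction G X]

lemma exists_sys [IsProbabilityMeasure μ]
    (hmp : ∀ g : G, MeasurePreserving (fun x : X => g • x) μ μ) :
    ∃ S : Sys G (Lp ℝ 2 μ), (S.one =ᵐ[μ] fun _ => 1) ∧
      ∀ k c, ∃ ψ : X → ℝ, ∀ p, S.r k c p =ᵐ[μ] fun x => ψ x * p (k⁻¹ • x) := by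
  have : MeasurableConstSMul G X := ⟨fun g => (hmp g).measurable⟩
  have : SMulInvariantMeasure G X μ := ⟨fun g s hs => (hmp g).measure_preimage hs.nullMeasurableSet⟩
  have h1 : ∀ (k : G) (ψ : {ψ : X → ℝ // Measurable ψ ∧ ∀ x, |ψ x| ≤ 1}),
      ∃ M : Lp ℝ 2 μ →L[ℝ] Lp ℝ 2 μ, ‖M‖ ≤ 1 ∧ ∀ p, M p =ᵐ[μ] fun x => ψ.1 x * p (k⁻¹ • x) := by
    intro k ψ
    obtain ⟨M, a1, a2⟩ := exists_mul (μ := μ) ψ.1 ψ.2.1 1 ψ.2.2 zero_le_one
    refine ⟨M ∘L (Lp.compMeasurePreservingₗᵢ ℝ _ (hmp k⁻¹)).toContinuousLinearMap,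
      (M.opNorm_comp_le _).trans (mul_le_one₀ a1 (norm_nonneg _)
        (LinearIsometry.norm_toContinuousLinearMap_le _)), fun p => ?_⟩
    filter_upwards [a2 (Lp.compMeasurePreserving _ (hmp k⁻¹) p),
      Lp.coeFn_compMeasurePreserving p (hmp k⁻¹)] with x a3 a4
    exact a3.trans (congrArg _ a4)
  choose r hr hr' using h1
  let o : Lp ℝ 2 μ := (memLp_const (1 : ℝ)).toLp _
  have ho : o =ᵐ[μ] fun _ => 1 := MemLp.coeFn_toLp _
  have h2 : ∀ (h : G) (p q : Lp ℝ 2 μ), (∀ c, ⟪p, r h c o⟫ = ⟪o, r h c q⟫) →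
      p =ᵐ[μ] fun x => q (h⁻¹ • x) := by
    intro h p q hc
    refine Integrable.ae_eq_of_forall_setIntegral_eq _ _ ((Lp.memLp p).integrable one_le_two)
      (((Lp.memLp q).comp_measurePreserving (hmp h⁻¹)).integrable one_le_two) fun B hB _ => ?_
    let c : {ψ : X → ℝ // Measurable ψ ∧ ∀ x, |ψ x| ≤ 1} :=
      ⟨B.indicator 1, measurable_one.indicator hB, fun x => by by_cases h : x ∈ B <;> simp [h]⟩
    have := hc c
    rw [L2.inner_def, L2.inner_def] at this
    rw [← integral_indicator hB, ← integral_indicator hB]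
    refine Eq.trans (integral_congr_ae ?_) (this.trans (integral_congr_ae ?_))
    · filter_upwards [hr' h c o, (hmp h⁻¹).quasiMeasurePreserving.ae ho] with x a1 a2
      rw [a1, a2]
      by_cases h : x ∈ B <;> simp [h, c]
    · filter_upwards [hr' h c q, ho] with x a1 a2
      rw [a1, a2]
      by_cases h : x ∈ B <;> simp [h, c]
  refine ⟨⟨_, o, r, hr, fun k c => ⟨⟨fun x => c.1 (k • x), c.2.1.comp (hmp k).measurable,
    fun x => c.2.2 _⟩, fun p q => ?_⟩, fun h p q p' q' a1 a2 => ?_⟩, ho,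
    fun k c => ⟨c.1, hr' k c⟩⟩
  · rw [L2.inner_def, L2.inner_def, ← integral_smul_eq_self (g := k)]
    refine integral_congr_ae ?_
    filter_upwards [(hmp k).quasiMeasurePreserving.ae (hr' k c p), hr' k⁻¹ ⟨fun x => c.1 (k • x),
      c.2.1.comp (hmp k).measurable, fun x => c.2.2 _⟩ q] with x a1 a2
    rw [a1, a2]
    simp
    ring
  · rw [L2.inner_def, L2.inner_def, ← integral_smul_eq_self (g := h)]
    refine integral_congr_ae ?_
    filter_upwards [(hmp h).quasiMeasurePreserving.ae (h2 _ _ _ a1), h2 _ _ _ a2] with x a1 a2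
    rw [a1, a2]
    simp [mul_comm]

lemma exists_field (hmp : ∀ g : G, MeasurePreserving (fun x : X => g • x) μ μ)
    {S : Sys G (Lp ℝ 2 μ)}
    (hS : ∀ k c, ∃ ψ : X → ℝ, ∀ p, S.r k c p =ᵐ[μ] fun x => ψ x * p (k⁻¹ • x))
    {I J : Type} [Fintype I] [Fintype J] (T : Finset G) (φ : I → G → J → X → ℝ)
    (hm : ∀ i h j, Measurable (φ i h j)) (hb : ∀ i h j, ∃ C, ∀ x, |φ i h j x| ≤ C) :
    ∃ a : L2 (G × J) (Lp ℝ 2 μ) →L[ℝ] L2 (G × I) (Lp ℝ 2 μ), S.Equi a ∧ ∀ η g i,
      a η (g, i) =ᵐ[μ] fun x => ∑ h ∈ T, ∑ j, φ i h j (g⁻¹ • x) * η (g * h, j) x := by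
  choose C hC using hb
  choose M hM hM' using fun i h j (g : G) => exists_mul (μ := μ) (fun x => φ i h j (g⁻¹ • x))
    ((hm i h j).comp (hmp _).measurable) |C i h j| (fun x => (hC i h j _).trans (le_abs_self _))
    (abs_nonneg _)
  obtain ⟨a, ha, ha'⟩ := S.exists_mat T M (fun i h j => ⟨_, hM i h j⟩) (by
    intro i h j k c g p
    obtain ⟨ψ, hψ⟩ := hS k c
    refine Lp.ext ?_
    filter_upwards [hM' i h j g (S.r k c p), hψ p, hψ (M i h j (k⁻¹ * g) p),
      (hmp k⁻¹).quasiMeasurePreserving.ae (hM' i h j (k⁻¹ * g) p)] with x a1 a2 a3 a4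
    rw [a1, a2, a3, a4]
    simp [mul_smul, mul_left_comm])
  refine ⟨a, ha, fun η g i => ?_⟩
  rw [ha']
  filter_upwards [Lp.coeFn_fun_finsetSum T fun h => ∑ j, M i h j g (η (g * h, j)),
    (eventually_all_finset T).2 fun h _ =>
      Lp.coeFn_fun_finsetSum univ fun j => M i h j g (η (g * h, j)),
    (eventually_all_finset T).2 fun h _ => eventually_all.2 fun j =>
      hM' i h j g (η (g * h, j))] with x a1 a2 a3
  rw [a1]
  refine sum_congr rfl fun h hh => ?_
  rw [a2 h hh]
  exact sum_congr rfl fun j _ => a3 h hh j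

variable {α : Type}

lemma countable_of_gen [Finite α] (s : α → G) (hs : Subgroup.closure (Set.range s) = ⊤) :
    Countable G := by
  refine Function.Surjective.countable (f := FreeGroup.lift s) ?_
  rw [← MonoidHom.range_eq_top, FreeGroup.range_lift_eq_closure, hs]

omit [MulAction G X] in
lemma exists_cocycles [Finite α] (s : α → G) (hs : Subgroup.closure (Set.range s) = ⊤) :
    ∃ Z : Submodule ℝ (L2 (G × α) (Lp ℝ 2 μ)), IsClosed (Z : Set (L2 (G × α) (Lp ℝ 2 μ))) ∧
      ∀ η, η ∈ Z ↔ ∀ᵐ x ∂μ, ∃ f, (fun e => η e x) = df s f := by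
  have := countable_of_gen s hs
  obtain ⟨c, hc⟩ := exists_paths s hs
  let L : (G × α →₀ ℝ) → (L2 (G × α) (Lp ℝ 2 μ) →L[ℝ] Lp ℝ 2 μ) := fun z =>
    ∑ e ∈ z.support, z e • lp.evalCLM ℝ (fun _ : G × α => Lp ℝ 2 μ) 2 e
  have hL : ∀ z η, L z η =ᵐ[μ] fun x => pq (fun e => η e x) 1 z := fun z η => by
    have : L z η = ∑ e ∈ z.support, z e • η e := by
      simp only [L, _root_.sum_apply]
      rfl
    rw [this]
    filter_upwards [Lp.coeFn_fun_finsetSum z.support fun e => z e • η e,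
      (eventually_all_finset z.support).2 fun e _ => Lp.coeFn_smul (z e) (η e)] with x a1 a2
    rw [a1]
    exact sum_congr rfl fun e he => by simp [a2 e he]
  refine ⟨⨅ e : G × α, (L (c e.1 + Finsupp.single e 1 - c (e.1 * s e.2))).ker, ?_, fun η => ?_⟩
  · rw [Submodule.coe_iInf]
    exact isClosed_iInter fun e => ContinuousLinearMap.isClosed_ker _
  · rw [Submodule.mem_iInf]
    refine ⟨fun h => ?_, fun h e => Lp.ext ?_⟩
    · have : ∀ e : G × α, ∀ᵐ x ∂μ, pq (fun e => η e x) 1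
          (c e.1 + Finsupp.single e 1 - c (e.1 * s e.2)) = 0 := fun e => by
        have a1 : L _ η = 0 := h e
        filter_upwards [hL (c e.1 + Finsupp.single e 1 - c (e.1 * s e.2)) η,
          Lp.coeFn_zero ℝ 2 μ] with x a2 a3
        rw [← a2, a1, a3]
        rfl
      filter_upwards [ae_all_iff.2 this] with x hx
      exact ⟨_, eq_df s c _ fun g a => hx (g, a)⟩
    · filter_upwards [hL (c e.1 + Finsupp.single e 1 - c (e.1 * s e.2)) η,
        Lp.coeFn_zero ℝ 2 μ, h] with x a2 a3 ⟨f, hf⟩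
      refine a2.trans (Eq.trans ?_ a3.symm)
      rw [hf]
      simp [pq_sub, pq_add, pq_single, hc, df]

end Pool.Agent.Lib.MP_34a149_al
end

-- part Pool.Agent.Lib.MP_34a149_al.GabFin
section

/-!
The inequality of Gaboriau for graphings that are Lipschitz equivalent to a Cayley graphing.
-/

namespace Pool.Agent.Lib.MP_34a149_al

open Finset Classical MeasureTheory Filter
open scoped RealInnerProductSpace

variable {X : Type} [MeasurableSpace X] {μ : Measure X} {G α : Type} [Group G]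

lemma sq_le_of_inner {a b : ℝ} (ha : 0 ≤ a) (h : a ^ 2 ≤ a * b) : a ^ 2 ≤ b ^ 2 := by
  rcases ha.eq_or_lt with rfl | ha
  · simpa using sq_nonneg b
  · exact pow_le_pow_left₀ ha.le (le_of_mul_le_mul_left (by rwa [← sq]) ha) 2

lemma norm_proj_sq {E : Type} [NormedAddCommGroup E] [InnerProductSpace ℝ E] (W : Submodule ℝ E)
    [W.HasOrthogonalProjection] (x : E) : ‖W.starProjection x‖ ^ 2 = ⟪W.starProjection x, x⟫ := by
  have := W.starProjection_inner_eq_zero x _ (W.starProjection_apply_mem x)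
  rw [inner_sub_left, real_inner_self_eq_norm_sq, real_inner_comm] at this
  linarith

lemma pq_eq_sum [Fintype α] (ω : G × α → ℝ) (x : G) (c : G × α →₀ ℝ) {T : Finset G}
    (hT : ∀ e ∈ c.support, e.1 ∈ T) : pq ω x c = ∑ h ∈ T, ∑ a, c (h, a) * ω (x * h, a) := by
  unfold pq
  rw [Finsupp.sum_of_support_subset _ (s := T ×ˢ univ)
    (fun e he => mem_product.2 ⟨hT e he, mem_univ _⟩) _ (by simp), sum_product]

lemma dim_lower [IsProbabilityMeasure μ] [Fintype α] (s : α → G)
    (hs : Subgroup.closure (Set.range s) = ⊤) (S : Sys G (Lp ℝ 2 μ)) (ho : S.one =ᵐ[μ] fun _ => 1)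
    (Z : Submodule ℝ (L2 (G × α) (Lp ℝ 2 μ))) [Z.HasOrthogonalProjection]
    (hZ : ∀ η, η ∈ Z ↔ ∀ᵐ x ∂μ, ∃ f, (fun e => η e x) = df s f) :
    vnDim (grad s : Set (L2 (G × α) ℝ)) ≤ S.tr Z.starProjection := by
  have := countable_of_gen s hs
  have hZc : IsClosed (grad s : Set (L2 (G × α) ℝ)) := by
    rw [grad_eq s hs]
    exact Submodule.isClosed_orthogonal _
  have : CompleteSpace (grad s) := hZc.completeSpace_coe
  have h1 : ⟪S.one, S.one⟫ = 1 := by
    rw [L2.inner_def, integral_congr_ae (g := fun _ => 1) (by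
      filter_upwards [ho] with x hx
      simp [hx])]
    simp
  have h1' : ‖S.one‖ = 1 := by rw [norm_eq_sqrt_real_inner, h1, Real.sqrt_one]
  rw [vnDim_eq _ hZc, Sys.tr_proj, Sys.tr_proj]
  refine sum_le_sum fun a _ => sq_le_of_inner (norm_nonneg _) ?_
  set v := (grad s).starProjection ((realSys G).xi a) with hv
  let w : L2 (G × α) (Lp ℝ 2 μ) := ⟨fun e => v e • S.one, memℓp_gen (by
    simpa [norm_smul, h1'] using (lp.memℓp v).summable (by norm_num))⟩
  have hw : ∀ e, w e = v e • S.one := fun _ => rfl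
  have h2 : w ∈ Z := by
    obtain ⟨f, hf⟩ := (grad s).starProjection_apply_mem ((realSys G).xi a)
    rw [hZ]
    filter_upwards [ho, ae_all_iff.2 fun e => Lp.coeFn_smul (v e) S.one] with x a1 a2
    refine ⟨f, Eq.trans (funext fun e => ?_) hf⟩
    rw [hw, a2 e]
    simp [a1, hv]
  have h3 : ‖w‖ = ‖v‖ := by
    rw [norm_eq_sqrt_real_inner, norm_eq_sqrt_real_inner, lp.inner_eq_tsum, lp.inner_eq_tsum]
    simp [hw, norm_smul, h1']
  have h4 : ‖v‖ ^ 2 = ⟪w, S.xi a⟫ := by
    rw [hv, norm_proj_sq, ← hv, Sys.xi, Sys.xi, lp.inner_single_right, lp.inner_single_right, hw,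
      inner_smul_left, h1]
    simp [realSys]
  rw [h4, ← h3, ← Submodule.starProjection_eq_self_iff.2 h2,
    Submodule.inner_starProjection_left_eq_right, Submodule.starProjection_eq_self_iff.2 h2]
  exact real_inner_le_norm _ _

theorem gab_fin [MulAction G X] [IsProbabilityMeasure μ] [Fintype α] {J : Type} [Fintype J]
    (hmp : ∀ g : G, MeasurePreserving (fun x : X => g • x) μ μ) (s : α → G)
    (hs : Subgroup.closure (Set.range s) = ⊤) (A : J → Set X) (hA : ∀ j, MeasurableSet (A j))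
    (t : J → G) (K : Finset G) (D : α → G → J → X → ℝ) (hDm : ∀ a h j, Measurable (D a h j))
    (hDb : ∀ a h j, ∃ C, ∀ y, |D a h j y| ≤ C) (hDs : ∀ a h j y, D a h j y ≠ 0 → h⁻¹ • y ∈ A j)
    (hD : ∀ a y (f : G → ℝ), ∑ h ∈ K, ∑ j, D a h j y * (f (h * t j) - f h) = f (s a) - f 1) :
    vnDim (grad s : Set (L2 (G × α) ℝ)) ≤ ∑ j, μ.real (A j) := by
  have := countable_of_gen s hs
  obtain ⟨S, ho, hS⟩ := exists_sys hmp
  obtain ⟨Z, hZc, hZ⟩ := exists_cocycles (μ := μ) s hs
  have : CompleteSpace Z := hZc.completeSpace_coe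
  obtain ⟨c, hc⟩ := exists_paths s hs
  obtain ⟨U, hU, hU'⟩ := exists_field hmp hS K D hDm hDb
  obtain ⟨T, hT, hT'⟩ := exists_field hmp hS
    (univ.biUnion fun j => (c (t j)).support.image Prod.fst)
    (fun j h a y => (A j).indicator 1 y * c (t j) (h, a))
    (fun j h a => (measurable_one.indicator (hA j)).mul_const _)
    (fun j h a => ⟨|c (t j) (h, a)|, fun y => by by_cases h : y ∈ A j <;> simp [h]⟩)
  have hT2 : ∀ η g j, T η (g, j) =ᵐ[μ] fun x =>
      (A j).indicator 1 (g⁻¹ • x) * pq (fun e => η e x) g (c (t j)) := fun η g j => by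
    filter_upwards [hT' η g j] with x hx
    rw [hx, pq_eq_sum _ _ _ (T := univ.biUnion fun j => (c (t j)).support.image Prod.fst)
      fun e he => mem_biUnion.2 ⟨j, mem_univ _, mem_image_of_mem _ he⟩]
    simp only [mul_sum, mul_assoc]
  refine (dim_lower s hs S ho Z hZ).trans ?_
  rw [Sys.dim_eq hU hT Z (by
    intro k b η hη
    obtain ⟨ψ, hψ⟩ := hS k b
    rw [hZ] at hη ⊢
    filter_upwards [(hmp k⁻¹).quasiMeasurePreserving.ae hη,
      ae_all_iff.2 fun e : G × α => hψ (η (k⁻¹ * e.1, e.2))] with x ⟨f, hf⟩ a2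
    refine ⟨fun g => ψ x * f (k⁻¹ * g), funext fun e => ?_⟩
    rw [S.R_apply, a2 e, congrFun hf (k⁻¹ * e.1, e.2)]
    simp [df, mul_sub, mul_assoc]) (by
    intro η hη
    refine lp.ext (funext fun ⟨g, a⟩ => Lp.ext ?_)
    filter_upwards [(hZ η).1 hη, hU' (T η) g a,
      ae_all_iff.2 fun e : G × J => hT2 η e.1 e.2] with x ⟨f, hf⟩ a1 a2
    rw [a1, congrFun hf (g, a)]
    refine Eq.trans (sum_congr rfl fun h _ => sum_congr rfl fun j _ => ?_)
      ((hD a (g⁻¹ • x) fun h => f (g * h)).trans (by simp [df]))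
    rw [a2 (g * h, j), hf, hc]
    by_cases h0 : D a h j (g⁻¹ • x) = 0
    · simp [h0]
    · have := hDs _ _ _ _ h0
      rw [← mul_smul, ← mul_inv_rev] at this
      simp only [Set.indicator_of_mem this, Pi.one_apply, one_mul, mul_assoc]), Sys.tr_proj]
  refine sum_le_sum fun j _ => ?_
  set W := (Z.map T.toLinearMap).topologicalClosure with hW
  let χ : Lp ℝ 2 μ := indicatorConstLp 2 (hA j) (measure_ne_top _ _) 1
  have h1 : ‖lp.single (E := fun _ : G × J => Lp ℝ 2 μ) 2 (1, j) χ‖ ^ 2 = μ.real (A j) := by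
    rw [lp.norm_single (by norm_num), ← real_inner_self_eq_norm_sq,
      L2.real_inner_indicatorConstLp_one_indicatorConstLp_one, Set.inter_self]
  have h2 : ⟪W.starProjection (S.xi j), S.xi j⟫ =
      ⟪W.starProjection (S.xi j), lp.single 2 (1, j) χ⟫ := by
    refine closure_minimal (t := {w | ⟪w, S.xi j⟫ = ⟪w, lp.single 2 (1, j) χ⟫}) ?_
      (isClosed_eq (by fun_prop) (by fun_prop)) (W.starProjection_apply_mem _)
    rintro _ ⟨η, -, rfl⟩
    change ⟪T η, lp.single 2 (1, j) S.one⟫ = ⟪T η, lp.single 2 (1, j) χ⟫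
    rw [lp.inner_single_right, lp.inner_single_right, L2.inner_def, L2.inner_def]
    refine integral_congr_ae ?_
    filter_upwards [hT2 η 1 j, ho, indicatorConstLp_coeFn (p := 2) (hs := hA j)
      (hμs := measure_ne_top μ _) (c := (1 : ℝ))] with x a1 a2 a3
    rw [a1, a2, a3]
    by_cases h : x ∈ A j <;> simp [h]
  rw [← h1]
  refine sq_le_of_inner (norm_nonneg _) ?_
  rw [norm_proj_sq, h2]
  exact real_inner_le_norm _ _

end Pool.Agent.Lib.MP_34a149_al
end
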