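import Pool.Agent.Lib.MP_34a149_al.GabFin
import Pool.Agent.Lib.MP_34a149_al.Defs

-- part Pool.Agent.Lib.MP_34a149_al.Gab
section

/-!
The inequality of Gaboriau between the first `L²`-Betti number and the cost.
-/

namespace Pool.Agent.Lib.MP_34a149_al

open Finset Classical MeasureTheory Filter Topology

variable {G α : Type} [Group G]

lemma exists_path_data {X J : Type} [MulAction G X] (A : J → Set X) (f : J → X → X) (y : X)
    (hy : ∀ z, (∃ g : G, g • y = z) ↔ Relation.EqvGen (fun u v => ∃ j, u ∈ A j ∧ f j u = v) y z)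
    (hy' : ∀ g : G, g • y = y → g = 1) {u v : X}
    (huv : Relation.EqvGen (fun u v => ∃ j, u ∈ A j ∧ f j u = v) u v) :
    ∀ h h' : G, h⁻¹ • y = u → h'⁻¹ • y = v → ∃ d : G × (J × G) →₀ ℤ,
      (∀ φ : G → ℝ, (d.sum fun e n => (n : ℝ) * (φ (e.1 * e.2.2) - φ e.1)) = φ h' - φ h) ∧
      ∀ e ∈ d.support, e.1⁻¹ • y ∈ A e.2.1 ∧ f e.2.1 (e.1⁻¹ • y) = e.2.2⁻¹ • e.1⁻¹ • y := by
  induction huv with
  | rel u v h0 =>
    obtain ⟨j, a1, a2⟩ := h0
    rintro h h' rfl rfl
    refine ⟨Finsupp.single (h, (j, h⁻¹ * h')) 1, fun φ => by simp, fun e he => ?_⟩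
    rw [mem_singleton.1 (Finsupp.support_single_subset he)]
    exact ⟨a1, by simp [a2, mul_smul]⟩
  | refl u =>
    rintro h h' rfl h0
    have : h * h'⁻¹ = 1 := hy' _ (by rw [mul_smul, h0, smul_inv_smul])
    exact ⟨0, fun φ => by simp [mul_inv_eq_one.1 this], by simp⟩
  | symm u v _ ih =>
    intro h h' a1 a2
    obtain ⟨d, b1, b2⟩ := ih h' h a2 a1
    refine ⟨-d, fun φ => ?_, by simpa using b2⟩
    rw [Finsupp.sum_neg_index (by simp)]
    simp only [Int.cast_neg, neg_mul, Finsupp.sum_neg, b1, neg_sub]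
  | trans u v w h1 _ ih ih' =>
    intro h h' a1 a2
    obtain ⟨g, hg⟩ := (hy v).2 (.trans _ _ _ ((hy u).1 ⟨_, a1⟩) h1)
    obtain ⟨d, b1, b2⟩ := ih h g⁻¹ a1 (by rwa [inv_inv])
    obtain ⟨d', b3, b4⟩ := ih' g⁻¹ h' (by rwa [inv_inv]) a2
    refine ⟨d + d', fun φ => ?_, fun e he => (mem_union.1 (Finsupp.support_add he)).elim
      (b2 e) (b4 e)⟩
    rw [Finsupp.sum_add_index' (by simp) (by simp [add_mul]), b1, b3]
    ring

theorem gaboriau [Fintype α] (s : α → G) (hs : Subgroup.closure (Set.range s) = ⊤) :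
    ENNReal.ofReal (vnDim (grad s : Set (L2 (G × α) ℝ))) ≤ cost G := by
  have := countable_of_gen s hs
  refine le_sInf ?_
  rintro _ ⟨X, _, _, _, μ, J, _, A, f, ⟨hp, hmp, hfree⟩, ⟨hA, hgr⟩, rfl⟩
  refine ENNReal.le_of_forall_pos_le_add fun ε hε _ => ?_
  let P : J × G → Set X := fun p => {u | u ∈ A p.1 ∧ f p.1 u = p.2⁻¹ • u}
  have hP : ∀ p, MeasurableSet (P p) := fun p =>
    (hA p.1).1.inter (measurableSet_eq_fun (hA p.1).2.1 (hmp _).measurable)
  have hsum : ∑' p, μ (P p) ≤ ∑' j, μ (A j) := by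
    rw [ENNReal.tsum_prod']
    refine ENNReal.tsum_le_tsum fun j => ?_
    rw [← measure_iUnion₀ (fun g g' hg => measure_mono_null (fun u hu => ?_)
      (hfree (g * g'⁻¹) (by rwa [Ne, mul_inv_eq_one]))) fun g => (hP _).nullMeasurableSet]
    · exact measure_mono (Set.iUnion_subset fun g u hu => hu.1)
    · change (g * g'⁻¹) • u = u
      rw [mul_smul, ← hu.2.2, hu.1.2, smul_inv_smul]
  obtain ⟨d, hd⟩ := exists_surjective_nat (G × (J × G) →₀ ℤ)
  let ok : α → ℕ → Set X := fun a n => {y | (∀ φ : G → ℝ, ((d n).sum fun e n =>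
    (n : ℝ) * (φ (e.1 * e.2.2) - φ e.1)) = φ (s a) - φ 1) ∧
    ∀ e ∈ (d n).support, e.1⁻¹ • y ∈ P e.2}
  have hok : ∀ a n, MeasurableSet (ok a n) := fun a n => by
    refine (MeasurableSet.const _).inter ?_
    refine ((d n).support.measurableSet_biInter fun e _ =>
      (hmp e.1⁻¹).measurable (hP e.2)).congr (Set.ext fun y => ?_)
    simp only [Set.mem_iInter]
    rfl
  have hlim : ∀ a, Tendsto (fun N => μ (⋂ n < N, (ok a n)ᶜ)) atTop (𝓝 0) := fun a => by
    have h1 := tendsto_measure_iInter_atTop (μ := μ) (s := fun N => ⋂ n < N, (ok a n)ᶜ)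
      (fun N => (MeasurableSet.iInter fun n => MeasurableSet.iInter fun _ =>
        (hok a n).compl).nullMeasurableSet)
      (fun N M h => Set.biInter_subset_biInter_left fun n hn => lt_of_lt_of_le hn h)
      ⟨0, measure_ne_top _ _⟩
    have h2 : μ (⋂ N, ⋂ n < N, (ok a n)ᶜ) = 0 := by
      have h3 : ∀ᵐ y ∂μ, ∀ g : G, g • y = y → g = 1 := ae_all_iff.2 fun g => by
        by_cases h : g = 1
        · exact Eventually.of_forall fun _ _ => h
        · filter_upwards [measure_eq_zero_iff_ae_notMem.1 (hfree g h)] with y hy h'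
          exact absurd h' hy
      refine measure_eq_zero_iff_ae_notMem.2 ?_
      filter_upwards [hgr, h3] with y a1 a2 a3
      obtain ⟨d', b1, b2⟩ := exists_path_data A f y a1 a2 ((a1 ((s a)⁻¹ • y)).1 ⟨_, rfl⟩) 1 (s a)
        (by simp) rfl
      obtain ⟨n, rfl⟩ := hd d'
      simp only [Set.mem_iInter] at a3
      exact a3 (n + 1) n (Nat.lt_succ_self n) ⟨b1, b2⟩
    rwa [h2] at h1
  have hlim' := tendsto_finsetSum univ fun a _ => hlim a
  rw [sum_const_zero] at hlim'
  obtain ⟨N, hN⟩ := (hlim'.eventually (ge_mem_nhds (ENNReal.coe_pos.2 hε))).exists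
  have hex : ∀ a y, ∃ n, y ∈ ok a n ∨ n = N := fun a y => ⟨N, Or.inr rfl⟩
  let ν : α → X → ℕ := fun a y => Nat.find (hex a y)
  have hν : ∀ a, Measurable (ν a) := fun a =>
    measurable_find (hex a) fun n => (hok a n).union (MeasurableSet.const _)
  have hν1 : ∀ a y, ν a y ≤ N := fun a y => Nat.find_min' _ (Or.inr rfl)
  have hν2 : ∀ a y, ν a y < N → y ∈ ok a (ν a y) := fun a y h =>
    (Nat.find_spec (hex a y)).resolve_right h.ne
  let J0 : Finset (J × G) := (range N).biUnion fun n => (d n).support.image Prod.snd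
  let K : Finset G := insert 1 ((range N).biUnion fun n => (d n).support.image Prod.fst)
  let E : α → G → J0 ⊕ α → ℕ → ℝ := fun a h j n => Sum.elim
    (fun p : J0 => if n < N then (d n (h, p.1) : ℝ) else 0)
    (fun b => if ¬ n < N ∧ h = 1 ∧ b = a then 1 else 0) j
  have key := gab_fin hmp s hs (Sum.elim (fun p : J0 => P p) fun a => {y | ¬ ν a y < N})
    (by
      rintro (p | a)
      · exact hP _
      · exact (hν a (measurableSet_Iio (a := N))).compl)
    (Sum.elim (fun p : J0 => p.1.2) s) K (fun a h j y => E a h j (ν a y))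
    (fun a h j => (measurable_of_countable (E a h j)).comp (hν a))
    (fun a h j => ⟨∑ n ∈ range (N + 1), |E a h j n|, fun y =>
      single_le_sum (f := fun n => |E a h j n|) (fun _ _ => abs_nonneg _)
        (mem_range.2 (Nat.lt_succ_of_le (hν1 a y)))⟩)
    (by
      rintro a h (p | b) y hy
      · by_cases h1 : ν a y < N
        · exact (hν2 a y h1).2 (h, p.1) (by simpa [E, h1] using hy)
        · simp [E, h1] at hy
      · have : ¬ ν a y < N ∧ h = 1 ∧ b = a := by
          by_contra h1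
          exact hy (if_neg h1)
        obtain ⟨h1, rfl, rfl⟩ := this
        simpa using h1)
    (by
      intro a y φ
      simp only [Fintype.sum_sum_type, Sum.elim_inl, Sum.elim_inr, E, sum_add_distrib]
      by_cases h1 : ν a y < N
      · rw [← (hν2 a y h1).1 φ, Finsupp.sum_of_support_subset _ (s := K ×ˢ J0) (fun e he =>
          mem_product.2 ⟨mem_insert_of_mem (mem_biUnion.2 ⟨_, mem_range.2 h1,
            mem_image_of_mem _ he⟩), mem_biUnion.2 ⟨_, mem_range.2 h1, mem_image_of_mem _ he⟩⟩)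
          _ (by simp), sum_product]
        simp only [h1, if_true, not_true, false_and, if_false, zero_mul, sum_const_zero, add_zero]
        exact sum_congr rfl fun h _ => sum_coe_sort J0
          fun p => (d (ν a y) (h, p) : ℝ) * (φ (h * p.2) - φ h)
      · rw [sum_eq_single_of_mem (s := K) (f := fun h => ∑ b,
          (if ¬ ν a y < N ∧ h = 1 ∧ b = a then 1 else 0) * (φ (h * s b) - φ h)) 1
          (mem_insert_self _ _) fun h _ hh => by simp [hh]]
        simp [h1])
  refine (ENNReal.ofReal_le_ofReal key).trans ?_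
  rw [ENNReal.ofReal_sum_of_nonneg fun _ _ => measureReal_nonneg]
  simp only [ofReal_measureReal (measure_ne_top μ _), Fintype.sum_sum_type, Sum.elim_inl,
    Sum.elim_inr]
  refine add_le_add (le_trans ?_ hsum) (le_trans (sum_le_sum fun a _ => measure_mono ?_) hN)
  · rw [sum_coe_sort J0 fun p => μ (P p)]
    exact ENNReal.sum_le_tsum _
  · intro y hy
    simp only [Set.mem_iInter]
    exact fun n hn h => hy (lt_of_le_of_lt (Nat.find_min' (hex a y) (Or.inl h)) hn)

end Pool.Agent.Lib.MP_34a149_al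
end

-- part Pool.Agent.Lib.MP_34a149_al.Kaz
section

/-!
The inequality of Kazhdan between normalized Betti numbers and the first `L²`-Betti number.
-/

namespace Pool.Agent.Lib.MP_34a149_al

open Finset Classical Filter Topology
open scoped RealInnerProductSpace

lemma bessel {E Ω : Type} [Fintype E] [AddCommGroup Ω] [Module ℝ Ω] [FiniteDimensional ℝ Ω]
    (Ψ : Ω →ₗ[ℝ] (E → ℝ)) (hinj : Function.Injective Ψ) (u : E → (E →₀ ℝ))
    (hu : ∀ ω e, ((u e).sum fun e' r => r * Ψ ω e') = Ψ ω e) :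
    (Module.finrank ℝ Ω : ℝ) ≤ ∑ e, ‖toL2 (u e)‖ ^ 2 := by
  let Φ : Ω →ₗ[ℝ] L2 E ℝ := toL2 ∘ₗ (Finsupp.linearEquivFunOnFinite ℝ ℝ E).symm.toLinearMap ∘ₗ Ψ
  have hΦ : ∀ ω e, Φ ω e = Ψ ω e := fun ω e => by simp [Φ, toL2_apply]
  have h1 : Function.Injective Φ := fun a b h => hinj (funext fun e => by rw [← hΦ, ← hΦ, h])
  let b := stdOrthonormalBasis ℝ (LinearMap.range Φ)
  have hb : Orthonormal ℝ fun j => (b j : L2 E ℝ) :=
    b.orthonormal.comp_linearIsometry (LinearMap.range Φ).subtypeₗᵢ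
  have h2 : ∀ j, ∑ e, ‖⟪(b j : L2 E ℝ), toL2 (u e)⟫‖ ^ 2 = 1 := fun j => by
    have a1 := lp.inner_eq_tsum (𝕜 := ℝ) (b j : L2 E ℝ) (b j : L2 E ℝ)
    rw [real_inner_self_eq_norm_sq, hb.1 j, tsum_fintype, one_pow] at a1
    rw [a1]
    obtain ⟨ω, hω⟩ := (b j).2
    refine sum_congr rfl fun e _ => ?_
    rw [real_inner_comm, inner_toL2, ← hω]
    simp only [hΦ, hu]
    simp
  calc (Module.finrank ℝ Ω : ℝ) = ∑ j, ∑ e, ‖⟪(b j : L2 E ℝ), toL2 (u e)⟫‖ ^ 2 := by
        simp only [h2]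
        simp [LinearMap.finrank_range_of_inj h1]
    _ ≤ _ := by
        rw [sum_comm]
        exact sum_le_sum fun e _ => hb.sum_inner_products_le _

lemma norm_mapDomain {E E' : Type} (σ : E → E') (v : E →₀ ℝ) (h : Set.InjOn σ v.support) :
    ‖toL2 (v.mapDomain σ)‖ ^ 2 = ‖toL2 v‖ ^ 2 := by
  rw [← real_inner_self_eq_norm_sq, ← real_inner_self_eq_norm_sq, inner_toL2, inner_toL2,
    Finsupp.sum_mapDomain_index (by simp) (by simp [add_mul])]
  refine Finsupp.sum_congr fun e he => ?_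
  rw [toL2_apply, toL2_apply, Finsupp.mapDomain_apply' _ v subset_rfl h he]

variable {G α : Type} [Group G] [Fintype α]

lemma kaz_level (Γ : Subgroup G) [Γ.Normal] [Γ.FiniteIndex] (s : α → G)
    (hs : Subgroup.closure (Set.range s) = ⊤) (v : α → (G × α →₀ ℝ))
    (hv : ∀ a f x, pq (df s f) x (v a) = df s f (x, a))
    (hinj : ∀ a, Set.InjOn (fun e : G × α => ((e.1 : G ⧸ Γ), e.2)) (v a).support)
    (S : Finset Γ) (hS : Subgroup.closure (S : Set Γ) = ⊤) :
    (b1 ℝ Γ : ℝ) + Γ.index - 1 ≤ Γ.index * ∑ a, ‖toL2 (v a)‖ ^ 2 := by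
  have : Fintype (G ⧸ Γ) := Fintype.ofFinite _
  have : Module.Finite ℝ (groupHomology.H1 (Rep.trivial ℝ Γ ℝ)) := ⟨⟨_, span_cls ℝ S hS⟩⟩
  have hmem : ∀ g : G, g * ((g : G ⧸ Γ).out)⁻¹ ∈ Γ := fun g => by
    rw [← QuotientGroup.eq_one_iff]
    simp
  have hmk : ∀ (x : Γ) (g : G), (((x : G) * g : G) : G ⧸ Γ) = g := fun x g => by
    rw [QuotientGroup.mk_mul, (QuotientGroup.eq_one_iff _).2 x.2, one_mul]
  let ψ : G → Γ := fun g => ⟨_, hmem g⟩
  have hψ : ∀ (x : Γ) g, ψ (x * g) = x * ψ g := fun x g => Subtype.ext (by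
    simp [ψ, hmk, mul_assoc])
  let ex : ({q : G ⧸ Γ // q ≠ 1} → ℝ) →ₗ[ℝ] (G ⧸ Γ → ℝ) :=
    { toFun := fun u q => if h : q = 1 then 0 else u ⟨q, h⟩
      map_add' := fun a b => funext fun q => by by_cases h : q = 1 <;> simp [h]
      map_smul' := fun r a => funext fun q => by by_cases h : q = 1 <;> simp [h] }
  let Fm : (Module.Dual ℝ (groupHomology.H1 (Rep.trivial ℝ Γ ℝ)) × ({q : G ⧸ Γ // q ≠ 1} → ℝ))
      →ₗ[ℝ] (G → ℝ) :=
    { toFun := fun ω g => ω.1 (clsL ℝ (Finsupp.single (ψ g) 1)) + ex ω.2 g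
      map_add' := fun a b => funext fun g => by
        simp
        ring
      map_smul' := fun r a => funext fun g => by simp [mul_add] }
  have hF : ∀ ω (x : Γ) g, Fm ω (x * g) = ω.1 (clsL ℝ (Finsupp.single x 1)) + Fm ω g := by
    intro ω x g
    simp only [Fm, LinearMap.coe_mk, AddHom.coe_mk, hψ, hmk, clsL_mul, map_add, add_assoc]
  let Ψ := (LinearMap.funLeft ℝ ℝ (fun e : (G ⧸ Γ) × α => e.1.out * s e.2) -
    LinearMap.funLeft ℝ ℝ (fun e : (G ⧸ Γ) × α => e.1.out)) ∘ₗ Fm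
  have hΨ : ∀ ω (g : G) a, Ψ ω ((g : G ⧸ Γ), a) = df s (Fm ω) (g, a) := fun ω g a => by
    have h1 : g = ψ g * (g : G ⧸ Γ).out := by simp [ψ]
    change Fm ω ((g : G ⧸ Γ).out * s a) - Fm ω (g : G ⧸ Γ).out = Fm ω (g * s a) - Fm ω g
    conv_rhs => rw [h1, mul_assoc, hF, hF]
    ring
  have h1 := bessel Ψ (by
    rw [injective_iff_map_eq_zero]
    intro ω hω
    obtain ⟨c, hc⟩ := exists_paths s hs
    have a1 : df s (Fm ω) = 0 := funext fun e => by rw [← hΨ ω e.1 e.2, hω]; rfl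
    have a2 : ∀ g, Fm ω g = Fm ω 1 := fun g => by
      have := hc g (Fm ω) 1
      rw [a1, one_mul] at this
      simp only [pq, Pi.zero_apply, mul_zero, Finsupp.sum_fun_zero] at this
      linarith
    have a3 : ω.1 = 0 := by
      refine LinearMap.ext_on (span_cls ℝ S hS) ?_
      intro y hy
      obtain ⟨x, -, rfl⟩ := mem_image.1 (mem_coe.1 hy)
      have := hF ω x 1
      rw [a2] at this
      simpa using this
    refine Prod.ext a3 (funext fun q => ?_)
    have := a2 q.1.out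
    simp only [Fm, a3, LinearMap.coe_mk, AddHom.coe_mk, LinearMap.zero_apply, zero_add,
      QuotientGroup.out_eq', QuotientGroup.mk_one] at this
    simpa [ex, q.2] using this)
    (fun e => (v e.2).mapDomain fun e' => (e.1 * (e'.1 : G ⧸ Γ), e'.2)) (by
      rintro ω ⟨q, a⟩
      rw [Finsupp.sum_mapDomain_index (by simp) (by simp [add_mul])]
      have := hv a (Fm ω) q.out
      rw [← hΨ] at this
      simp only [pq, ← hΨ] at this
      simpa using this)
  rw [Module.finrank_prod, Subspace.dual_finrank_eq, Module.finrank_fintype_fun_eq_card,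
    sum_congr rfl fun e _ => norm_mapDomain _ (v e.2) fun x hx y hy h => hinj e.2 hx hy (by
      simpa using h), Fintype.sum_prod_type] at h1
  have h4 : Fintype.card {x : G ⧸ Γ // x ≠ 1} + 1 = Γ.index := by
    rw [Fintype.card_subtype_compl, Fintype.card_subtype_eq, Subgroup.index_eq_card,
      Nat.card_eq_fintype_card]
    have : 0 < Fintype.card (G ⧸ Γ) := Fintype.card_pos
    omega
  simp only [sum_const, card_univ, nsmul_eq_mul] at h1
  rw [← Nat.card_eq_fintype_card (α := G ⧸ Γ), ← Subgroup.index_eq_card] at h1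
  rw [← h4] at h1 ⊢
  push_cast at h1 ⊢
  unfold b1
  linarith

theorem kazhdan (Γ : ℕ → Subgroup G) [∀ i, (Γ i).Normal] [∀ i, (Γ i).FiniteIndex]
    (hanti : Antitone Γ) (hbot : ∀ g, (∀ i, g ∈ Γ i) → g = 1) (s : α → G)
    (hs : Subgroup.closure (Set.range s) = ⊤)
    (hfg : ∀ᶠ i in atTop, ∃ S : Finset (Γ i), Subgroup.closure (S : Set (Γ i)) = ⊤) {l : ℝ}
    (hl : Tendsto (fun i => ((b1 ℝ (Γ i) : ℝ) - 1) / (Γ i).index) atTop (𝓝 l)) :
    1 + l ≤ vnDim (grad s : Set (L2 (G × α) ℝ)) := by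
  have hZc : IsClosed (grad s : Set (L2 (G × α) ℝ)) := by
    rw [grad_eq s hs]
    exact Submodule.isClosed_orthogonal _
  have : CompleteSpace (grad s) := hZc.completeSpace_coe
  rw [vnDim_eq _ hZc, Sys.tr_proj]
  set p := fun a => ‖(grad s).starProjection ((realSys G).xi a)‖ with hp
  have h0 : Tendsto (fun ε : ℝ => ∑ a, (p a + ε) ^ 2) (𝓝[>] 0) (𝓝 (∑ a, p a ^ 2)) := by
    refine tendsto_nhdsWithin_of_tendsto_nhds ?_
    have : Continuous fun ε : ℝ => ∑ a, (p a + ε) ^ 2 := by fun_prop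
    simpa using this.tendsto 0
  refine ge_of_tendsto h0 (eventually_nhdsWithin_of_forall fun ε hε => ?_)
  have h1 : ∀ a, ∃ v : G × α →₀ ℝ, (∀ f x, pq (df s f) x v = df s f (x, a)) ∧
      ‖toL2 v‖ ≤ p a + ε := fun a => by
    have a1 := Submodule.sub_starProjection_mem_orthogonal (K := grad s) ((realSys G).xi a)
    have a2 : (grad s)ᗮ = ((cyc s).map toL2).topologicalClosure := by
      rw [grad_eq s hs, Submodule.orthogonal_orthogonal_eq_closure]
    rw [a2] at a1
    obtain ⟨_, ⟨c, hc, rfl⟩, a3⟩ := Metric.mem_closure_iff.1 a1 ε hε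
    refine ⟨Finsupp.single (1, a) 1 - c, fun f x => by rw [pq_sub, pq_single, hc f x]; simp, ?_⟩
    have a4 : toL2 (Finsupp.single (1, a) 1) = (realSys G).xi a := by
      rw [toL2_single]
      unfold Sys.xi
      congr
      exact Subsingleton.elim _ _
    rw [map_sub, a4]
    rw [dist_eq_norm, sub_right_comm] at a3
    exact (norm_le_norm_add_norm_sub' _ _).trans (add_le_add le_rfl a3.le)
  choose v hv hv' using h1
  have h2 : ∀ᶠ i in atTop, ∀ a, Set.InjOn (fun e : G × α => ((e.1 : G ⧸ Γ i), e.2))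
      (v a).support := by
    refine eventually_all.2 fun a => ?_
    have : ∀ᶠ i in atTop, ∀ e ∈ (v a).support ×ˢ (v a).support,
        e.1.1⁻¹ * e.2.1 ∈ Γ i → e.1.1 = e.2.1 := by
      refine (eventually_all_finset _).2 fun e _ => ?_
      by_cases h : e.1.1 = e.2.1
      · exact Eventually.of_forall fun _ _ => h
      · obtain ⟨i, hi⟩ := not_forall.1 (mt (hbot (e.1.1⁻¹ * e.2.1)) (by rwa [inv_mul_eq_one]))
        filter_upwards [eventually_ge_atTop i] with k hk h1 using absurd (hanti hk h1) hi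
    filter_upwards [this] with i hi x hx y hy h
    rw [Prod.mk.injEq, QuotientGroup.eq] at h
    exact Prod.ext (hi (x, y) (mem_product.2 ⟨hx, hy⟩) h.1) h.2
  refine le_of_tendsto (hl.const_add 1) ?_
  filter_upwards [h2, hfg] with i hi ⟨S, hS⟩
  have h3 := kaz_level (Γ i) s hs v hv hi S hS
  have hpos : (0 : ℝ) < (Γ i).index := by
    exact_mod_cast Nat.pos_of_ne_zero Subgroup.FiniteIndex.index_ne_zero
  refine le_trans ?_ (sum_le_sum fun a _ => pow_le_pow_left₀ (norm_nonneg _) (hv' a) 2)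
  rw [← le_sub_iff_add_le', div_le_iff₀ hpos]
  linarith

end Pool.Agent.Lib.MP_34a149_al
end
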