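import Mathlib
import Pool.Agent.Lib.MP_34a149_al.GabFin
import Pool.Agent.Lib.MP_34a149_al.Defs

-- part Pool.Agent.Lib.MP_34a149_al.Grid
section

/-!
Grid-based subsets of a bi-ordered group.
-/

set_option linter.unusedSectionVars false

namespace Pool.Agent.Lib.MP_34a149_al

variable {H : Type} [Group H] [LinearOrder H] [MulLeftStrictMono H] [MulRightStrictMono H]

lemma conj_pos {p : H} (hp : 1 < p) (c : H) : 1 < c * p * c⁻¹ := by
  have h1 : c * 1 < c * p := mul_lt_mul_right hp c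
  have h2 : c * 1 * c⁻¹ < c * p * c⁻¹ := mul_lt_mul_left h1 c⁻¹
  simpa using h2

lemma mul_le_mul_l {a b : H} (h : a ≤ b) (c : H) : c * a ≤ c * b := by
  rcases h.lt_or_eq with h | h
  · exact (mul_lt_mul_right h c).le
  · rw [h]

lemma mul_le_mul_r {a b : H} (h : a ≤ b) (c : H) : a * c ≤ b * c := by
  rcases h.lt_or_eq with h | h
  · exact (mul_lt_mul_left h c).le
  · rw [h]

lemma one_le_list_prod {l : List H} (h : ∀ x ∈ l, 1 < x) : 1 ≤ l.prod := by
  induction l with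
  | nil => simp
  | cons a l ih =>
    rw [List.prod_cons]
    have h1 := ih fun x hx => h x (List.mem_cons_of_mem _ hx)
    have h2 := h a List.mem_cons_self
    calc (1 : H) ≤ a := h2.le
      _ = a * 1 := (mul_one a).symm
      _ ≤ a * l.prod := mul_le_mul_l h1 a

lemma one_le_of_mem_closure {P : Set H} (hP : ∀ p ∈ P, 1 < p) {g : H}
    (hg : g ∈ Submonoid.closure P) : 1 ≤ g := by
  obtain ⟨l, h1, rfl⟩ := Submonoid.exists_list_of_mem_closure hg
  exact one_le_list_prod fun x hx => hP x (h1 x hx)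

lemma higman_antichain {P : Set H} (hP : P.Finite) {W : Set (List H)}
    (hW : ∀ w ∈ W, ∀ x ∈ w, x ∈ P) (ha : ∀ v ∈ W, ∀ w ∈ W, v.Sublist w → v = w) : W.Finite := by
  have h1 := Set.PartiallyWellOrderedOn.partiallyWellOrderedOn_sublistForall₂ (· = ·)
    (hP.partiallyWellOrderedOn (r := (· = ·)))
  refine IsAntichain.finite_of_partiallyWellOrderedOn (r := List.SublistForall₂ (· = ·)) ?_
    (h1.mono hW)
  intro v hv w hw hne h
  obtain ⟨l, h2, h3⟩ := List.sublistForall₂_iff.1 h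
  rw [List.forall₂_eq_eq_eq] at h2
  subst h2
  exact hne (ha _ hv _ hw h3)

lemma higman_basis {P : Set H} (hP : P.Finite) {W : Set (List H)}
    (hW : ∀ w ∈ W, ∀ x ∈ w, x ∈ P) :
    ∃ M : Set (List H), M.Finite ∧ M ⊆ W ∧ ∀ w ∈ W, ∃ v ∈ M, v.Sublist w := by
  refine ⟨{w | w ∈ W ∧ ∀ v ∈ W, v.Sublist w → v = w},
    higman_antichain hP (fun w hw => hW w hw.1) fun v hv w hw h => hw.2 v hv.1 h,
    fun w hw => hw.1, ?_⟩
  intro w
  induction h : w.length using Nat.strong_induction_on generalizing w with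
  | _ n ih =>
    intro hw
    by_cases h1 : ∀ v ∈ W, v.Sublist w → v = w
    · exact ⟨w, ⟨hw, h1⟩, List.Sublist.refl w⟩
    · push Not at h1
      obtain ⟨v, hv, h2, h3⟩ := h1
      have h4 : v.length < n := by
        rw [← h]
        exact lt_of_le_of_ne h2.length_le fun h5 => h3 (h2.eq_of_length h5)
      obtain ⟨u, hu, h5⟩ := ih _ h4 v rfl hv
      exact ⟨u, hu, h5.trans h2⟩

lemma sublist_prod {P : Set H} {v w : List H} (h : v.Sublist w) (hw : ∀ x ∈ w, x ∈ P) :
    ∃ l : List H, (∀ x ∈ l, ∃ p ∈ P, ∃ u, u <+: v ∧ x = u.prod * p * u.prod⁻¹) ∧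
      w.prod = l.prod * v.prod ∧ l.length + v.length = w.length := by
  induction h with
  | slnil => exact ⟨[], by simp, by simp, by simp⟩
  | cons a _ ih =>
    obtain ⟨l, h1, h2, h3⟩ := ih fun x hx => hw x (List.mem_cons_of_mem _ hx)
    refine ⟨a :: l, ?_, by simp [h2, mul_assoc], by simp; omega⟩
    intro x hx
    rcases List.mem_cons.1 hx with rfl | hx
    · exact ⟨x, hw x List.mem_cons_self, [], List.nil_prefix, by simp⟩
    · exact h1 x hx
  | cons_cons a _ ih =>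
    obtain ⟨l, h1, h2, h3⟩ := ih fun x hx => hw x (List.mem_cons_of_mem _ hx)
    refine ⟨l.map (MulAut.conj a), ?_, ?_, by simp; omega⟩
    · intro x hx
      obtain ⟨y, hy, rfl⟩ := List.mem_map.1 hx
      obtain ⟨p, hp, u, hu, rfl⟩ := h1 y hy
      exact ⟨p, hp, a :: u, (List.prefix_cons_inj a).2 hu, by simp [mul_assoc]⟩
    · rw [← map_list_prod]
      simp [h2, mul_assoc]

/-- A normal subgroup that is convex for the order. -/
def Cvx (N : Subgroup H) : Prop := N.Normal ∧ ∀ a b : H, 1 < a → 1 ≤ b → a * b ∈ N → a ∈ N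

lemma cvx_bot : Cvx (⊥ : Subgroup H) := by
  refine ⟨inferInstance, fun a b ha hb h => ?_⟩
  rw [Subgroup.mem_bot] at h
  have : a * 1 ≤ a * b := mul_le_mul_l hb a
  rw [h, mul_one] at this
  exact absurd ha this.not_gt

lemma finite_words {P : Set H} (hP : P.Finite) (hpos : ∀ p ∈ P, 1 < p) {N : Subgroup H}
    (hN : Cvx N) (hPN : ∀ p ∈ P, p ∉ N) (g : H) :
    {w : List H | (∀ x ∈ w, x ∈ P) ∧ w.prod * g⁻¹ ∈ N}.Finite := by
  refine higman_antichain hP (fun w hw => hw.1) ?_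
  rintro v ⟨-, hv⟩ w ⟨hw1, hw⟩ h
  obtain ⟨l, h1, h2, h3⟩ := sublist_prod h hw1
  cases l with
  | nil => exact h.eq_of_length (by simpa using h3)
  | cons a l =>
    exfalso
    have h4 : (a :: l).prod ∈ N := by
      have := N.mul_mem hw (N.inv_mem hv)
      rw [h2] at this
      simpa [mul_assoc] using this
    have h5 : ∀ x ∈ a :: l, 1 < x := by
      intro x hx
      obtain ⟨p, hp, u, -, rfl⟩ := h1 x hx
      exact conj_pos (hpos p hp) _
    have h6 := hN.2 a l.prod (h5 a List.mem_cons_self)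
      (one_le_list_prod fun x hx => h5 x (List.mem_cons_of_mem _ hx)) h4
    obtain ⟨p, hp, u, -, rfl⟩ := h1 a List.mem_cons_self
    have := hN.1.conj_mem _ h6 u.prod⁻¹
    exact hPN p hp (by simpa [mul_assoc] using this)

lemma isPWO_closure {P : Set H} (hP : P.Finite) (hpos : ∀ p ∈ P, 1 < p) :
    (Submonoid.closure P : Set H).IsPWO := by
  have h1 := Set.PartiallyWellOrderedOn.partiallyWellOrderedOn_sublistForall₂ (· = ·)
    (hP.partiallyWellOrderedOn (r := (· = ·)))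
  have h2 := h1.image_of_monotone_on (r' := (· ≤ ·)) (f := List.prod) (by
    intro v _ w hw h
    obtain ⟨l, h2, h3⟩ := List.sublistForall₂_iff.1 h
    rw [List.forall₂_eq_eq_eq] at h2
    subst h2
    obtain ⟨l, a1, a2, -⟩ := sublist_prod h3 hw
    rw [a2]
    have : 1 ≤ l.prod := one_le_list_prod fun x hx => by
      obtain ⟨p, hp, u, -, rfl⟩ := a1 x hx
      exact conj_pos (hpos p hp) _
    simpa using mul_le_mul_r this v.prod)
  refine Set.PartiallyWellOrderedOn.mono h2 fun g hg => ?_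
  obtain ⟨l, a1, a2⟩ := Submonoid.exists_list_of_mem_closure hg
  exact ⟨l, a1, a2⟩

/-- Grid-based sets: contained in `T * P^*` with `T`, `P` finite and `P` positive. -/
def Grid (A : Set H) : Prop :=
  ∃ T P : Set H, T.Finite ∧ P.Finite ∧ (∀ p ∈ P, 1 < p) ∧
    ∀ a ∈ A, ∃ t ∈ T, ∃ w ∈ Submonoid.closure P, a = t * w

lemma Grid.mono {A B : Set H} (hB : Grid B) (h : A ⊆ B) : Grid A := by
  obtain ⟨T, P, a1, a2, a3, a4⟩ := hB
  exact ⟨T, P, a1, a2, a3, fun a ha => a4 a (h ha)⟩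

lemma grid_of_finite {A : Set H} (hA : A.Finite) : Grid A :=
  ⟨A, ∅, hA, Set.finite_empty, by simp, fun a ha => ⟨a, ha, 1, one_mem _, by simp⟩⟩

lemma Grid.union {A B : Set H} (hA : Grid A) (hB : Grid B) : Grid (A ∪ B) := by
  obtain ⟨T, P, a1, a2, a3, a4⟩ := hA
  obtain ⟨T', P', b1, b2, b3, b4⟩ := hB
  refine ⟨T ∪ T', P ∪ P', a1.union b1, a2.union b2, ?_, ?_⟩
  · rintro p (hp | hp)
    · exact a3 p hp
    · exact b3 p hp
  · rintro a (ha | ha)
    · obtain ⟨t, ht, w, hw, rfl⟩ := a4 a ha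
      exact ⟨t, Or.inl ht, w, Submonoid.closure_mono Set.subset_union_left hw, rfl⟩
    · obtain ⟨t, ht, w, hw, rfl⟩ := b4 a ha
      exact ⟨t, Or.inr ht, w, Submonoid.closure_mono Set.subset_union_right hw, rfl⟩

lemma conj_mem_closure {P P' : Set H} {c w : H} (hw : w ∈ Submonoid.closure P)
    (h : ∀ p ∈ P, c * p * c⁻¹ ∈ P') : c * w * c⁻¹ ∈ Submonoid.closure P' := by
  induction hw using Submonoid.closure_induction with
  | mem x hx => exact Submonoid.subset_closure (h x hx)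
  | one => simp
  | mul x y _ _ hx hy =>
    have := mul_mem hx hy
    simpa [mul_assoc] using this

lemma Grid.mul {A B : Set H} (hA : Grid A) (hB : Grid B) :
    Grid {g | ∃ x ∈ A, x⁻¹ * g ∈ B} := by
  obtain ⟨T, P, a1, a2, a3, a4⟩ := hA
  obtain ⟨T', P', b1, b2, b3, b4⟩ := hB
  refine ⟨Set.image2 (· * ·) T T', Set.image2 (fun t p => t⁻¹ * p * t⁻¹⁻¹) T' P ∪ P',
    a1.image2 _ b1, (b1.image2 _ a2).union b2, ?_, ?_⟩
  · rintro p (⟨t, -, q, hq, rfl⟩ | hp)
    · exact conj_pos (a3 q hq) _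
    · exact b3 p hp
  · rintro g ⟨x, hx, hg⟩
    obtain ⟨t, ht, w, hw, rfl⟩ := a4 x hx
    obtain ⟨t', ht', w', hw', h⟩ := b4 _ hg
    refine ⟨t * t', ⟨t, ht, t', ht', rfl⟩, (t'⁻¹ * w * t'⁻¹⁻¹) * w', mul_mem
      (conj_mem_closure hw fun p hp => Or.inl ⟨t', ht', p, hp, rfl⟩)
      (Submonoid.closure_mono Set.subset_union_right hw'), ?_⟩
    rw [inv_mul_eq_iff_eq_mul] at h
    simp [h, mul_assoc]

lemma Grid.isPWO {A : Set H} (hA : Grid A) : A.IsPWO := by
  obtain ⟨T, P, a1, a2, a3, a4⟩ := hA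
  have h1 : (⋃ t ∈ a1.toFinset, (fun w => t * w) '' (Submonoid.closure P : Set H)).IsPWO :=
    (Finset.isPWO_bUnion _).2 fun t _ =>
      (isPWO_closure a2 a3).image_of_monotone fun _ _ h => mul_le_mul_l h t
  refine h1.mono fun a ha => ?_
  obtain ⟨t, ht, w, hw, rfl⟩ := a4 a ha
  simp only [Set.mem_iUnion]
  exact ⟨t, a1.mem_toFinset.2 ht, w, hw, rfl⟩

lemma Grid.finite_fac {A B : Set H} (hA : Grid A) (hB : Grid B) (g : H) :
    {x | x ∈ A ∧ x⁻¹ * g ∈ B}.Finite := by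
  have h1 : {p : H × H | p.1 ∈ A ∧ p.2 ∈ B ∧ p.1 * p.2 = g}.Finite := by
    refine IsAntichain.finite_of_partiallyWellOrderedOn (r := (· ≤ ·)) ?_
      ((hA.isPWO.prod hB.isPWO).mono fun p hp => ⟨hp.1, hp.2.1⟩)
    rintro ⟨x, y⟩ ⟨-, -, h1⟩ ⟨x', y'⟩ ⟨-, -, h2⟩ hne ⟨h3, h4⟩
    simp only at h1 h2 h3 h4
    rcases h3.lt_or_eq with h3 | h3
    · have := (mul_lt_mul_left h3 y).trans_le (mul_le_mul_l h4 x')
      rw [h1, h2] at this
      exact lt_irrefl _ this
    · subst h3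
      exact hne (by rw [mul_left_cancel (h1.trans h2.symm)])
  refine (h1.image Prod.fst).subset fun x hx => ⟨(x, x⁻¹ * g), ⟨hx.1, hx.2, by simp⟩, rfl⟩

/-- A grid-based set meets every coset of `N c` in a finite set, for all large `c`. -/
lemma Grid.finite_fibre {A : Set H} (hA : Grid A) {N : ℕ → Subgroup H} (hN : ∀ c, Cvx (N c))
    (hanti : Antitone N) (hbot : ∀ g, (∀ c, g ∈ N c) → g = 1) :
    ∃ c0, ∀ c, c0 ≤ c → ∀ g, {a | a ∈ A ∧ a * g⁻¹ ∈ N c}.Finite := by
  obtain ⟨T, P, a1, a2, a3, a4⟩ := hA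
  have h1 : ∀ p ∈ P, ∀ᶠ c in Filter.atTop, p ∉ N c := by
    intro p hp
    have : ∃ c, p ∉ N c := by
      by_contra h
      push Not at h
      exact (a3 p hp).ne' (hbot p h)
    obtain ⟨c, hc⟩ := this
    exact Filter.eventually_atTop.2 ⟨c, fun c' h h2 => hc (hanti h h2)⟩
  obtain ⟨c0, hc0⟩ := Filter.eventually_atTop.1 ((Filter.eventually_all_finite a2).2 h1)
  refine ⟨c0, fun c hc g => ?_⟩
  refine (a1.biUnion fun t _ => (finite_words a2 a3 (hN c) (hc0 c hc) (t⁻¹ * g)).image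
    fun w => t * w.prod).subset ?_
  rintro a ⟨ha, h2⟩
  obtain ⟨t, ht, w, hw, rfl⟩ := a4 a ha
  obtain ⟨l, b1, rfl⟩ := Submonoid.exists_list_of_mem_closure hw
  simp only [Set.mem_iUnion]
  refine ⟨t, ht, l, ⟨b1, ?_⟩, rfl⟩
  have := (hN c).1.conj_mem _ h2 t⁻¹
  simpa [mul_assoc] using this

/-- The part of a grid-based set above `m`, translated by `m⁻¹`, consists of products of
elements from a finite positive set. -/
lemma Grid.above {A : Set H} (hA : Grid A) (m : H) :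
    ∃ P : Set H, P.Finite ∧ (∀ p ∈ P, 1 < p) ∧
      ∀ g, m * g ∈ A → 1 < g → g ∈ Submonoid.closure P := by
  obtain ⟨T, P, a1, a2, a3, a4⟩ := hA
  have h1 : ∀ t : H, ∃ M : Set (List H), M.Finite ∧
      M ⊆ {w | (∀ x ∈ w, x ∈ P) ∧ m < t * w.prod} ∧
      ∀ w ∈ {w : List H | (∀ x ∈ w, x ∈ P) ∧ m < t * w.prod}, ∃ v ∈ M, v.Sublist w :=
    fun t => higman_basis a2 fun w hw => hw.1
  choose M hM1 hM2 hM3 using h1
  refine ⟨⋃ t ∈ T, ⋃ v ∈ M t, (insert (m⁻¹ * t * v.prod)
    (Set.image2 (fun (u : List H) p => (m⁻¹ * t) * (u.prod * p * u.prod⁻¹) * (m⁻¹ * t)⁻¹)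
      {u | u ∈ v.inits} P)), ?_, ?_, ?_⟩
  · exact a1.biUnion fun t _ => (hM1 t).biUnion fun v _ =>
      ((List.finite_toSet _).image2 _ a2).insert _
  · intro p hp
    simp only [Set.mem_iUnion] at hp
    obtain ⟨t, -, v, hv, rfl | ⟨u, -, q, hq, rfl⟩⟩ := hp
    · have := mul_lt_mul_right (hM2 t hv).2 m⁻¹
      simpa [mul_assoc] using this
    · exact conj_pos (conj_pos (a3 q hq) _) _
  · intro g hg h1
    obtain ⟨t, ht, w, hw, h2⟩ := a4 _ hg
    obtain ⟨w, b1, rfl⟩ := Submonoid.exists_list_of_mem_closure hw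
    obtain ⟨v, hv, h3⟩ := hM3 t w ⟨b1, by
      rw [← h2]
      simpa using mul_lt_mul_right h1 m⟩
    obtain ⟨l, c1, c2, -⟩ := sublist_prod h3 b1
    have e : g = ((m⁻¹ * t) * l.prod * (m⁻¹ * t)⁻¹) * (m⁻¹ * t * v.prod) := by
      rw [← inv_mul_cancel_left m g, h2, c2]
      simp [mul_assoc]
    rw [e]
    refine mul_mem (conj_mem_closure (P := {x | x ∈ l})
      (list_prod_mem fun x hx => Submonoid.subset_closure hx) fun x hx => ?_)
      (Submonoid.subset_closure ?_)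
    · obtain ⟨p, hp, u, hu, rfl⟩ := c1 x hx
      simp only [Set.mem_iUnion]
      exact ⟨t, ht, v, hv, Or.inr ⟨u, by simpa using hu, p, hp, rfl⟩⟩
    · simp only [Set.mem_iUnion]
      exact ⟨t, ht, v, hv, Or.inl rfl⟩

end Pool.Agent.Lib.MP_34a149_al
end

-- part Pool.Agent.Lib.MP_34a149_al.Series
section

/-!
The division ring of grid-based series over a bi-ordered group.
-/

set_option linter.unusedSectionVars false

namespace Pool.Agent.Lib.MP_34a149_al

open Function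

variable (F : Type) [Field F] (H : Type) [Group H] [LinearOrder H] [MulLeftStrictMono H]
  [MulRightStrictMono H]

def gridSub : Submodule F (H → F) where
  carrier := {f | Grid (support f)}
  add_mem' := fun {a b} ha hb => (Grid.union ha hb).mono (support_add a b)
  zero_mem' := grid_of_finite (by simp)
  smul_mem' := fun r a ha => Grid.mono ha (support_const_smul_subset r a)

/-- Grid-based series. -/
def Ser : Type := gridSub F H

noncomputable instance : AddCommGroup (Ser F H) := inferInstanceAs (AddCommGroup (gridSub F H))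

variable {F H}

def Ser.co (a : Ser F H) : H → F := Subtype.val a

lemma Ser.grid (a : Ser F H) : Grid (support a.co) := Subtype.property a

lemma Ser.ext {a b : Ser F H} (h : ∀ g, a.co g = b.co g) : a = b := Subtype.ext (funext h)

def Ser.mk (f : H → F) (hf : Grid (support f)) : Ser F H := Subtype.mk f hf

@[simp] lemma Ser.co_mk (f : H → F) (hf : Grid (support f)) : (Ser.mk f hf).co = f := rfl

@[simp] lemma Ser.co_add (a b : Ser F H) (g : H) : (a + b).co g = a.co g + b.co g := rfl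

@[simp] lemma Ser.co_sub (a b : Ser F H) (g : H) : (a - b).co g = a.co g - b.co g := rfl

@[simp] lemma Ser.co_zero (g : H) : (0 : Ser F H).co g = 0 := rfl

lemma Ser.co_sum {ι : Type} (S : Finset ι) (a : ι → Ser F H) (g : H) :
    (∑ i ∈ S, a i).co g = ∑ i ∈ S, (a i).co g := by
  classical
  induction S using Finset.induction_on with
  | empty => simp
  | insert i S hi ih => rw [Finset.sum_insert hi, Finset.sum_insert hi, Ser.co_add, ih]

noncomputable def conv (a b : H → F) (g : H) : F := ∑ᶠ x, a x * b (x⁻¹ * g)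

lemma conv_ne {a b : H → F} {g : H} (h : conv a b g ≠ 0) : ∃ x, a x ≠ 0 ∧ b (x⁻¹ * g) ≠ 0 := by
  by_contra h1
  push Not at h1
  apply h
  refine finsum_eq_zero_of_forall_eq_zero fun x => ?_
  by_cases h2 : a x = 0
  · simp [h2]
  · simp [h1 x h2]

lemma conv_finite {a b : H → F} (ha : Grid (support a)) (hb : Grid (support b)) (g : H) :
    (support fun x => a x * b (x⁻¹ * g)).Finite :=
  (ha.finite_fac hb g).subset fun _ hx => ⟨left_ne_zero_of_mul hx, right_ne_zero_of_mul hx⟩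

lemma grid_conv {a b : H → F} (ha : Grid (support a)) (hb : Grid (support b)) :
    Grid (support (conv a b)) :=
  (ha.mul hb).mono fun _ hg => conv_ne hg

noncomputable instance : Mul (Ser F H) :=
  ⟨fun a b => Ser.mk (conv a.co b.co) (grid_conv a.grid b.grid)⟩

lemma Ser.co_mul (a b : Ser F H) (g : H) : (a * b).co g = ∑ᶠ x, a.co x * b.co (x⁻¹ * g) := rfl

open Classical in
/-- The monomial `r * h`. -/
noncomputable def Ser.mono (h : H) (r : F) : Ser F H :=
  Ser.mk (fun g => if g = h then r else 0) (grid_of_finite ((Set.finite_singleton h).subset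
    fun g hg => by
      by_contra h1
      exact hg (if_neg h1)))

open Classical in
lemma Ser.co_mono (h : H) (r : F) (g : H) : (Ser.mono h r).co g = if g = h then r else 0 := rfl

lemma Ser.mono_mul (h : H) (r : F) (b : Ser F H) (g : H) :
    (Ser.mono h r * b).co g = r * b.co (h⁻¹ * g) := by
  rw [Ser.co_mul, finsum_eq_single _ h]
  · simp [Ser.co_mono]
  · intro x hx
    simp [Ser.co_mono, hx]

lemma Ser.mul_mono (h : H) (r : F) (b : Ser F H) (g : H) :
    (b * Ser.mono h r).co g = b.co (g * h⁻¹) * r := by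
  rw [Ser.co_mul, finsum_eq_single _ (g * h⁻¹)]
  · simp [Ser.co_mono]
  · intro x hx
    rw [Ser.co_mono, if_neg, mul_zero]
    intro h1
    apply hx
    rw [← h1]
    simp

noncomputable instance : One (Ser F H) := ⟨Ser.mono 1 1⟩

lemma Ser.one_def : (1 : Ser F H) = Ser.mono 1 1 := rfl

lemma Ser.mul_assoc' (a b c : Ser F H) : a * b * c = a * (b * c) := by
  refine Ser.ext fun g => ?_
  have hfin : (support fun p : H × H => a.co p.1 * b.co (p.1⁻¹ * p.2) * c.co (p.2⁻¹ * g)).Finite := by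
    have h1 := (a.grid.mul b.grid).finite_fac c.grid g
    refine (h1.biUnion fun y _ => (a.grid.finite_fac b.grid y).image fun x => (x, y)).subset ?_
    rintro ⟨x, y⟩ hp
    have h2 := left_ne_zero_of_mul hp
    simp only [Set.mem_iUnion]
    exact ⟨y, ⟨⟨x, left_ne_zero_of_mul h2, right_ne_zero_of_mul h2⟩, right_ne_zero_of_mul hp⟩,
      x, ⟨left_ne_zero_of_mul h2, right_ne_zero_of_mul h2⟩, rfl⟩
  have e1 := finsum_curry _ hfin
  have e2 := finsum_curry (fun p : H × H =>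
    a.co p.2 * b.co (p.2⁻¹ * p.1) * c.co (p.1⁻¹ * g)) (by
      refine (hfin.image Prod.swap).subset fun p hp => ⟨p.swap, hp, rfl⟩)
  have e3 := finsum_comp_equiv (Equiv.prodComm H H)
    (f := fun p : H × H => a.co p.1 * b.co (p.1⁻¹ * p.2) * c.co (p.2⁻¹ * g))
  simp only [Equiv.prodComm_apply, Prod.fst_swap, Prod.snd_swap] at e1 e2 e3
  simp only [Ser.co_mul, finsum_mul, mul_finsum]
  rw [← e2, e3, e1]
  refine finsum_congr fun x => ?_
  rw [← finsum_comp_equiv (Equiv.mulLeft x)]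
  refine finsum_congr fun z => ?_
  simp [mul_assoc]

noncomputable instance : Ring (Ser F H) :=
  { (inferInstance : AddCommGroup (Ser F H)) with
    mul_assoc := Ser.mul_assoc'
    one_mul := fun a => Ser.ext fun g => by rw [Ser.one_def, Ser.mono_mul]; simp
    mul_one := fun a => Ser.ext fun g => by rw [Ser.one_def, Ser.mul_mono]; simp
    zero_mul := fun a => Ser.ext fun g => by simp [Ser.co_mul]
    mul_zero := fun a => Ser.ext fun g => by simp [Ser.co_mul]
    left_distrib := fun a b c => Ser.ext fun g => by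
      simp only [Ser.co_mul, Ser.co_add, mul_add]
      exact finsum_add_distrib (conv_finite a.grid b.grid g) (conv_finite a.grid c.grid g)
    right_distrib := fun a b c => Ser.ext fun g => by
      simp only [Ser.co_mul, Ser.co_add, add_mul]
      exact finsum_add_distrib (conv_finite a.grid c.grid g) (conv_finite b.grid c.grid g) }

instance : Nontrivial (Ser F H) :=
  ⟨⟨1, 0, fun h => by
    have := congrArg (fun a : Ser F H => a.co 1) h
    simp [Ser.one_def, Ser.co_mono] at this⟩⟩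

lemma Ser.exists_geom {P : Set H} (hP : P.Finite) (hpos : ∀ p ∈ P, 1 < p) (u : Ser F H)
    (hu : ∀ g, u.co g ≠ 0 → 1 < g ∧ g ∈ Submonoid.closure P) : ∃ v : Ser F H, (1 - u) * v = 1 := by
  classical
  have wf : WellFounded fun a b : H => a < b ∧ a ∈ (Submonoid.closure P : Set H) ∧
      b ∈ (Submonoid.closure P : Set H) :=
    Set.wellFoundedOn_iff.1 (isPWO_closure hP hpos).isWF
  let v : H → F := wf.fix fun g rec => (if g = 1 then 1 else 0) +
    ∑ᶠ x, if h : x⁻¹ * g < g ∧ x⁻¹ * g ∈ (Submonoid.closure P : Set H) ∧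
      g ∈ (Submonoid.closure P : Set H) then u.co x * rec (x⁻¹ * g) h else 0
  have hv : ∀ g, v g = (if g = 1 then 1 else 0) +
      ∑ᶠ x, if x⁻¹ * g < g ∧ x⁻¹ * g ∈ (Submonoid.closure P : Set H) ∧
        g ∈ (Submonoid.closure P : Set H) then u.co x * v (x⁻¹ * g) else 0 := by
    intro g
    have := wf.fix_eq (C := fun _ => F) (fun g rec => (if g = 1 then 1 else 0) +
      ∑ᶠ x, if h : x⁻¹ * g < g ∧ x⁻¹ * g ∈ (Submonoid.closure P : Set H) ∧
        g ∈ (Submonoid.closure P : Set H) then u.co x * rec (x⁻¹ * g) h else 0) g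
    simpa only [dite_eq_ite] using this
  have hs : ∀ g, v g ≠ 0 → g ∈ Submonoid.closure P := by
    intro g hg
    by_contra h1
    apply hg
    have h2 : g ≠ 1 := by rintro rfl; exact h1 (one_mem _)
    rw [hv, if_neg h2, zero_add]
    exact finsum_eq_zero_of_forall_eq_zero fun x => if_neg fun h3 => h1 h3.2.2
  have hg : Grid (support v) :=
    ⟨{1}, P, Set.finite_singleton _, hP, hpos, fun g hg => ⟨1, rfl, g, hs g hg, by simp⟩⟩
  refine ⟨Ser.mk v hg, ?_⟩
  rw [sub_mul, one_mul]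
  refine Ser.ext fun g => ?_
  rw [Ser.co_sub, Ser.co_mul, Ser.co_mk, hv g, Ser.one_def, Ser.co_mono, add_sub_assoc]
  rw [finsum_congr (g := fun x => u.co x * v (x⁻¹ * g)), sub_self, add_zero]
  intro x
  split_ifs with h
  · rfl
  · by_contra h1
    have h2 := hu x (left_ne_zero_of_mul (Ne.symm h1))
    have h3 := hs _ (right_ne_zero_of_mul (Ne.symm h1))
    apply h
    refine ⟨?_, h3, ?_⟩
    · simpa using mul_lt_mul_left h2.1 (x⁻¹ * g)
    · simpa using mul_mem h2.2 h3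

lemma Ser.exists_right_inv (a : Ser F H) (ha : a ≠ 0) : ∃ b : Ser F H, a * b = 1 := by
  classical
  have hne : (support a.co).Nonempty := by
    by_contra h
    apply ha
    refine Ser.ext fun g => ?_
    by_contra h1
    exact h ⟨g, h1⟩
  have hwf := a.grid.isPWO.isWF
  set m := hwf.min hne with hm
  have h0 : a.co m ≠ 0 := hwf.min_mem hne
  obtain ⟨P, p1, p2, p3⟩ := a.grid.above m
  obtain ⟨v, hv⟩ := Ser.exists_geom p1 p2 (1 - Ser.mono m⁻¹ (a.co m)⁻¹ * a) (by
    intro g hg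
    rw [Ser.co_sub, Ser.mono_mul, Ser.one_def, Ser.co_mono, inv_inv] at hg
    have h1 : g ≠ 1 := by
      rintro rfl
      simp [h0] at hg
    rw [if_neg h1, zero_sub, neg_ne_zero] at hg
    have h2 : m * g ∈ support a.co := right_ne_zero_of_mul hg
    have h3 : 1 < g := by
      have h4 := mul_le_mul_l (hwf.min_le hne h2) m⁻¹
      rw [← hm, inv_mul_cancel, inv_mul_cancel_left] at h4
      exact lt_of_le_of_ne h4 h1.symm
    exact ⟨h3, p3 g h2 h3⟩)
  rw [sub_sub_cancel] at hv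
  have e1 : Ser.mono m (a.co m) * Ser.mono m⁻¹ (a.co m)⁻¹ = (1 : Ser F H) := by
    refine Ser.ext fun g => ?_
    rw [Ser.mono_mul, Ser.co_mono, Ser.one_def, Ser.co_mono]
    by_cases h : g = 1 <;> simp [h, h0]
  refine ⟨v * Ser.mono m⁻¹ (a.co m)⁻¹, ?_⟩
  calc a * (v * Ser.mono m⁻¹ (a.co m)⁻¹)
      = Ser.mono m (a.co m) * (Ser.mono m⁻¹ (a.co m)⁻¹ * a * v) * Ser.mono m⁻¹ (a.co m)⁻¹ := by
        rw [← mul_assoc (Ser.mono m (a.co m)), ← mul_assoc (Ser.mono m (a.co m)), e1, one_mul,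
          mul_assoc]
    _ = 1 := by rw [hv, mul_one, e1]

noncomputable instance : DivisionRing (Ser F H) :=
  DivisionRing.ofIsUnitOrEqZero fun a => by
    by_cases ha : a = 0
    · exact Or.inr ha
    · left
      obtain ⟨b, hb⟩ := a.exists_right_inv ha
      have hb0 : b ≠ 0 := by
        rintro rfl
        simp at hb
      obtain ⟨c, hc⟩ := b.exists_right_inv hb0
      have : a = c := by rw [← mul_one a, ← hc, ← mul_assoc, hb, one_mul]
      exact ⟨⟨a, b, hb, by rw [this, hc]⟩, rfl⟩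

end Pool.Agent.Lib.MP_34a149_al
end

-- part Pool.Agent.Lib.MP_34a149_al.Core
section

/-!
Linear algebra over the series ring and truncation of series to finite unions of cosets.
-/

set_option linter.unusedSectionVars false

namespace Pool.Agent.Lib.MP_34a149_al

open Finset Function

lemma exists_basis_ext {K J ι : Type} [DivisionRing K] [Fintype ι]
    (v : J → ι → K) (Z : Set J) :
    ∃ (ι0 : Finset ι) (zs : Finset J), (zs : Set J) ⊆ Z ∧ zs.card + ι0.card = Fintype.card ι ∧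
      ∀ y : J, ∃ b : J → K, ∀ i, (y ∈ Z ∨ i ∉ ι0) → v y i = ∑ z ∈ zs, b z * v z i := by
  classical
  let w : J ⊕ ι → ι → K := Sum.elim v fun i => Pi.single i 1
  obtain ⟨b1, a1, -, a3, a4⟩ := exists_linearIndepOn_extension (K := K) (v := w) (s := ∅)
    (t := Sum.inl '' Z) (linearIndepOn_empty K w) (Set.empty_subset _)
  obtain ⟨b2, c1, c2, c3, c4⟩ := exists_linearIndepOn_extension (K := K) (v := w) (s := b1)
    (t := b1 ∪ Set.range Sum.inr) a4 Set.subset_union_left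
  have hfin : b2.Finite := c4.linearIndependent.finite_of_isNoetherian
  obtain ⟨B, rfl⟩ := hfin.exists_finset_coe
  have htop : Submodule.span K (w '' (B : Set (J ⊕ ι))) = ⊤ := by
    rw [eq_top_iff, ← (Pi.basisFun K ι).span_eq, Submodule.span_le]
    rintro _ ⟨i, rfl⟩
    apply c3
    exact ⟨Sum.inr i, Or.inr ⟨i, rfl⟩, by simp [w]⟩
  have hb1 : b1 = Sum.inl '' (B.toLeft : Set J) := by
    ext j
    constructor
    · intro hj
      obtain ⟨z, -, rfl⟩ := a1 hj
      exact ⟨z, by simpa using c2 hj, rfl⟩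
    · rintro ⟨z, hz, rfl⟩
      rcases c1 (show Sum.inl z ∈ (B : Set (J ⊕ ι)) by simpa using hz) with h | ⟨i, h⟩
      · exact h
      · exact absurd h (by simp)
  refine ⟨B.toRight, B.toLeft, fun z hz => ?_, ?_, fun y => ?_⟩
  · obtain ⟨z', h1, h2⟩ := a1 (hb1 ▸ Set.mem_image_of_mem Sum.inl hz)
    rwa [← Sum.inl.inj h2]
  · have := finrank_span_eq_card c4.linearIndependent
    rw [← Set.image_eq_range, htop, finrank_top, Module.finrank_fintype_fun_eq_card] at this
    rw [card_toLeft_add_card_toRight, this]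
    simp
  · by_cases hy : y ∈ Z
    · have h1 := a3 ⟨Sum.inl y, ⟨y, hy, rfl⟩, rfl⟩
      rw [hb1, Set.image_image] at h1
      obtain ⟨c, hc⟩ := (Submodule.mem_span_image_finset_iff_exists_fun' K).1 h1
      refine ⟨c, fun i _ => ?_⟩
      have := congrFun hc i
      simpa [w, Finset.sum_apply] using this.symm
    · have h1 : v y ∈ Submodule.span K (w '' (B : Set (J ⊕ ι))) := by rw [htop]; trivial
      obtain ⟨c, hc⟩ := (Submodule.mem_span_image_finset_iff_exists_fun' K).1 h1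
      refine ⟨fun z => c (Sum.inl z), fun i hi => ?_⟩
      have hi' := hi.resolve_left hy
      have := congrFun hc i
      rw [sum_sum_eq_sum_toLeft_add_sum_toRight, Pi.add_apply, Finset.sum_apply,
        Finset.sum_apply, sum_eq_zero (s := B.toRight) (by
          intro j hj
          have : i ≠ j := by rintro rfl; exact hi' hj
          simp [w, this]), add_zero] at this
      simpa [w] using this.symm

variable {F : Type} [Field F] {H : Type} [Group H] {ι : Type}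

/-- Pairing of an edge function with the translate by `x` of a chain. -/
noncomputable def pr (ω : ι × H → F) (x : H) (c : ι × H →₀ F) : F :=
  c.sum fun e r => r * ω (e.1, x * e.2)

lemma pr_eq_sum (ω : ι × H → F) (x : H) (c : ι × H →₀ F) {S : Finset (ι × H)}
    (hS : ∀ e ∈ c.support, (e.1, x * e.2) ∈ S) :
    pr ω x c = ∑ e ∈ S, c (e.1, x⁻¹ * e.2) * ω e := by
  classical
  unfold pr Finsupp.sum
  symm
  rw [← sum_subset (s₁ := c.support.image fun e => (e.1, x * e.2)) (by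
    intro e he
    obtain ⟨e', h1, rfl⟩ := mem_image.1 he
    exact hS e' h1) (by
    intro e _ he
    rw [mul_eq_zero_of_left]
    by_contra h
    exact he (mem_image.2 ⟨(e.1, x⁻¹ * e.2), Finsupp.mem_support_iff.2 h, by simp⟩)),
    sum_image (by
      rintro ⟨i, h⟩ _ ⟨j, g⟩ _ he
      simpa using he)]
  simp

variable [LinearOrder H] [MulLeftStrictMono H] [MulRightStrictMono H]

noncomputable def vec (c : ι × H →₀ F) (i : ι) : Ser F H :=
  Ser.mk (fun h => c (i, h)) (grid_of_finite ((c.support.finite_toSet.image Prod.snd).subset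
    fun h hh => ⟨(i, h), Finsupp.mem_support_iff.2 hh, rfl⟩))

lemma mul_vec (b : Ser F H) (c : ι × H →₀ F) (i : ι) (p : H) {K : Finset H}
    (hK : ∀ e ∈ c.support, e.2 ∈ K) :
    (b * vec c i).co p = ∑ k ∈ K, b.co (p * k⁻¹) * c (i, k) := by
  rw [Ser.co_mul, ← finsum_comp_equiv ((Equiv.inv H).trans (Equiv.mulLeft p)),
    finsum_eq_sum_of_support_subset (s := K)]
  · refine sum_congr rfl fun k _ => ?_
    simp [vec]
  · intro k hk
    have := right_ne_zero_of_mul hk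
    simp only [vec, Ser.co_mk, Equiv.trans_apply, Equiv.inv_apply, Equiv.coe_mulLeft, mul_inv_rev,
      inv_inv, inv_mul_cancel_right] at this
    exact hK (i, k) (Finsupp.mem_support_iff.2 this)

theorem core [Fintype ι] {N : ℕ → Subgroup H} (hN : ∀ c, Cvx (N c)) (hanti : Antitone N)
    (hbot : ∀ g, (∀ c, g ∈ N c) → g = 1) (Z : Set (ι × H →₀ F)) :
    ∃ (ι0 : Finset ι) (zs : Finset (ι × H →₀ F)) (K : Finset H), (zs : Set _) ⊆ Z ∧
      zs.card + ι0.card = Fintype.card ι ∧ ∀ y : ι × H →₀ F, ∃ c0, ∀ c, c0 ≤ c →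
      ∀ (x : H) (U : Set H) (U0 : Finset H), (∀ h ∈ U, ∃ u ∈ U0, h * u⁻¹ ∈ N c) →
      (∀ e ∈ y.support, ∀ k ∈ K, x * e.2 * k⁻¹ ∈ U) →
      ∀ ω : ι × H → F, (∀ z ∈ zs, ∀ h, pr ω h z = 0) →
      (∀ e : ι × H, (∃ k ∈ K, e.2 * k⁻¹ ∈ U) → (∃ k ∈ K, e.2 * k⁻¹ ∉ U) → ω e = 0) →
      (y ∈ Z ∨ ∀ e : ι × H, e.1 ∈ ι0 → ω e = 0) → pr ω x y = 0 := by
  classical
  obtain ⟨ι0, zs, h1, h2, h3⟩ := exists_basis_ext (K := Ser F H) vec Z
  set K : Finset H := zs.biUnion fun z => z.support.image Prod.snd with hKdef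
  have hK : ∀ z ∈ zs, ∀ e ∈ z.support, e.2 ∈ K := fun z hz e he =>
    mem_biUnion.2 ⟨z, hz, mem_image_of_mem _ he⟩
  refine ⟨ι0, zs, K, h1, h2, fun y => ?_⟩
  obtain ⟨b, hb⟩ := h3 y
  have hf : ∀ z ∈ (zs : Set (ι × H →₀ F)), ∀ᶠ c in Filter.atTop,
      ∀ g, {a | a ∈ support (b z).co ∧ a * g⁻¹ ∈ N c}.Finite := fun z _ =>
    Filter.eventually_atTop.2 ((b z).grid.finite_fibre hN hanti hbot)
  obtain ⟨c0, hc0⟩ := Filter.eventually_atTop.1
    ((Filter.eventually_all_finite zs.finite_toSet).2 hf)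
  refine ⟨c0, fun c hc x U U0 hU hy ω hz hbd hZ => ?_⟩
  have hfin : {h | h ∈ U ∧ ∃ z ∈ zs, (b z).co (x⁻¹ * h) ≠ 0}.Finite := by
    refine (U0.finite_toSet.biUnion fun u _ => zs.finite_toSet.biUnion fun z hz =>
      (hc0 c hc z hz (x⁻¹ * u)).image fun a => x * a).subset ?_
    rintro h ⟨a1, z, a2, a3⟩
    obtain ⟨u, a4, a5⟩ := hU h a1
    simp only [Set.mem_iUnion]
    refine ⟨u, a4, z, a2, x⁻¹ * h, ⟨a3, ?_⟩, by simp⟩
    have := (hN c).1.conj_mem _ a5 x⁻¹
    simpa [mul_assoc] using this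
  obtain ⟨S, hS⟩ := hfin.exists_finset_coe
  have hS' : ∀ h, h ∈ S ↔ h ∈ U ∧ ∃ z ∈ zs, (b z).co (x⁻¹ * h) ≠ 0 := fun h => by
    rw [← mem_coe, hS]; rfl
  set E : Finset (ι × H) := (y.support.image fun e => (e.1, x * e.2)) ∪
    (univ ×ˢ image₂ (· * ·) S K) with hE
  have e1 : pr ω x y = ∑ e ∈ E, y (e.1, x⁻¹ * e.2) * ω e :=
    pr_eq_sum ω x y fun e he => mem_union_left _ (mem_image_of_mem _ he)
  have e2 : ∑ e ∈ E, (∑ z ∈ zs, ∑ h ∈ S, (b z).co (x⁻¹ * h) * z (e.1, h⁻¹ * e.2)) * ω e = 0 := by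
    simp only [sum_mul]
    rw [sum_comm]
    refine sum_eq_zero fun z hzs => ?_
    rw [sum_comm]
    refine sum_eq_zero fun h hh => ?_
    have := hz z hzs h
    rw [pr_eq_sum ω h z (S := E) fun e he => mem_union_right _
      (mem_product.2 ⟨mem_univ _, mem_image₂_of_mem hh (hK z hzs e he)⟩)] at this
    simp only [mul_assoc]
    rw [← mul_sum, this, mul_zero]
  rw [e1, ← e2]
  refine sum_congr rfl ?_
  rintro ⟨i, p⟩ -
  by_cases hω : ω (i, p) = 0
  · simp [hω]
  congr 1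
  have hi : y ∈ Z ∨ i ∉ ι0 := hZ.imp_right fun h h1 => hω (h (i, p) h1)
  have e3 : y (i, x⁻¹ * p) = ∑ z ∈ zs, ∑ k ∈ K, (b z).co (x⁻¹ * (p * k⁻¹)) * z (i, k) := by
    have := congrArg (fun a : Ser F H => a.co (x⁻¹ * p)) (hb i hi)
    simp only [Ser.co_sum] at this
    rw [sum_congr rfl fun z hz => mul_vec (b z) z i _ (hK z hz)] at this
    simpa [vec, mul_assoc] using this
  have e4 : ∀ z ∈ zs, ∑ h ∈ S, (b z).co (x⁻¹ * h) * z (i, h⁻¹ * p) =
      ∑ k ∈ K, if p * k⁻¹ ∈ U then (b z).co (x⁻¹ * (p * k⁻¹)) * z (i, k) else 0 := by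
    intro z hzs
    rw [← sum_filter]
    refine sum_bij_ne_zero (fun h _ _ => h⁻¹ * p) ?_ ?_ ?_ ?_
    · intro h hh h0
      rw [mem_filter]
      exact ⟨hK z hzs (i, h⁻¹ * p) (Finsupp.mem_support_iff.2 (right_ne_zero_of_mul h0)),
        by simpa using ((hS' h).1 hh).1⟩
    · intro h _ _ h' _ _ he
      simpa using he
    · intro k hk h0
      rw [mem_filter] at hk
      exact ⟨p * k⁻¹, (hS' _).2 ⟨hk.2, z, hzs, left_ne_zero_of_mul h0⟩, by simpa using h0, by simp⟩
    · intro h _ _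
      simp
  simp only
  rw [sum_congr rfl e4]
  by_cases hall : ∀ k ∈ K, p * k⁻¹ ∈ U
  · rw [e3]
    exact sum_congr rfl fun z _ => sum_congr rfl fun k hk => (if_pos (hall k hk)).symm
  · push Not at hall
    have hnone : ∀ k ∈ K, p * k⁻¹ ∉ U := fun k hk h => hω (hbd (i, p) ⟨k, hk, h⟩ hall)
    rw [sum_eq_zero fun z _ => sum_eq_zero fun k hk => if_neg (hnone k hk)]
    by_contra h0
    obtain ⟨k, hk, h⟩ := hall
    have := hy (i, x⁻¹ * p) (Finsupp.mem_support_iff.2 h0) k hk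
    exact h (by simpa using this)

end Pool.Agent.Lib.MP_34a149_al
end

-- part Pool.Agent.Lib.MP_34a149_al.Fox
section

/-!
Integration of edge functions along words in a Cayley graph.
-/

namespace Pool.Agent.Lib.MP_34a149_al

open Finset

variable {F : Type} [Field F] {G α : Type} [Group G]

/-- `I w g` is the integral of `ω` along the path with label `w` starting at `g`. -/
def IsInt (φ : FreeGroup α →* G) (ω : G × α → F) (I : FreeGroup α → G → F) : Prop :=
  (∀ a g, I (FreeGroup.of a) g = ω (g, a)) ∧ ∀ w w' g, I (w * w') g = I w g + I w' (g * φ w)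

lemma IsInt.one {φ : FreeGroup α →* G} {ω : G × α → F} {I : FreeGroup α → G → F}
    (h : IsInt φ ω I) (g : G) : I 1 g = 0 := by
  have := h.2 1 1 g
  simpa using this

lemma IsInt.inv {φ : FreeGroup α →* G} {ω : G × α → F} {I : FreeGroup α → G → F}
    (h : IsInt φ ω I) (w : FreeGroup α) (g : G) : I w⁻¹ g = - I w (g * (φ w)⁻¹) := by
  have := h.2 w⁻¹ w g
  rw [inv_mul_cancel, h.one, map_inv] at this
  exact eq_neg_of_add_eq_zero_left this.symm

lemma exists_int (φ : FreeGroup α →* G) (ω : G × α → F) : ∃ I, IsInt φ ω I := by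
  let A : α → Equiv.Perm (G → F) := fun a =>
    { toFun := fun u g => ω (g, a) + u (g * φ (FreeGroup.of a))
      invFun := fun u g => u (g * (φ (FreeGroup.of a))⁻¹) - ω (g * (φ (FreeGroup.of a))⁻¹, a)
      left_inv := fun u => by
        funext g
        simp
      right_inv := fun u => by
        funext g
        simp }
  have key : ∀ w u g, FreeGroup.lift A w u g = FreeGroup.lift A w 0 g + u (g * φ w) := by
    intro w
    induction w using FreeGroup.induction_on with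
    | C1 => simp
    | of a => simp [A]
    | inv_of a _ =>
      intro u g
      rw [map_inv, FreeGroup.lift_apply_of]
      simp [A, Equiv.Perm.inv_def]
      ring
    | mul v w hv hw =>
      intro u g
      rw [map_mul, Equiv.Perm.mul_apply, Equiv.Perm.mul_apply, hv, hv (FreeGroup.lift A w 0), hw]
      simp [add_assoc, mul_assoc]
  refine ⟨fun w => FreeGroup.lift A w 0, fun a g => by simp [A], fun w w' g => ?_⟩
  simp only [map_mul, Equiv.Perm.mul_apply]
  exact key _ _ _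

lemma pr_add {H ι : Type} [Group H] (ω : ι × H → F) (x : H) (c d : ι × H →₀ F) :
    pr ω x (c + d) = pr ω x c + pr ω x d :=
  Finsupp.sum_add_index' (by simp) (by simp [add_mul])

lemma pr_neg {H ι : Type} [Group H] (ω : ι × H → F) (x : H) (c : ι × H →₀ F) :
    pr ω x (-c) = - pr ω x c := by
  have := pr_add ω x (-c) c
  rw [neg_add_cancel] at this
  exact eq_neg_of_add_eq_zero_left (this.symm.trans (by simp [pr]))

lemma pr_single {H ι : Type} [Group H] (ω : ι × H → F) (x : H) (e : ι × H) :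
    pr ω x (Finsupp.single e 1) = ω (e.1, x * e.2) := by
  simp [pr]

/-- `pr` as a linear functional of the edge function. -/
noncomputable def prL {H ι : Type} [Group H] (x : H) (c : ι × H →₀ F) : (ι × H → F) →ₗ[F] F where
  toFun ω := pr ω x c
  map_add' a b := by simp [pr, mul_add, Finsupp.sum, sum_add_distrib]
  map_smul' r a := by simp [pr, Finsupp.sum, mul_sum, mul_left_comm]

lemma exists_chain {ι : Type} {H : Subgroup G} (φ : FreeGroup α →* G) (Θ : G × α → ι × H)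
    (hΘ : ∀ (x : H) g a, Θ (x * g, a) = ((Θ (g, a)).1, x * (Θ (g, a)).2)) (w : FreeGroup α) :
    ∀ g : G, ∃ c : ι × H →₀ F, ∀ (ω : ι × H → F) (I : FreeGroup α → G → F),
      IsInt φ (ω ∘ Θ) I → ∀ x : H, I w (x * g) = pr ω x c := by
  induction w using FreeGroup.induction_on with
  | C1 => exact fun g => ⟨0, fun ω I hI x => by simp [hI.one, pr]⟩
  | of a => exact fun g => ⟨Finsupp.single (Θ (g, a)) 1, fun ω I hI x => by
      rw [hI.1, pr_single, Function.comp_apply, hΘ]⟩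
  | inv_of a h =>
    intro g
    obtain ⟨c, hc⟩ := h (g * (φ (FreeGroup.of a))⁻¹)
    exact ⟨-c, fun ω I hI x => by rw [hI.inv, pr_neg, mul_assoc, hc ω I hI]⟩
  | mul v w hv hw =>
    intro g
    obtain ⟨c, hc⟩ := hv g
    obtain ⟨d, hd⟩ := hw (g * φ v)
    exact ⟨c + d, fun ω I hI x => by rw [hI.2, pr_add, mul_assoc, hc ω I hI, hd ω I hI]⟩

lemma IsInt.ker {φ : FreeGroup α →* G} {ω : G × α → F} {I : FreeGroup α → G → F}
    (h : IsInt φ ω I) {S : Set (FreeGroup α)} (hS : Subgroup.normalClosure S = φ.ker)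
    (h0 : ∀ w ∈ S, ∀ g, I w g = 0) : ∀ w ∈ φ.ker, ∀ g, I w g = 0 := by
  let L : Subgroup (FreeGroup α) :=
    { carrier := {w | φ w = 1 ∧ ∀ g, I w g = 0}
      mul_mem' := fun {v w} hv hw => ⟨by simp [hv.1, hw.1], fun g => by
        rw [h.2, hv.2, hw.2, add_zero]⟩
      one_mem' := ⟨map_one _, h.one⟩
      inv_mem' := fun {v} hv => ⟨by simp [hv.1], fun g => by rw [h.inv, hv.2, neg_zero]⟩ }
  have : L.Normal := ⟨fun w hw v => ⟨by simp [hw.1], fun g => by
    rw [h.2, h.2, hw.2, h.inv, map_mul, hw.1]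
    simp⟩⟩
  have h1 : Subgroup.normalClosure S ≤ L := Subgroup.normalClosure_le_normal fun w hw =>
    ⟨by
      have := Subgroup.subset_normalClosure hw
      rwa [hS] at this, h0 w hw⟩
  intro w hw
  rw [← hS] at hw
  exact (h1 hw).2

theorem fox (F : Type) [Field F] [hG : Group.IsFinitelyPresented G] (H : Subgroup G) [H.Normal]
    [H.FiniteIndex] :
    ∃ (α : Type) (s : α → G) (ι : Type) (_ : Fintype ι) (Θ : G × α ≃ ι × H)
      (Y : Finset (ι × H →₀ F)) (P : (ι × H → F) →ₗ[F] (G → F)),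
      (∀ C : Set G, 1 ∈ C → (∀ g a, g ∈ C ↔ g * s a ∈ C) → ∀ g, g ∈ C) ∧
      (∀ (x : H) g a, Θ (x * g, a) = ((Θ (g, a)).1, x * (Θ (g, a)).2)) ∧
      (∀ y ∈ Y, ∀ (f : G → F) x,
        pr (fun e => f ((Θ.symm e).1 * s (Θ.symm e).2) - f (Θ.symm e).1) x y = 0) ∧
      ∀ ω, (∀ y ∈ Y, ∀ x, pr ω x y = 0) →
        P ω 1 = 0 ∧ ∀ g a, P ω (g * s a) = P ω g + ω (Θ (g, a)) := by
  classical
  obtain ⟨n, φ, hφ, S, hS, hSk⟩ := hG.out
  have hmem : ∀ g : G, g * ((g : G ⧸ H).out)⁻¹ ∈ H := fun g => by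
    rw [← QuotientGroup.eq_one_iff]
    simp
  have hmk : ∀ (x : H) (g : G), (((x : G) * g : G) : G ⧸ H) = g := fun x g => by
    rw [QuotientGroup.mk_mul, (QuotientGroup.eq_one_iff _).2 x.2, one_mul]
  let Θ : G × Fin n ≃ ((G ⧸ H) × Fin n) × H :=
    { toFun := fun e => (((e.1 : G ⧸ H), e.2), ⟨e.1 * ((e.1 : G ⧸ H).out)⁻¹, hmem _⟩)
      invFun := fun e => (e.2 * e.1.1.out, e.1.2)
      left_inv := fun e => by simp
      right_inv := fun e => by
        have : (((e.2 : G) * e.1.1.out : G) : G ⧸ H) = e.1.1 := by rw [hmk]; simp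
        ext <;> simp [this] }
  have hΘ : ∀ (x : H) g a, Θ (x * g, a) = ((Θ (g, a)).1, x * (Θ (g, a)).2) := fun x g a => by
    ext <;> simp [Θ, hmk, mul_assoc]
  choose c hc using exists_chain (F := F) φ Θ hΘ
  have : Fintype (G ⧸ H) := Fintype.ofFinite _
  let σ : G → FreeGroup (Fin n) := Function.surjInv hφ
  have hσ : ∀ g, φ (σ g) = g := Function.surjInv_eq hφ
  refine ⟨Fin n, fun a => φ (FreeGroup.of a), _, inferInstance, Θ,
    image₂ (fun w (q : G ⧸ H) => c w q.out) hS.toFinset univ,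
    LinearMap.pi fun g => prL 1 (c (σ g) 1), fun C h1 h2 g => ?_, hΘ, ?_, ?_⟩
  · have : ∀ w : FreeGroup (Fin n), ∀ g, g ∈ C ↔ g * φ w ∈ C := by
      intro w
      induction w using FreeGroup.induction_on with
      | C1 => simp
      | of a => exact fun g => h2 g a
      | inv_of a h =>
        intro g
        rw [h (g * φ (FreeGroup.of a)⁻¹)]
        simp
      | mul v w hv hw =>
        intro g
        rw [map_mul, ← mul_assoc, ← hw, ← hv]
    have := (this (σ g) 1).1 h1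
    rwa [hσ, one_mul] at this
  · intro y hy f x
    obtain ⟨w, hw, q, -, rfl⟩ := mem_image₂.1 hy
    have h1 : φ w = 1 := by
      have := Subgroup.subset_normalClosure (hS.mem_toFinset.1 hw)
      rwa [hSk] at this
    rw [← hc w q.out _ (fun w g => f (g * φ w) - f g)
      ⟨fun a g => by simp, fun v w g => by simp [mul_assoc]⟩]
    simp [h1]
  · intro ω hω
    obtain ⟨I, hI⟩ := exists_int φ (ω ∘ Θ)
    have h0 := hI.ker hSk fun w hw g => by
      have := hc w (g : G ⧸ H).out ω I hI ⟨_, hmem g⟩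
      rw [hω _ (mem_image₂_of_mem (hS.mem_toFinset.2 hw) (mem_univ _))] at this
      simpa using this
    have hP : ∀ g, (LinearMap.pi fun g => prL 1 (c (σ g) 1) : _ →ₗ[F] (G → F)) ω g =
        I (σ g) 1 := fun g => by
      have := hc (σ g) 1 ω I hI 1
      simp only [OneMemClass.coe_one, mul_one] at this
      exact this.symm
    refine ⟨by rw [hP, h0 _ (hσ 1)], fun g a => ?_⟩
    rw [hP, hP]
    have h1 : σ (g * φ (FreeGroup.of a)) = σ g * FreeGroup.of a *
        ((σ g * FreeGroup.of a)⁻¹ * σ (g * φ (FreeGroup.of a))) := by group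
    rw [h1, hI.2, hI.2, h0 ((σ g * FreeGroup.of a)⁻¹ * σ (g * φ (FreeGroup.of a)))
      (by simp [MonoidHom.mem_ker, hσ]), hI.1, hσ]
    simp

end Pool.Agent.Lib.MP_34a149_al
end

-- part Pool.Agent.Lib.MP_34a149_al.Bounds
section

/-!
Upper bound for the rank and lower bound for the first Betti number of a finite index subgroup.
-/

namespace Pool.Agent.Lib.MP_34a149_al

open Finset

variable (F : Type) [Field F] {G α ι Q : Type} [Group G] [Group Q] [Fintype Q] [Fintype ι]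
  {H : Subgroup G}

lemma upper (Γ : Subgroup G) [Γ.Normal] [Γ.FiniteIndex] (s : α → G) (Θ : G × α ≃ ι × H)
    (hconn : ∀ C : Set G, 1 ∈ C → (∀ g a, g ∈ C ↔ g * s a ∈ C) → ∀ g, g ∈ C)
    (hΘ : ∀ (x : H) g a, Θ (x * g, a) = ((Θ (g, a)).1, x * (Θ (g, a)).2))
    (π : H →* Q) (hπ : Function.Surjective π) (hker : ∀ x, π x = 1 → (x : G) ∈ Γ)
    (ι0 : Finset ι) (W : Finset Q)
    (hkill : ∀ (f : G → F) (ω : ι × H → F),
      ω = (fun e => f ((Θ.symm e).1 * s (Θ.symm e).2) - f (Θ.symm e).1) →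
      (∀ e : ι × H, e.1 ∈ ι0 ∨ π e.2 ∈ W → ω e = 0) → ∀ e, ω e = 0) :
    ∃ S : Finset Γ, Subgroup.closure (S : Set Γ) = ⊤ ∧
      S.card + Γ.index ≤ ι0.card * Fintype.card Q + Fintype.card ι * W.card + 1 := by
  classical
  let σ : Q → H := Function.surjInv hπ
  have hσ : ∀ q, π (σ q) = q := Function.surjInv_eq hπ
  obtain ⟨S, h1, h2⟩ := rank_bound Γ s (((ι0 ×ˢ univ) ∪ (univ ×ˢ W)).image fun e : ι × Q =>
    (((Θ.symm (e.1, σ e.2)).1 : G ⧸ Γ), (Θ.symm (e.1, σ e.2)).2)) (by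
    intro C hC hE
    have h0 := hkill (C.indicator 1) _ rfl (by
      rintro ⟨i, x⟩ he
      obtain ⟨⟨g, a⟩, hg⟩ := Θ.surjective (i, x)
      have h3 : Θ.symm (i, σ (π x)) = ((σ (π x) * x⁻¹ : H) * g, a) := by
        rw [Equiv.symm_apply_eq, hΘ, hg]
        simp
      have h4 : ((((σ (π x) * x⁻¹ : H) : G) * g : G) : G ⧸ Γ) = g := by
        rw [QuotientGroup.mk_mul, (QuotientGroup.eq_one_iff _).2 (hker _ (by simp [hσ])), one_mul]
      have h5 := hE g a (mem_image.2 ⟨(i, π x), by simpa using he, by rw [h3, h4]⟩)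
      rw [← hg]
      simp only [Equiv.symm_apply_apply]
      by_cases h : g ∈ C
      · simp [h, h5.1 h]
      · simp [h, mt h5.2 h])
    refine hconn C hC fun g a => ?_
    have := h0 (Θ (g, a))
    simp only [Equiv.symm_apply_apply] at this
    constructor <;> intro h <;> by_contra h' <;> simp [h, h'] at this)
  refine ⟨S, h1, h2.trans (Nat.succ_le_succ (card_image_le.trans ((card_union_le _ _).trans ?_)))⟩
  simp

lemma lower (Γ : Subgroup G) [Γ.Normal] [Γ.FiniteIndex] (hle : Γ ≤ H) (s : α → G)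
    (Θ : G × α ≃ ι × H)
    (hconn : ∀ C : Set G, 1 ∈ C → (∀ g a, g ∈ C ↔ g * s a ∈ C) → ∀ g, g ∈ C)
    (hΘ : ∀ (x : H) g a, Θ (x * g, a) = ((Θ (g, a)).1, x * (Θ (g, a)).2))
    (π : H →* Q) (hπ : Function.Surjective π) (hker : ∀ x : H, (x : G) ∈ Γ → π x = 1)
    (Y zs : Finset (ι × H →₀ F)) (W : Finset Q) (P : (ι × H → F) →ₗ[F] (G → F))
    (hP : ∀ ω, (∀ y ∈ Y, ∀ x, pr ω x y = 0) →
      P ω 1 = 0 ∧ ∀ g a, P ω (g * s a) = P ω g + ω (Θ (g, a)))
    (hkill : ∀ ω : ι × H → F, (∀ z ∈ zs, ∀ h, pr ω h z = 0) → (∀ e, π e.2 ∈ W → ω e = 0) →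
      ∀ y ∈ Y, ∀ x, π x ∉ W → pr ω x y = 0)
    (S : Finset Γ) (hS : Subgroup.closure (S : Set Γ) = ⊤) :
    Fintype.card ι * Fintype.card Q + 1 ≤ b1 F Γ + Γ.index +
      (zs.card * Fintype.card Q + (Fintype.card ι + Y.card) * W.card) := by
  classical
  let σ : Q → H := Function.surjInv hπ
  have hσ : ∀ q, π (σ q) = q := Function.surjInv_eq hπ
  let up : (ι × Q → F) →ₗ[F] (ι × H → F) := LinearMap.funLeft F F fun e => (e.1, π e.2)
  have hup : ∀ ω e, up ω e = ω (e.1, π e.2) := fun _ _ => rfl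
  have hpr : ∀ ω x c, pr (up ω) (σ (π x)) c = pr (up ω) x c := fun ω x c => by
    simp [pr, hup, hσ]
  let Φ : (ι × Q → F) →ₗ[F] (zs × Q → F) × (ι × W → F) × (Y × W → F) :=
    (LinearMap.pi fun e => prL (σ e.2) e.1.1 ∘ₗ up).prod
      ((LinearMap.funLeft F F fun e => (e.1, e.2.1)).prod
        (LinearMap.pi fun e => prL (σ e.2.1) e.1.1 ∘ₗ up))
  have hΦ : ∀ ω ∈ LinearMap.ker Φ, ∀ y ∈ Y, ∀ x, pr (up ω) x y = 0 := by
    intro ω hω y hy x
    rw [LinearMap.mem_ker] at hω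
    by_cases hx : π x ∈ W
    · rw [← hpr]
      exact congrFun (congrArg (fun t => t.2.2) hω) (⟨y, hy⟩, ⟨π x, hx⟩)
    · refine hkill _ (fun z hz h => ?_) (fun e he => ?_) y hy x hx
      · rw [← hpr]
        exact congrFun (congrArg (fun t => t.1) hω) (⟨z, hz⟩, π h)
      · exact congrFun (congrArg (fun t => t.2.1) hω) (e.1, ⟨π e.2, he⟩)
  have hadd : ∀ ω ∈ LinearMap.ker Φ, ∀ γ ∈ Γ, ∀ g,
      P (up ω) (γ * g) = P (up ω) γ + P (up ω) g := by
    intro ω hω γ hγ
    obtain ⟨a1, a2⟩ := hP _ (hΦ ω hω)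
    refine hconn {g | P (up ω) (γ * g) = P (up ω) γ + P (up ω) g} (by simp [a1]) fun g a => ?_
    have := hΘ ⟨γ, hle hγ⟩ g a
    simp only [Set.mem_ofPred_eq] at this ⊢
    rw [← mul_assoc, a2, a2, this, hup, hup, map_mul, hker ⟨γ, hle hγ⟩ hγ, one_mul, ← add_assoc]
    simp
  have : Fintype (G ⧸ Γ) := Fintype.ofFinite _
  let Ψ : LinearMap.ker Φ →ₗ[F] (Γ → F) × ({x : G ⧸ Γ // x ≠ 1} → F) :=
    ((LinearMap.funLeft F F fun γ => γ.1).prod (LinearMap.funLeft F F fun x => x.1.out)) ∘ₗ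
      P ∘ₗ up ∘ₗ (LinearMap.ker Φ).subtype
  have h1 := finrank_le_b1 F S hS Ψ (by
    rw [injective_iff_map_eq_zero]
    rintro ⟨ω, hω⟩ h
    have b1 : ∀ γ ∈ Γ, P (up ω) γ = 0 := fun γ hγ =>
      congrFun (congrArg (fun t => t.1) h) ⟨γ, hγ⟩
    have b2 : ∀ g, P (up ω) g = 0 := fun g => by
      by_cases hg : (g : G ⧸ Γ) = 1
      · exact b1 g ((QuotientGroup.eq_one_iff g).1 hg)
      · have b3 : P (up ω) (g : G ⧸ Γ).out = 0 := congrFun (congrArg (fun t => t.2) h) ⟨g, hg⟩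
        have b4 : g * ((g : G ⧸ Γ).out)⁻¹ ∈ Γ := by
          rw [← QuotientGroup.eq_one_iff]
          simp
        have := hadd ω hω _ b4 (g : G ⧸ Γ).out
        rw [b3, b1 _ b4] at this
        simpa using this
    ext ⟨i, q⟩
    obtain ⟨⟨g, a⟩, hg⟩ := Θ.surjective (i, σ q)
    have := (hP _ (hΦ ω hω)).2 g a
    rw [b2, b2, hg, hup, hσ] at this
    simpa using this.symm) (fun ω g h => hadd ω.1 ω.2 g g.2 h)
  have h2 := LinearMap.finrank_range_add_finrank_ker Φ
  have h3 := Submodule.finrank_le (LinearMap.range Φ)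
  simp only [Module.finrank_prod, Module.finrank_fintype_fun_eq_card, Fintype.card_prod,
    Fintype.card_coe] at h2 h3
  have h4 : Fintype.card {x : G ⧸ Γ // x ≠ 1} + 1 = Γ.index := by
    rw [Fintype.card_subtype_compl, Fintype.card_subtype_eq, Subgroup.index_eq_card,
      Nat.card_eq_fintype_card]
    have : 0 < Fintype.card (G ⧸ Γ) := Fintype.card_pos
    omega
  rw [add_mul]
  omega

end Pool.Agent.Lib.MP_34a149_al
end

-- part Pool.Agent.Lib.MP_34a149_al.Order
section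

/-!
The lexicographic bi-order attached to a tower of bi-orderable quotients.
-/

namespace Pool.Agent.Lib.MP_34a149_al

lemma exists_order {H : Type} [Group H] (N : ℕ → Subgroup H) [∀ c, (N c).Normal]
    (hanti : Antitone N) (hbot : ∀ g, (∀ c, g ∈ N c) → g = 1)
    (hord : ∀ c, BiOrderable (H ⧸ N c)) :
    ∃ (_ : LinearOrder H) (_ : MulLeftStrictMono H) (_ : MulRightStrictMono H),
      ∀ c, Cvx (N c) := by
  classical
  choose r hr1 hr2 using hord
  let PosAt : ℕ → H → Prop := fun c g => (∀ c' < c, g ∈ N c') ∧ r c 1 (g : H ⧸ N c)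
  have hne : ∀ c g, PosAt c g → g ∉ N c := by
    intro c g h h1
    have h2 := h.2
    rw [(QuotientGroup.eq_one_iff g).2 h1] at h2
    exact (hr1 c).irrefl _ h2
  have hmul : ∀ c c' a b, PosAt c a → PosAt c' b → PosAt (min c c') (a * b) := by
    intro c c' a b ha hb
    refine ⟨fun d hd => mul_mem (ha.1 d (by omega)) (hb.1 d (by omega)), ?_⟩
    rw [QuotientGroup.mk_mul]
    rcases lt_trichotomy c c' with h | h | h
    · rw [min_eq_left h.le, (QuotientGroup.eq_one_iff b).2 (hb.1 c h), mul_one]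
      exact ha.2
    · subst h
      rw [min_self]
      have := (hr2 c _ _ (a : H ⧸ N c) hb.2).1
      rw [mul_one] at this
      exact (hr1 c).trans _ _ _ ha.2 this
    · rw [min_eq_right h.le, (QuotientGroup.eq_one_iff a).2 (ha.1 c' h), one_mul]
      exact hb.2
  have hconj : ∀ c a x, PosAt c a → PosAt c (x⁻¹ * a * x) := by
    intro c a x ha
    refine ⟨fun d hd => by simpa using (inferInstance : (N d).Normal).conj_mem _ (ha.1 d hd) x⁻¹, ?_⟩
    have h1 := (hr2 c _ _ (x : H ⧸ N c)⁻¹ ha.2).1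
    have h2 := (hr2 c _ _ (x : H ⧸ N c) h1).2
    simpa using h2
  have htri : ∀ g, g ≠ 1 → (∃ c, PosAt c g) ∨ ∃ c, PosAt c g⁻¹ := by
    intro g hg
    have hex : ∃ c, g ∉ N c := by
      by_contra h
      push Not at h
      exact hg (hbot g h)
    have h1 := Nat.find_spec hex
    have h2 : ∀ c' < Nat.find hex, g ∈ N c' := fun c' h => not_not.1 (Nat.find_min hex h)
    have := hr1 (Nat.find hex)
    rcases trichotomous_of (r (Nat.find hex)) 1 (g : H ⧸ N (Nat.find hex)) with h | h | h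
    · exact Or.inl ⟨_, h2, h⟩
    · exact absurd ((QuotientGroup.eq_one_iff g).1 h.symm) h1
    · refine Or.inr ⟨_, fun d hd => inv_mem (h2 d hd), ?_⟩
      simpa using (hr2 _ _ _ (g : H ⧸ N (Nat.find hex))⁻¹ h).1
  let lt : H → H → Prop := fun a b => ∃ c, PosAt c (a⁻¹ * b)
  have sto : IsStrictTotalOrder H lt :=
    { trichotomous := by
        intro a b h1 h2
        by_contra h
        rcases htri (a⁻¹ * b) (by rwa [Ne, inv_mul_eq_one]) with h3 | h3
        · exact h1 h3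
        · exact h2 (by simpa using h3)
      irrefl := by
        rintro a ⟨c, h⟩
        exact hne c _ h (by simp)
      trans := by
        rintro a b d ⟨c, h⟩ ⟨c', h'⟩
        exact ⟨_, by simpa [mul_assoc] using hmul _ _ _ _ h h'⟩ }
  let _ : LinearOrder H := linearOrderOfSTO lt
  have hlt : ∀ a b : H, a < b ↔ ∃ c, PosAt c (a⁻¹ * b) := fun _ _ => Iff.rfl
  have i1 : MulLeftStrictMono H := ⟨fun x a b h => by
    rw [hlt] at h ⊢
    simpa [mul_assoc] using h⟩
  have i2 : MulRightStrictMono H := ⟨fun x a b h => by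
    obtain ⟨c, h⟩ := (hlt _ _).1 h
    exact (hlt _ _).2 ⟨c, by simpa [mul_assoc, Function.swap] using hconj c _ x h⟩⟩
  refine ⟨inferInstance, i1, i2, fun c => ⟨inferInstance, fun a b ha hb h => ?_⟩⟩
  rcases hb.eq_or_lt with rfl | hb
  · simpa using h
  · obtain ⟨d, h1⟩ := (hlt _ _).1 ha
    obtain ⟨d', h2⟩ := (hlt _ _).1 hb
    rw [inv_one, one_mul] at h1 h2
    refine h1.1 c ?_
    by_contra h3
    exact hne _ _ (hmul _ _ _ _ h1 h2) (hanti (by omega) h)

end Pool.Agent.Lib.MP_34a149_al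
end

-- part Pool.Agent.Lib.MP_34a149_al.Main
section

/-!
The rank gradient equals the first Betti number gradient over every field.
-/

namespace Pool.Agent.Lib.MP_34a149_al

open Finset Filter Topology

lemma numeric {r b k z a y m d w : ℕ} {ε : ℝ} (hm : 0 < m) (hd : 0 < d) (hε : 0 < ε)
    (hw : (w : ℝ) ≤ ε / (a + y + 1) * m) (hz : z + k = a)
    (h1 : r + m * d ≤ k * m + a * w + 1) (h2 : a * m + 1 ≤ b + m * d + (z * m + (a + y) * w)) :
    ((r : ℝ) - 1) / (m * d : ℕ) ≤ k / d - 1 + ε ∧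
      (k : ℝ) / d - 1 - ε ≤ ((b : ℝ) - 1) / (m * d : ℕ) := by
  have h1' : (r : ℝ) + m * d ≤ k * m + a * w + 1 := by exact_mod_cast h1
  have h2' : (a : ℝ) * m + 1 ≤ b + m * d + (z * m + (a + y) * w) := by exact_mod_cast h2
  have hz' : (z : ℝ) + k = a := by exact_mod_cast hz
  have hm' : (0 : ℝ) < m := by exact_mod_cast hm
  have hd' : (1 : ℝ) ≤ d := by exact_mod_cast hd
  have h3 : ((a : ℝ) + y + 1) * w ≤ ε * m := by
    refine (mul_le_mul_of_nonneg_left hw (by positivity)).trans (le_of_eq ?_)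
    field_simp
  have h4 : ε * m ≤ ε * m * d := le_mul_of_one_le_right (by positivity) hd'
  have h5 : (0 : ℝ) ≤ y * w := by positivity
  have h6 : (0 : ℝ) ≤ w := by positivity
  have h7 : (k : ℝ) / d * (m * d) = k * m := by field_simp
  have h8 : (z : ℝ) * m + k * m = a * m := by rw [← hz', add_mul]
  push_cast
  constructor
  · rw [div_le_iff₀ (by positivity), add_mul, sub_mul, h7]
    linarith
  · rw [le_div_iff₀ (by positivity), sub_mul, sub_mul, h7]
    linarith

theorem estimate (F : Type) [Field F] {G : Type} [Group G] [Group.IsFinitelyPresented G]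
    (Γ : ℕ → Subgroup G) [∀ i, (Γ i).Normal] [∀ i, (Γ i).FiniteIndex] (hanti : Antitone Γ)
    (j : ℕ) (N : ℕ → Subgroup (Γ j)) [∀ c, (N c).Normal] (hN : Antitone N)
    (hbot : ∀ g, (∀ c, g ∈ N c) → g = 1) (hord : ∀ c, BiOrderable (Γ j ⧸ N c))
    (hA : ∀ c, Amenable (Γ j ⧸ N c))
    (hsep : ∀ c g, (∀ i, g ∈ (Γ i).subgroupOf (Γ j) ⊔ N c) → g ∈ N c) :
    ∃ l : ℝ, ∀ ε > 0, ∀ᶠ i in atTop, (∃ S : Finset (Γ i), Subgroup.closure (S : Set (Γ i)) = ⊤) ∧
      ((genRank (Γ i) : ℝ) - 1) / (Γ i).index ≤ l + ε ∧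
      l - ε ≤ ((b1 F (Γ i) : ℝ) - 1) / (Γ i).index := by
  classical
  obtain ⟨_, _, _, hcvx⟩ := exists_order N hN hbot hord
  obtain ⟨α, s, ι, _, Θ, Y, P, hconn, hΘ, hY, hP⟩ := fox F (Γ j)
  obtain ⟨ι0, zs, K, hzs, hcard, hcore⟩ := core (F := F) (ι := ι) hcvx hN hbot
    {y | ∀ (f : G → F) x,
      pr (fun e => f ((Θ.symm e).1 * s (Θ.symm e).2) - f (Θ.symm e).1) x y = 0}
  choose c0 hc0 using hcore
  obtain ⟨Ys, hYs1, hYs2⟩ : ∃ Ys : Finset (ι × Γ j →₀ F), Y ⊆ Ys ∧
      ∀ i, Finsupp.single (i, 1) 1 ∈ Ys :=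
    ⟨Y ∪ univ.image fun i => Finsupp.single (i, 1) 1, subset_union_left,
      fun i => mem_union_right _ (mem_image_of_mem _ (mem_univ _))⟩
  refine ⟨ι0.card / (Γ j).index - 1, fun ε hε => ?_⟩
  filter_upwards [eventually_ge_atTop j, tile (N (Ys.sup c0)) (hA _)
    (fun i => (Γ i).subgroupOf (Γ j)) (fun a b h => Subgroup.comap_mono (hanti h)) (hsep _) K
    (Ys.biUnion fun y => image₂ (fun e k => e.2 * k⁻¹) y.support K)
    (ε := ε / (Fintype.card ι + Y.card + 1)) (by positivity)] with i hi ⟨W, hW, hW'⟩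
  have key := fun y (hy : y ∈ Ys) (x : Γ j) hx (ω : ι × Γ j → F) h1
      (h2 : ∀ e : ι × Γ j, (e.2 : Γ j ⧸ (Γ i).subgroupOf (Γ j)) ∈ W → ω e = 0) h3 =>
    (hW' x hx).elim fun U hU => hU.elim fun U0 hU => hc0 y _ (le_sup hy) x U U0 hU.1
      (fun e he k hk => by
        rw [mul_assoc]
        exact hU.2.1 _ (mem_biUnion.2 ⟨y, hy, mem_image₂_of_mem he hk⟩)) ω h1
      (fun e a1 a2 => h2 e (hU.2.2 _ a1 a2)) h3
  have : Fintype (Γ j ⧸ (Γ i).subgroupOf (Γ j)) := Fintype.ofFinite _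
  obtain ⟨S, hS, h1⟩ := upper F (Γ i) s Θ hconn hΘ (QuotientGroup.mk' ((Γ i).subgroupOf (Γ j)))
    (QuotientGroup.mk'_surjective _) (fun x hx => (QuotientGroup.eq_one_iff x).1 hx) ι0 W (by
      rintro f ω hω h0 ⟨a, x⟩
      by_cases hx : (x : Γ j ⧸ (Γ i).subgroupOf (Γ j)) ∈ W
      · exact h0 _ (Or.inr hx)
      · have := key _ (hYs2 a) x hx ω (fun z hz h => hω ▸ hzs hz f h)
          (fun e he => h0 e (Or.inr he)) (Or.inr fun e he => h0 e (Or.inl he))
        simpa [pr_single] using this)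
  have h2 := lower F (Γ i) (hanti hi) s Θ hconn hΘ (QuotientGroup.mk' ((Γ i).subgroupOf (Γ j)))
    (QuotientGroup.mk'_surjective _) (fun x hx => (QuotientGroup.eq_one_iff x).2 hx) Y zs W P hP
    (fun ω a1 a2 y hy x hx => key y (hYs1 hy) x hx ω a1 a2 (Or.inl (hY y hy))) S hS
  have h3 := genRank_le S hS
  rw [← Nat.card_eq_fintype_card (α := _ ⧸ _), ← Subgroup.index_eq_card] at h1 h2
  have h4 : (Γ i).index = ((Γ i).subgroupOf (Γ j)).index * (Γ j).index :=
    (Subgroup.relIndex_mul_index (hanti hi)).symm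
  rw [h4] at h1 h2 ⊢
  exact ⟨⟨S, hS⟩, numeric (Nat.pos_of_ne_zero Subgroup.FiniteIndex.index_ne_zero)
    (Nat.pos_of_ne_zero Subgroup.FiniteIndex.index_ne_zero) hε hW hcard (by omega) h2⟩

lemma squeeze {u v : ℕ → ℝ} {l : ℝ} (huv : ∀ᶠ i in atTop, v i ≤ u i)
    (h : ∀ ε > 0, ∀ᶠ i in atTop, u i ≤ l + ε ∧ l - ε ≤ v i) :
    Tendsto u atTop (𝓝 l) ∧ Tendsto v atTop (𝓝 l) := by
  constructor <;> rw [Metric.tendsto_nhds] <;> intro ε hε <;>
    filter_upwards [huv, h _ (half_pos hε)] with i h1 h2 <;> rw [Real.dist_eq, abs_lt] <;>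
    constructor <;> linarith [h2.1, h2.2]

theorem gradients (F : Type) [Field F] {G : Type} [Group G] [Group.IsFinitelyPresented G]
    (Γ : ℕ → Subgroup G) [∀ i, (Γ i).Normal] [∀ i, (Γ i).FiniteIndex] (hanti : Antitone Γ)
    (j : ℕ) (N : ℕ → Subgroup (Γ j)) [∀ c, (N c).Normal] (hN : Antitone N)
    (hbot : ∀ g, (∀ c, g ∈ N c) → g = 1) (hord : ∀ c, BiOrderable (Γ j ⧸ N c))
    (hA : ∀ c, Amenable (Γ j ⧸ N c))
    (hsep : ∀ c g, (∀ i, g ∈ (Γ i).subgroupOf (Γ j) ⊔ N c) → g ∈ N c) :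
    ∃ l : ℝ, (∀ᶠ i in atTop, ∃ S : Finset (Γ i), Subgroup.closure (S : Set (Γ i)) = ⊤) ∧
      Tendsto (fun i => ((genRank (Γ i) : ℝ) - 1) / (Γ i).index) atTop (𝓝 l) ∧
      Tendsto (fun i => ((b1 F (Γ i) : ℝ) - 1) / (Γ i).index) atTop (𝓝 l) := by
  obtain ⟨l, hl⟩ := estimate F Γ hanti j N hN hbot hord hA hsep
  have h0 := (hl 1 one_pos).mono fun i h => h.1
  refine ⟨l, h0, squeeze ?_ fun ε hε => (hl ε hε).mono fun i h => h.2⟩
  filter_upwards [h0] with i ⟨S, hS⟩
  obtain ⟨S', h1, h2⟩ := exists_genRank S hS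
  have := b1_le F S' h2
  rw [h1] at this
  have h3 : (b1 F (Γ i) : ℝ) ≤ genRank (Γ i) := by exact_mod_cast this
  gcongr

end Pool.Agent.Lib.MP_34a149_al
end
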